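import Pool.Agent.H77.Morse.Insert

set_option autoImplicit false

/-!
# Attaching strips at the value `-1/2`
-/

namespace Pool.Agent.H77.Morse

open Finset

open Classical in
/-- The weight `(-1/2)^|M|` of a matching if all simplices of `S` are matched, and zero otherwise. -/
noncomputable def wt (S : Finset (Finset ℕ)) (M : Finset (Finset ℕ × Finset ℕ)) : ℚ :=
  if ∀ s ∈ S, ∃ t, (s, t) ∈ M then (-1 / 2) ^ M.card else 0

/-- The generating function at `-1/2` of the acyclic matchings in which all simplices of `S` are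
matched. -/
noncomputable def W (T D S : Finset (Finset ℕ)) : ℚ := ∑ M ∈ AM T D, wt S M

lemma wt_insert {S : Finset (Finset ℕ)} {M : Finset (Finset ℕ × Finset ℕ)} {e t : Finset ℕ}
    (heS : e ∉ S) (hM : (e, t) ∉ M) : wt S (insert (e, t) M) = (-1 / 2) * wt S M := by
  classical
  unfold wt
  have h : (∀ s ∈ S, ∃ t', (s, t') ∈ insert (e, t) M) ↔ ∀ s ∈ S, ∃ t', (s, t') ∈ M := by
    constructor
    · intro h s hs
      obtain ⟨t', ht'⟩ := h s hs
      rw [mem_insert] at ht'
      rcases ht' with ht' | ht'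
      · rw [Prod.mk.injEq] at ht'
        exact absurd (ht'.1 ▸ hs) heS
      · exact ⟨t', ht'⟩
    · intro h s hs
      obtain ⟨t', ht'⟩ := h s hs
      exact ⟨t', mem_insert_of_mem ht'⟩
  by_cases hc : ∀ s ∈ S, ∃ t', (s, t') ∈ M
  · rw [if_pos hc, if_pos (h.2 hc), card_insert_of_notMem hM, pow_succ]
    ring
  · rw [if_neg hc, if_neg (fun h' => hc (h.1 h')), mul_zero]

/-- Matchings do not see unused simplices which are not facets. -/
lemma AM_insert_dead {T D : Finset (Finset ℕ)} {e : Finset ℕ} (h : ∀ t ∈ T, ¬ Cov e t) :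
    AM T (insert e D) = AM T D := by
  ext M
  rw [mem_AM, mem_AM]
  constructor
  · intro hM
    exact ⟨fun e' t' h' => ⟨(hM.sub _ _ h').1, fun h1 => (hM.sub _ _ h').2.1
      (mem_insert_of_mem h1), (hM.sub _ _ h').2.2⟩, hM.fn, hM.wf⟩
  · intro hM
    refine ⟨fun e' t' h' => ⟨(hM.sub _ _ h').1, fun h1 => ?_, (hM.sub _ _ h').2.2⟩, hM.fn, hM.wf⟩
    rw [mem_insert] at h1
    rcases h1 with rfl | h1
    · exact h t' (hM.sub _ _ h').1 (hM.sub _ _ h').2.2
    · exact (hM.sub _ _ h').2.1 h1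

open Classical in
/-- The new simplex is matched with a free facet. -/
lemma inner_free {T D S : Finset (Finset ℕ)} {e t : Finset ℕ} (ht : t ∉ T)
    (hfree : ∀ t' ∈ T, ¬ Cov e t') (heS : e ∉ S) :
    ∑ M ∈ (AM T (insert e D)).filter (fun M => WellFounded (Arc (insert (e, t) M))),
      wt S (insert (e, t) M) = (-1 / 2) * W T D S := by
  rw [AM_insert_dead hfree, filter_true_of_mem]
  · unfold W
    rw [mul_sum]
    refine sum_congr rfl (fun M hM => ?_)
    exact wt_insert heS (fun h => ht ((mem_AM.1 hM).sub _ _ h).1)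
  · intro M hM
    rw [mem_AM] at hM
    exact wf_insert_source hM.wf (fun e' t' h' => hfree t' (hM.sub _ _ h').1)
      (fun t' h' => hfree t' (hM.sub _ _ h').1 (hM.sub _ _ h').2.2)

open Classical in
/-- The new simplex is matched with a facet, all other facets being unused. -/
lemma inner_sink {T D S : Finset (Finset ℕ)} {e t : Finset ℕ} (ht : t ∉ T)
    (hsink : ∀ e', Cov e' t → e' ≠ e → e' ∈ D ∨ ∀ t' ∈ T, ¬ Cov e' t') (heS : e ∉ S) :
    ∑ M ∈ (AM T (insert e D)).filter (fun M => WellFounded (Arc (insert (e, t) M))),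
      wt S (insert (e, t) M) = (-1 / 2) * W T (insert e D) S := by
  rw [filter_true_of_mem]
  · unfold W
    rw [mul_sum]
    refine sum_congr rfl (fun M hM => ?_)
    exact wt_insert heS (fun h => ht ((mem_AM.1 hM).sub _ _ h).1)
  · intro M hM
    rw [mem_AM] at hM
    refine wf_insert_sink hM.wf (fun t' h' => (hM.sub _ _ h').2.1 (mem_insert_self _ _)) ?_
    intro e' h1 h2 t' h'
    obtain ⟨h3, h4, h5⟩ := hM.sub _ _ h'
    rcases hsink e' h1 h2 with h6 | h6
    · exact h4 (mem_insert_of_mem h6)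
    · exact h6 t' h3 h5

lemma facets_triple {i j k : ℕ} (hij : i ≠ j) (hik : i ≠ k) (hjk : j ≠ k) :
    facets {i, j, k} = {{i, j}, {i, k}, {j, k}} := by
  classical
  have hcard : ({i, j, k} : Finset ℕ).card = 3 := card_eq_three.2 ⟨i, j, k, hij, hik, hjk, rfl⟩
  ext s
  rw [mem_facets]
  constructor
  · rintro ⟨h1, h2⟩
    rw [hcard] at h2
    have h3 : s.card = 2 := by omega
    obtain ⟨a, b, hab, rfl⟩ := card_eq_two.1 h3
    have ha := h1 (mem_insert_self _ _)
    have hb := h1 (mem_insert_of_mem (mem_singleton_self _))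
    simp only [mem_insert, mem_singleton] at ha hb ⊢
    rcases ha with rfl | rfl | rfl <;> rcases hb with rfl | rfl | rfl <;>
      simp_all [pair_comm]
  · intro h
    simp only [mem_insert, mem_singleton] at h
    unfold Cov
    rw [hcard]
    rcases h with rfl | rfl | rfl
    · rw [card_pair hij]
      exact ⟨by intro a; simp only [mem_insert, mem_singleton]; tauto, rfl⟩
    · rw [card_pair hik]
      exact ⟨by intro a; simp only [mem_insert, mem_singleton]; tauto, rfl⟩
    · rw [card_pair hjk]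
      exact ⟨by intro a; simp only [mem_insert, mem_singleton]; tauto, rfl⟩

lemma pair_ne {a b c d : ℕ} (h : (a ≠ c ∧ a ≠ d) ∨ (b ≠ c ∧ b ≠ d)) :
    ({a, b} : Finset ℕ) ≠ {c, d} := by
  intro heq
  have ha : a ∈ ({c, d} : Finset ℕ) := heq ▸ mem_insert_self _ _
  have hb : b ∈ ({c, d} : Finset ℕ) := heq ▸ mem_insert_of_mem (mem_singleton_self _)
  simp only [mem_insert, mem_singleton] at ha hb
  tauto

lemma not_cov_of_fresh {T : Finset (Finset ℕ)} {k : ℕ} {e : Finset ℕ} (h : ∀ t ∈ T, k ∉ t)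
    (hk : k ∈ e) : ∀ t ∈ T, ¬ Cov e t := fun t ht hc => h t ht (hc.1 hk)

open Classical in
/-- A triangle with two free edges kills the third one. -/
lemma W_kill {T D S : Finset (Finset ℕ)} {i μ κ : ℕ} (h1 : i ≠ μ) (h2 : i ≠ κ) (h3 : μ ≠ κ)
    (hκ : ∀ t ∈ T, κ ∉ t) (hκD : ∀ s ∈ D, κ ∉ s) (hκS : ∀ s ∈ S, κ ∉ s)
    (hrD : ({i, μ} : Finset ℕ) ∉ D) (hrS : ({i, μ} : Finset ℕ) ∉ S) :
    W (insert {i, μ, κ} T) D S = (-1 / 2) * W T (insert {i, μ} D) S := by
  have ht : ({i, μ, κ} : Finset ℕ) ∉ T := fun h => hκ _ h (by simp)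
  have e1 : W (insert {i, μ, κ} T) D S = ∑ M ∈ AM (insert {i, μ, κ} T) D, wt S M := rfl
  have hg : ({i, κ} : Finset ℕ) ∉ D := fun h => hκD _ h (by simp)
  have hh : ({μ, κ} : Finset ℕ) ∉ D := fun h => hκD _ h (by simp)
  have hgS : ({i, κ} : Finset ℕ) ∉ S := fun h => hκS _ h (by simp)
  have hhS : ({μ, κ} : Finset ℕ) ∉ S := fun h => hκS _ h (by simp)
  rw [e1, sum_AM_insert ht, facets_triple h1 h2 h3, filter_true_of_mem]
  · rw [sum_insert, sum_insert, sum_singleton]
    · rw [inner_free ht (not_cov_of_fresh hκ (by simp)) hgS,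
        inner_free ht (not_cov_of_fresh hκ (by simp)) hhS, inner_sink ht ?_ hrS]
      · have : ∑ M ∈ AM T D, wt S M = W T D S := rfl
        rw [this]
        ring
      · intro e' hc hne
        right
        have : e' ∈ facets {i, μ, κ} := mem_facets.2 hc
        rw [facets_triple h1 h2 h3] at this
        simp only [mem_insert, mem_singleton] at this
        rcases this with rfl | rfl | rfl
        · exact absurd rfl hne
        · exact not_cov_of_fresh hκ (by simp)
        · exact not_cov_of_fresh hκ (by simp)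
    · rw [mem_singleton]
      exact pair_ne (Or.inl ⟨h1, h2⟩)
    · rw [mem_insert, mem_singleton, not_or]
      exact ⟨pair_ne (Or.inr ⟨h1.symm, h3⟩), pair_ne (Or.inl ⟨h1, h2⟩)⟩
  · intro e he
    simp only [mem_insert, mem_singleton] at he
    rcases he with rfl | rfl | rfl
    · exact hrD
    · exact hg
    · exact hh

open Classical in
/-- A triangle with one free and one dead edge. -/
lemma W_must {T S : Finset (Finset ℕ)} {i j μ : ℕ} (h1 : i ≠ j) (h2 : i ≠ μ) (h3 : j ≠ μ)
    (hμ : ∀ t ∈ T, μ ∉ t) (hμS : ∀ s ∈ S, μ ∉ s) (heS : ({i, j} : Finset ℕ) ∉ S) :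
    W (insert {i, j, μ} T) {{i, μ}} S = (1 / 2) * (W T ∅ S - W T {{i, j}} S) := by
  have ht : ({i, j, μ} : Finset ℕ) ∉ T := fun h => hμ _ h (by simp)
  have e1 : W (insert {i, j, μ} T) {{i, μ}} S =
    ∑ M ∈ AM (insert {i, j, μ} T) {{i, μ}}, wt S M := rfl
  have hr : ∀ t ∈ T, ¬ Cov {i, μ} t := not_cov_of_fresh hμ (by simp)
  have hf : ∀ t ∈ T, ¬ Cov {j, μ} t := not_cov_of_fresh hμ (by simp)
  have hfS : ({j, μ} : Finset ℕ) ∉ S := fun h => hμS _ h (by simp)
  have e2 : (({{i, j}, {i, μ}, {j, μ}} : Finset (Finset ℕ)).filter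
      (· ∉ ({{i, μ}} : Finset (Finset ℕ)))) = {{i, j}, {j, μ}} := by
    ext s
    simp only [mem_filter, mem_insert, mem_singleton]
    constructor
    · rintro ⟨rfl | rfl | rfl, h⟩
      · left; rfl
      · exact absurd rfl h
      · right; rfl
    · rintro (rfl | rfl)
      · exact ⟨Or.inl rfl, pair_ne (Or.inr ⟨h1.symm, h3⟩)⟩
      · exact ⟨Or.inr (Or.inr rfl), pair_ne (Or.inl ⟨h1.symm, h3⟩)⟩
  have e3 : AM T {{i, μ}} = AM T ∅ := by
    have := AM_insert_dead (T := T) (D := ∅) hr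
    rwa [insert_empty_eq] at this
  have e4 : AM T (insert {i, j} {{i, μ}}) = AM T {{i, j}} := by
    have := AM_insert_dead (T := T) (D := {{i, j}}) hr
    rwa [Finset.pair_comm] at this
  rw [e1, sum_AM_insert ht, facets_triple h1 h2 h3, e2, sum_pair]
  · rw [inner_free ht hf hfS, inner_sink ht ?_ heS]
    · unfold W
      rw [e3, e4]
      ring
    · intro e' hc hne
      have : e' ∈ facets {i, j, μ} := mem_facets.2 hc
      rw [facets_triple h1 h2 h3] at this
      simp only [mem_insert, mem_singleton] at this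
      rcases this with rfl | rfl | rfl
      · exact absurd rfl hne
      · left; simp
      · right; exact hf
  · exact pair_ne (Or.inl ⟨h1, h2⟩)

/-- Inclusion-exclusion: matchings in which `e` is matched. -/
lemma W_sub {T S : Finset (Finset ℕ)} {e : Finset ℕ} :
    W T ∅ S - W T {e} S = W T ∅ (insert e S) := by
  classical
  have h1 : AM T {e} = (AM T ∅).filter (fun M => ∀ t, (e, t) ∉ M) := by
    ext M
    rw [mem_filter, mem_AM, mem_AM]
    constructor
    · intro hM
      exact ⟨⟨fun e' t' h' => ⟨(hM.sub _ _ h').1, by simp, (hM.sub _ _ h').2.2⟩, hM.fn, hM.wf⟩,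
        fun t h => (hM.sub _ _ h).2.1 (mem_singleton_self _)⟩
    · rintro ⟨hM, h⟩
      refine ⟨fun e' t' h' => ⟨(hM.sub _ _ h').1, ?_, (hM.sub _ _ h').2.2⟩, hM.fn, hM.wf⟩
      rw [mem_singleton]
      rintro rfl
      exact h t' h'
  unfold W
  rw [h1, sum_filter, ← sum_sub_distrib]
  refine sum_congr rfl (fun M _ => ?_)
  unfold wt
  by_cases h2 : ∀ t, (e, t) ∉ M
  · rw [if_pos h2, sub_self, if_neg]
    intro h3
    obtain ⟨t, ht⟩ := h3 e (mem_insert_self _ _)
    exact h2 t ht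
  · rw [if_neg h2, sub_zero]
    push Not at h2
    by_cases h3 : ∀ s ∈ S, ∃ t, (s, t) ∈ M
    · rw [if_pos h3, if_pos]
      intro s hs
      rw [mem_insert] at hs
      rcases hs with rfl | hs
      · exact h2
      · exact h3 s hs
    · rw [if_neg h3, if_neg]
      intro h4
      exact h3 (fun s hs => h4 s (mem_insert_of_mem hs))

/-- Attaching a strip of two triangles along an edge. -/
lemma W_strip {T S : Finset (Finset ℕ)} {i j μ κ : ℕ} (hij : i ≠ j) (hiμ : i ≠ μ) (hjμ : j ≠ μ)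
    (hiκ : i ≠ κ) (hjκ : j ≠ κ) (hμκ : μ ≠ κ) (hμ : ∀ t ∈ T, μ ∉ t) (hκ : ∀ t ∈ T, κ ∉ t)
    (hμS : ∀ s ∈ S, μ ∉ s) (hκS : ∀ s ∈ S, κ ∉ s) (heS : ({i, j} : Finset ℕ) ∉ S) :
    W (insert {i, μ, κ} (insert {i, j, μ} T)) ∅ S = (-1 / 4) * W T ∅ (insert {i, j} S) := by
  rw [W_kill hiμ hiκ hμκ, insert_empty_eq, W_must hij hiμ hjμ hμ hμS heS, W_sub]
  · ring
  · intro t ht
    rw [mem_insert] at ht
    rcases ht with rfl | ht
    · simp only [mem_insert, mem_singleton, not_or]
      exact ⟨hiκ.symm, hjκ.symm, hμκ.symm⟩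
    · exact hκ t ht
  · simp
  · exact hκS
  · simp
  · intro h
    exact hμS _ h (by simp)

end Pool.Agent.H77.Morse
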