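import Pool.Agent.H77.Morse.Defs
import Pool.Agent.H77.Morse.Strip

set_option autoImplicit false

/-!
# The part of the Morse ensemble polynomial with all vertices critical
-/

namespace Pool.Agent.H77.Morse

open Finset

/-- The data used below: `K` is a complex of dimension at most two. -/
structure IsCx2 (K : Finset (Finset ℕ)) : Prop where
  ne : ∀ s ∈ K, s.Nonempty
  faces : ∀ s ∈ K, ∀ t ⊆ s, t.Nonempty → t ∈ K
  card_le : ∀ s ∈ K, s.card ≤ 3

variable {K : Finset (Finset ℕ)} {M : Finset (Finset ℕ × Finset ℕ)}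

/-- The triangles. -/
def tris (K : Finset (Finset ℕ)) : Finset (Finset ℕ) := K.filter (fun s => s.card = 3)

lemma arc_step (h : IsAcyclicMatching K M) (hK : IsCx2 K) (h2 : ∀ s t, (s, t) ∈ M → t.card = 3)
    {e e' : Finset ℕ} (ha : Arc M e' e) : Relation.TransGen (Step K M) e e' := by
  obtain ⟨t, ht, hcov, hne⟩ := ha
  obtain ⟨he, htK, hc⟩ := h.pairs _ _ ht
  have h3 := h2 _ _ ht
  have he' : e' ∈ K := by
    refine hK.faces t htK e' hcov.1 ?_
    rw [← card_pos]
    have := hcov.2
    omega
  refine Relation.TransGen.head ⟨he, htK, Or.inr ht⟩ (Relation.TransGen.single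
    ⟨htK, he', Or.inl ⟨hcov, fun hn => ?_⟩⟩)
  have := (h.matching _ ht _ hn (fun h' => hne (by rw [Prod.mk.injEq] at h'; exact h'.1.symm))).2.2.2
  exact this rfl

/-- Acyclicity gives well-foundedness. -/
lemma wf_of_acyclic (h : IsAcyclicMatching K M) (hK : IsCx2 K)
    (h2 : ∀ s t, (s, t) ∈ M → t.card = 3) : WellFounded (Arc M) := by
  let r : {e // e ∈ K} → {e // e ∈ K} → Prop := fun a b => Relation.TransGen (Arc M) a.1 b.1
  have hT : ∀ a b : Finset ℕ, Relation.TransGen (Arc M) a b → Relation.TransGen (Step K M) b a := by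
    intro a b hab
    induction hab with
    | single h1 => exact arc_step h hK h2 h1
    | tail _ h1 ih => exact (arc_step h hK h2 h1).trans ih
  have htr : IsTrans _ r := ⟨fun a b c h1 h2 => Relation.TransGen.trans h1 h2⟩
  have hir : Std.Irrefl r := ⟨fun a ha => h.acyclic a.1 (hT _ _ ha)⟩
  have hwf : WellFounded r := Finite.wellFounded_of_trans_of_irrefl r
  have hacc : ∀ e : {e // e ∈ K}, Acc (Arc M) e.1 := by
    intro e
    induction e using hwf.induction with
    | _ e ih =>
      refine Acc.intro _ ?_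
      intro e' ha
      have ha' := ha
      obtain ⟨t, ht, hcov, hne⟩ := ha'
      obtain ⟨he, htK, hc⟩ := h.pairs _ _ ht
      have h3 := h2 _ _ ht
      have he' : e' ∈ K := by
        refine hK.faces t htK e' hcov.1 ?_
        rw [← card_pos]
        have := hcov.2
        omega
      exact ih ⟨e', he'⟩ (Relation.TransGen.single ha)
  constructor
  intro e
  by_cases he : e ∈ K
  · exact hacc ⟨e, he⟩
  · exact acc_of_not_dom (fun t ht => he (h.pairs _ _ ht).1)

/-- Well-foundedness gives acyclicity. -/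
lemma acyclic_of_wf (hM : IsAM (tris K) ∅ M) (hK : IsCx2 K) :
    ∀ s, ¬ Relation.TransGen (Step K M) s s := by
  have hcov : ∀ {e t}, (e, t) ∈ M → e.card = 2 ∧ t.card = 3 := by
    intro e t h
    obtain ⟨h1, _, h3⟩ := hM.sub _ _ h
    have h4 := (mem_filter.1 h1).2
    have := h3.2
    exact ⟨by omega, h4⟩
  -- the converse relation is well-founded
  have hv : ∀ s, s.card ≤ 1 → Acc (fun a b => Step K M b a) s := by
    intro s hs
    refine Acc.intro _ ?_
    rintro s' ⟨h1, h2, ⟨h3, _⟩ | h3⟩
    · exfalso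
      have h4 := h3.2
      have := (hK.ne s' h2).card_pos
      omega
    · have := (hcov h3).1
      omega
  have hm : ∀ e t, (e, t) ∈ M → e.card = 2 := fun e t h => (hcov h).1
  have he : ∀ e, e.card = 2 → Acc (fun a b => Step K M b a) e := by
    intro e
    induction e using hM.wf.induction with
    | _ e ih =>
      intro hc
      refine Acc.intro _ ?_
      rintro s' ⟨h1, h2, ⟨h3, h4⟩ | h3⟩
      · exact hv s' (by have := h3.2; omega)
      · refine Acc.intro _ ?_
        obtain ⟨_, ht⟩ := hcov h3
        rintro s'' ⟨h5, h6, ⟨h7, h8⟩ | h7⟩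
        · have hne : s'' ≠ e := by
            rintro rfl
            exact h8 h3
          have := h7.2
          exact ih s'' ⟨s', h3, h7, hne⟩ (by omega)
        · have := (hcov h7).1
          omega
  have ht : ∀ t, t.card = 3 → Acc (fun a b => Step K M b a) t := by
    intro t ht
    refine Acc.intro _ ?_
    rintro s' ⟨h1, h2, ⟨h3, h4⟩ | h3⟩
    · exact he s' (by have := h3.2; omega)
    · have := (hcov h3).1
      omega
  have hall : WellFounded (fun a b => Step K M b a) := by
    constructor
    intro s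
    by_cases hs : s ∈ K
    · have h1 := hK.card_le s hs
      have h2 : s.card ≤ 1 ∨ s.card = 2 ∨ s.card = 3 := by omega
      rcases h2 with h2 | h2 | h2
      · exact hv s h2
      · exact he s h2
      · exact ht s h2
    · exact Acc.intro _ (fun s' h => absurd h.1 hs)
  intro s hs
  have h1 : Relation.TransGen (fun a b => Step K M b a) s s := by
    have := Relation.transGen_swap.2 hs
    exact this
  exact hall.transGen.irrefl.irrefl s h1

/-- The number of vertices. -/
def nverts (K : Finset (Finset ℕ)) : ℕ := (K.filter (fun s => s.card = 1)).card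

lemma crit_zero (M : Finset (Finset ℕ × Finset ℕ)) : crit K M 0 = nverts K ↔
    ∀ s ∈ K, s.card = 1 → ∀ t, (s, t) ∉ M ∧ (t, s) ∉ M := by
  classical
  unfold crit nverts
  have hsub : K.filter (fun s => s.card = 0 + 1 ∧ ∀ t, (s, t) ∉ M ∧ (t, s) ∉ M) ⊆
      K.filter (fun s => s.card = 1) := by
    intro s hs
    rw [mem_filter] at hs ⊢
    exact ⟨hs.1, hs.2.1⟩
  constructor
  · intro h s hs h1
    have := eq_of_subset_of_card_le hsub h.ge
    have h2 : s ∈ K.filter (fun s => s.card = 1) := mem_filter.2 ⟨hs, h1⟩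
    rw [← this, mem_filter] at h2
    exact h2.2.2
  · intro h
    congr 1
    refine Subset.antisymm hsub ?_
    intro s hs
    rw [mem_filter] at hs ⊢
    exact ⟨hs.1, hs.2, h s hs.1 hs.2⟩

theorem bridge (hK : IsCx2 K) :
    (IsAcyclicMatching K M ∧ crit K M 0 = nverts K) ↔ IsAM (tris K) ∅ M := by
  constructor
  · rintro ⟨h, h0⟩
    rw [crit_zero] at h0
    have h2 : ∀ s t, (s, t) ∈ M → t.card = 3 := by
      intro s t hst
      obtain ⟨h1, h2, h3⟩ := h.pairs _ _ hst
      have h4 := (hK.ne s h1).card_pos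
      have h5 := hK.card_le t h2
      have h6 := h3.2
      by_contra hne
      have : s.card = 1 := by omega
      exact (h0 s h1 this t).1 hst
    refine ⟨?_, ?_, wf_of_acyclic h hK h2⟩
    · intro e t het
      exact ⟨mem_filter.2 ⟨(h.pairs _ _ het).2.1, h2 _ _ het⟩, by simp, (h.pairs _ _ het).2.2⟩
    · intro e t t' h1 h3
      by_contra hne
      exact (h.matching _ h1 _ h3 (fun h' => hne (by rw [Prod.mk.injEq] at h'; exact h'.2))).1 rfl
  · intro hM
    have hcov : ∀ {e t}, (e, t) ∈ M → e.card = 2 ∧ t.card = 3 ∧ t ∈ K ∧ e ∈ K ∧ Cov e t := by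
      intro e t h
      obtain ⟨h1, _, h3⟩ := hM.sub _ _ h
      have h4 := mem_filter.1 h1
      have h5 := h3.2
      have h6 : e.card = 2 := by omega
      refine ⟨h6, h4.2, h4.1, hK.faces t h4.1 e h3.1 ?_, h3⟩
      rw [← card_pos]; omega
    refine ⟨⟨?_, ?_, acyclic_of_wf hM hK⟩, ?_⟩
    · intro s t h
      obtain ⟨_, _, h3, h4, h5⟩ := hcov h
      exact ⟨h4, h3, h5⟩
    · rintro ⟨e, t⟩ h1 ⟨e', t'⟩ h2 hne
      obtain ⟨a1, a2, _⟩ := hcov h1
      obtain ⟨b1, b2, _⟩ := hcov h2
      refine ⟨?_, ?_, ?_, ?_⟩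
      · rintro h
        simp only at h
        subst h
        exact hne (by rw [hM.fn _ _ _ h1 h2])
      · intro h
        simp only at h
        subst h
        omega
      · intro h
        simp only at h
        subst h
        omega
      · intro h
        simp only at h
        subst h
        exact hne (by rw [hM.inj h1 h2])
    · rw [crit_zero]
      intro s hs h1 t
      constructor
      · intro h
        have := (hcov h).1
        omega
      · intro h
        have := (hcov h).2.1
        omega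

/-- The number of critical triangles. -/
lemma crit_two (hM : IsAM (tris K) ∅ M) : crit K M 2 + M.card = (tris K).card := by
  classical
  have h1 : (M.image Prod.snd).card = M.card := by
    refine card_image_of_injOn ?_
    rintro ⟨e, t⟩ h1 ⟨e', t'⟩ h2 h
    simp only at h
    subst h
    rw [hM.inj h1 h2]
  have h2 : M.image Prod.snd ⊆ tris K := by
    intro t ht
    rw [mem_image] at ht
    obtain ⟨⟨e, t'⟩, h3, rfl⟩ := ht
    exact (hM.sub _ _ h3).1
  have h3 : K.filter (fun s => s.card = 2 + 1 ∧ ∀ t, (s, t) ∉ M ∧ (t, s) ∉ M) =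
      tris K \ M.image Prod.snd := by
    ext t
    unfold tris
    simp only [mem_filter, mem_sdiff, mem_image, Prod.exists, exists_eq_right]
    constructor
    · rintro ⟨h4, h5, h6⟩
      exact ⟨⟨h4, h5⟩, fun ⟨e, he⟩ => (h6 e).2 he⟩
    · rintro ⟨⟨h4, h5⟩, h6⟩
      refine ⟨h4, h5, fun s => ⟨fun h7 => ?_, fun h7 => h6 ⟨s, h7⟩⟩⟩
      obtain ⟨h8, _, h9⟩ := hM.sub _ _ h7
      have := h9.2
      have := (mem_filter.1 h8).2
      omega
  unfold crit
  rw [h3, card_sdiff_of_subset h2, h1]
  have := card_le_card h2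
  omega

end Pool.Agent.H77.Morse
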