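import Pool.Agent.H77.Morse.CoreWf

set_option autoImplicit false

/-!
# Every saturated acyclic matching of the core is one of the matchings `Mc`
-/

namespace Pool.Agent.H77.Morse

open Finset

variable {n : ℕ} {adj : ℕ → ℕ → Bool}

/-! ### Triangles containing a given edge -/

lemma hT_no_q {u v : ℕ} : 6 * v + 5 ∉ hT u := by
  unfold hT; simp only [mem_insert, mem_singleton]; omega

lemma q_mem_yE {u j : ℕ} : 6 * u + 5 ∈ yE adj u j := by unfold yE; simp

lemma Tc_cov_y0 {u : ℕ} {t : Finset ℕ} (ht : t ∈ Tc n adj)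
    (hc : Cov (yE adj u 0) t) : t = aT u ∨ t = bT u ∨ t = fT adj u 0 := by
  rw [mem_Tc] at ht
  obtain ⟨v, hv, rfl | rfl | rfl | ⟨j, hj, rfl⟩⟩ := ht
  · exact absurd (hc.1 q_mem_yE) hT_no_q
  · have h1 := hc.1 (q_mem_yE (adj := adj) (u := u) (j := 0))
    unfold aT at h1
    simp only [mem_insert, mem_singleton] at h1
    have : v = u := by omega
    left; rw [this]
  · have h1 := hc.1 (q_mem_yE (adj := adj) (u := u) (j := 0))
    unfold bT at h1
    simp only [mem_insert, mem_singleton] at h1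
    have : v = u := by omega
    right; left; rw [this]
  · rw [cov_fT] at hc
    rcases hc with h | h | h
    · obtain ⟨rfl, rfl⟩ := yE_inj h
      right; right; rfl
    · obtain ⟨_, h⟩ := yE_inj h
      omega
    · exact absurd h.symm thE_ne_yE

lemma Tc_cov_ysucc (hi : ∀ u, adj u u = false) {u j : ℕ} {t : Finset ℕ} (ht : t ∈ Tc n adj)
    (hc : Cov (yE adj u (j + 1)) t) : t = fT adj u j ∨ t = fT adj u (j + 1) := by
  rw [mem_Tc] at ht
  obtain ⟨v, hv, rfl | rfl | rfl | ⟨i, hj, rfl⟩⟩ := ht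
  · exact absurd (hc.1 q_mem_yE) hT_no_q
  · rw [cov_aT (adj := adj)] at hc
    rcases hc with h | h | h
    · exact absurd h yE_ne_aE
    · exact absurd h (yE_ne_alE hi)
    · obtain ⟨_, h⟩ := yE_inj h
      omega
  · rw [cov_bT (adj := adj)] at hc
    rcases hc with h | h | h
    · exact absurd h yE_ne_bE
    · exact absurd h (yE_ne_beE hi)
    · obtain ⟨_, h⟩ := yE_inj h
      omega
  · rw [cov_fT] at hc
    rcases hc with h | h | h
    · obtain ⟨rfl, rfl⟩ := yE_inj h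
      right; rfl
    · obtain ⟨rfl, h⟩ := yE_inj h
      left
      have : i = j := by omega
      rw [this]
    · exact absurd h.symm thE_ne_yE

lemma Tc_cov_a (hi : ∀ u, adj u u = false) {u : ℕ} {t : Finset ℕ} (ht : t ∈ Tc n adj)
    (hc : Cov (aE u) t) : t = hT u ∨ t = aT u := by
  rw [mem_Tc] at ht
  obtain ⟨v, hv, rfl | rfl | rfl | ⟨j, hj, rfl⟩⟩ := ht
  · rw [cov_hT] at hc
    rcases hc with h | h | h
    · exact absurd h.symm pE_ne_aE
    · left; rw [aE_inj h]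
    · exact absurd h aE_ne_bE
  · rw [cov_aT (adj := adj)] at hc
    rcases hc with h | h | h
    · right; rw [aE_inj h]
    · exact absurd h aE_ne_alE
    · exact absurd h.symm yE_ne_aE
  · rw [cov_bT (adj := adj)] at hc
    rcases hc with h | h | h
    · exact absurd h aE_ne_bE
    · exact absurd h aE_ne_beE
    · exact absurd h.symm yE_ne_aE
  · rw [cov_fT] at hc
    rcases hc with h | h | h
    · exact absurd h.symm yE_ne_aE
    · exact absurd h.symm yE_ne_aE
    · exact absurd h.symm (thE_ne_aE hi)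

lemma Tc_cov_b (hi : ∀ u, adj u u = false) {u : ℕ} {t : Finset ℕ} (ht : t ∈ Tc n adj)
    (hc : Cov (bE u) t) : t = hT u ∨ t = bT u := by
  rw [mem_Tc] at ht
  obtain ⟨v, hv, rfl | rfl | rfl | ⟨j, hj, rfl⟩⟩ := ht
  · rw [cov_hT] at hc
    rcases hc with h | h | h
    · exact absurd h.symm pE_ne_bE
    · exact absurd h.symm aE_ne_bE
    · left; rw [bE_inj h]
  · rw [cov_aT (adj := adj)] at hc
    rcases hc with h | h | h
    · exact absurd h.symm aE_ne_bE
    · exact absurd h bE_ne_alE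
    · exact absurd h.symm yE_ne_bE
  · rw [cov_bT (adj := adj)] at hc
    rcases hc with h | h | h
    · right; rw [bE_inj h]
    · exact absurd h bE_ne_beE
    · exact absurd h.symm yE_ne_bE
  · rw [cov_fT] at hc
    rcases hc with h | h | h
    · exact absurd h.symm yE_ne_bE
    · exact absurd h.symm yE_ne_bE
    · exact absurd h.symm (thE_ne_bE hi)

lemma hT_ne_aT {u v : ℕ} : hT u ≠ aT v := by
  intro h
  refine hT_no_q (u := u) (v := v) ?_
  rw [h]; unfold aT; simp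

lemma hT_ne_bT {u v : ℕ} : hT u ≠ bT v := by
  intro h
  refine hT_no_q (u := u) (v := v) ?_
  rw [h]; unfold bT; simp

lemma fT_ne_aT (hi : ∀ u, adj u u = false) {u j v : ℕ} : fT adj u j ≠ aT v := by
  intro h
  have h1 : Cov (aE v) (fT adj u j) := by
    rw [h, cov_aT (adj := adj)]; left; rfl
  rw [cov_fT] at h1
  rcases h1 with h | h | h
  · exact absurd h.symm yE_ne_aE
  · exact absurd h.symm yE_ne_aE
  · exact absurd h.symm (thE_ne_aE hi)

lemma fT_ne_bT (hi : ∀ u, adj u u = false) {u j v : ℕ} : fT adj u j ≠ bT v := by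
  intro h
  have h1 : Cov (bE v) (fT adj u j) := by
    rw [h, cov_bT (adj := adj)]; left; rfl
  rw [cov_fT] at h1
  rcases h1 with h | h | h
  · exact absurd h.symm yE_ne_bE
  · exact absurd h.symm yE_ne_bE
  · exact absurd h.symm (thE_ne_bE hi)

section
variable {M : Finset (Finset ℕ × Finset ℕ)} (hM : IsAM (Tc n adj) ∅ M)
  (hY : ∀ s ∈ Yc n adj, ∃ t, (s, t) ∈ M) (hi : ∀ u, adj u u = false)

include hM hY hi

lemma sat_a {u : ℕ} (hu : u < n) : (aE u, hT u) ∈ M ∨ (aE u, aT u) ∈ M := by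
  obtain ⟨t, ht⟩ := hY (aE u) (mem_Yc.2 ⟨u, hu, Or.inl rfl⟩)
  obtain ⟨h1, _, h3⟩ := hM.sub _ _ ht
  rcases Tc_cov_a hi h1 h3 with rfl | rfl
  · left; exact ht
  · right; exact ht

lemma sat_b {u : ℕ} (hu : u < n) : (bE u, hT u) ∈ M ∨ (bE u, bT u) ∈ M := by
  obtain ⟨t, ht⟩ := hY (bE u) (mem_Yc.2 ⟨u, hu, Or.inr (Or.inl rfl)⟩)
  obtain ⟨h1, _, h3⟩ := hM.sub _ _ ht
  rcases Tc_cov_b hi h1 h3 with rfl | rfl
  · left; exact ht
  · right; exact ht

/-- The first edge of a chain is matched forwards. -/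
lemma sat_y0 {u : ℕ} (hu : u < n) : (yE adj u 0, fT adj u 0) ∈ M := by
  obtain ⟨t, ht⟩ := hY (yE adj u 0) (mem_Yc.2 ⟨u, hu, Or.inr (Or.inr ⟨0, by omega, rfl⟩)⟩)
  obtain ⟨h1, _, h3⟩ := hM.sub _ _ ht
  rcases Tc_cov_y0 h1 h3 with rfl | rfl | rfl
  · exfalso
    have ha : (aE u, hT u) ∈ M := by
      rcases sat_a hM hY hi hu with h | h
      · exact h
      · exact absurd (hM.inj h ht).symm yE_ne_aE
    have hb : (bE u, bT u) ∈ M := by
      rcases sat_b hM hY hi hu with h | h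
      · exact absurd (hM.inj ha h) aE_ne_bE
      · exact h
    have a1 : Arc M (aE u) (yE adj u 0) :=
      ⟨_, ht, (cov_aT (adj := adj)).2 (Or.inl rfl), yE_ne_aE.symm⟩
    have a2 : Arc M (bE u) (aE u) := ⟨_, ha, cov_hT.2 (Or.inr (Or.inr rfl)), aE_ne_bE.symm⟩
    have a3 : Arc M (yE adj u 0) (bE u) :=
      ⟨_, hb, (cov_bT (adj := adj)).2 (Or.inr (Or.inr rfl)), yE_ne_bE⟩
    have a4 : Relation.TransGen (Arc M) (yE adj u 0) (yE adj u 0) :=
      Relation.TransGen.tail (Relation.TransGen.tail (Relation.TransGen.single a3) a2) a1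
    exact hM.wf.transGen.irrefl.irrefl _ a4
  · exfalso
    have hb : (bE u, hT u) ∈ M := by
      rcases sat_b hM hY hi hu with h | h
      · exact h
      · exact absurd (hM.inj h ht).symm yE_ne_bE
    have ha : (aE u, aT u) ∈ M := by
      rcases sat_a hM hY hi hu with h | h
      · exact absurd (hM.inj h hb) aE_ne_bE
      · exact h
    have a1 : Arc M (bE u) (yE adj u 0) :=
      ⟨_, ht, (cov_bT (adj := adj)).2 (Or.inl rfl), yE_ne_bE.symm⟩
    have a2 : Arc M (aE u) (bE u) := ⟨_, hb, cov_hT.2 (Or.inr (Or.inl rfl)), aE_ne_bE⟩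
    have a3 : Arc M (yE adj u 0) (aE u) :=
      ⟨_, ha, (cov_aT (adj := adj)).2 (Or.inr (Or.inr rfl)), yE_ne_aE⟩
    have a4 : Relation.TransGen (Arc M) (yE adj u 0) (yE adj u 0) :=
      Relation.TransGen.tail (Relation.TransGen.tail (Relation.TransGen.single a3) a2) a1
    exact hM.wf.transGen.irrefl.irrefl _ a4
  · exact ht

/-- All edges of a chain are matched forwards. -/
lemma sat_y {u : ℕ} (hu : u < n) : ∀ j, j < 2 * n → (yE adj u j, fT adj u j) ∈ M := by
  intro j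
  induction j with
  | zero => intro _; exact sat_y0 hM hY hi hu
  | succ j ih =>
    intro hj
    obtain ⟨t, ht⟩ := hY (yE adj u (j + 1)) (mem_Yc.2 ⟨u, hu, Or.inr (Or.inr ⟨j + 1, hj, rfl⟩)⟩)
    obtain ⟨h1, _, h3⟩ := hM.sub _ _ ht
    rcases Tc_cov_ysucc hi h1 h3 with rfl | rfl
    · have := hM.inj ht (ih (by omega))
      obtain ⟨_, h⟩ := yE_inj this
      omega
    · exact ht

/-- The switches which are on form an independent set. -/
lemma sat_indep {u v : ℕ} (hu : u < n) (hv : v < n) (hon : (pE u, hT u) ∈ M)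
    (huv : adj u v = true) : Relation.TransGen (Arc M) (pE v) (pE u) := by
  have ha : (aE u, aT u) ∈ M := by
    rcases sat_a hM hY hi hu with h | h
    · exact absurd (hM.inj hon h) pE_ne_aE
    · exact h
  have a1 : Arc M (aE u) (pE u) := ⟨_, hon, cov_hT.2 (Or.inr (Or.inl rfl)), pE_ne_aE.symm⟩
  have a2 : Arc M (yE adj u 0) (aE u) :=
    ⟨_, ha, (cov_aT (adj := adj)).2 (Or.inr (Or.inr rfl)), yE_ne_aE⟩
  have a3 : ∀ j, j < 2 * n → Relation.TransGen (Arc M) (yE adj u j) (pE u) := by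
    intro j
    induction j with
    | zero =>
      intro _
      exact Relation.TransGen.tail (Relation.TransGen.single a2) a1
    | succ j ih =>
      intro hj
      refine Relation.TransGen.head ?_ (ih (by omega))
      exact ⟨_, sat_y hM hY hi hu j (by omega), cov_fT.2 (Or.inr (Or.inl rfl)), fun h => by
        obtain ⟨_, h⟩ := yE_inj h
        omega⟩
  refine Relation.TransGen.head ?_ (a3 (2 * v + 1) (by omega))
  refine ⟨_, sat_y hM hY hi hu (2 * v + 1) (by omega), ?_, yE_ne_pE.symm⟩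
  rw [← thE_adj huv]
  exact cov_fT.2 (Or.inr (Or.inr rfl))

end

open Classical in
/-- The states of the switches of a matching. -/
noncomputable def st (n : ℕ) (M : Finset (Finset ℕ × Finset ℕ)) (u : Fin n) : Fin 6 :=
  if (pE u, hT u) ∈ M then 0 else if (aE u, hT u) ∈ M then (if (alE u, aT u) ∈ M then 3 else 2)
  else if (bE u, hT u) ∈ M then (if (beE u, bT u) ∈ M then 5 else 4) else 1

lemma st_Mc (hi : ∀ u, adj u u = false) (c : Fin n → Fin 6) : st n (Mc n adj c) = c := by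
  funext u
  have hp : (pE u, hT u) ∈ Mc n adj c ↔ c u = 0 := by
    constructor
    · intro h
      exact (Mc_p h).2.2
    · intro h
      exact mem_Mc.2 (Or.inr ⟨u, mem_DS.2 (Or.inl ⟨rfl, rfl, h⟩)⟩)
  have ha : (aE u, hT u) ∈ Mc n adj c ↔ (c u = 2 ∨ c u = 3) := by
    constructor
    · intro h
      obtain ⟨_, h1 | h1⟩ := Mc_a h
      · exact h1.2
      · exact absurd h1.1 hT_ne_aT
    · intro h
      exact mem_Mc.2 (Or.inr ⟨u, mem_DS.2 (Or.inr (Or.inl ⟨rfl, rfl, h⟩))⟩)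
  have hb : (bE u, hT u) ∈ Mc n adj c ↔ (c u = 4 ∨ c u = 5) := by
    constructor
    · intro h
      obtain ⟨_, h1 | h1⟩ := Mc_b h
      · exact h1.2
      · exact absurd h1.1 hT_ne_bT
    · intro h
      exact mem_Mc.2 (Or.inr ⟨u, mem_DS.2 (Or.inr (Or.inr (Or.inr (Or.inl ⟨rfl, rfl, h⟩))))⟩)
  have hal : (alE u, aT u) ∈ Mc n adj c ↔ c u = 3 := by
    constructor
    · intro h
      exact (Mc_al hi h).2.2
    · intro h
      exact mem_Mc.2 (Or.inr ⟨u, mem_DS.2
        (Or.inr (Or.inr (Or.inr (Or.inr (Or.inr (Or.inl ⟨rfl, rfl, h⟩))))))⟩)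
  have hbe : (beE u, bT u) ∈ Mc n adj c ↔ c u = 5 := by
    constructor
    · intro h
      exact (Mc_be hi h).2.2
    · intro h
      exact mem_Mc.2 (Or.inr ⟨u, mem_DS.2
        (Or.inr (Or.inr (Or.inr (Or.inr (Or.inr (Or.inr ⟨rfl, rfl, h⟩))))))⟩)
  unfold st
  simp only [hp, ha, hb, hal, hbe]
  generalize c u = s
  revert s
  decide

theorem Mc_st {M : Finset (Finset ℕ × Finset ℕ)} (hM : IsAM (Tc n adj) ∅ M)
    (hY : ∀ s ∈ Yc n adj, ∃ t, (s, t) ∈ M) (hi : ∀ u, adj u u = false) :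
    Mc n adj (st n M) = M := by
  have hy0 : ∀ u, u < n → (yE adj u 0, aT u) ∉ M := by
    intro u hu h
    exact fT_ne_aT hi (hM.fn _ _ _ (sat_y0 hM hY hi hu) h)
  have hy0' : ∀ u, u < n → (yE adj u 0, bT u) ∉ M := by
    intro u hu h
    exact fT_ne_bT hi (hM.fn _ _ _ (sat_y0 hM hY hi hu) h)
  have aTbT : ∀ (u : ℕ) (hu : u < n), ∀ e t, ((e, t) ∈ DS u (st n M ⟨u, hu⟩) ↔
      (e, t) ∈ M ∧ (t = hT u ∨ t = aT u ∨ t = bT u)) := by
    intro u hu e t
    have hstd : st n M ⟨u, hu⟩ = if (pE u, hT u) ∈ M then 0 else if (aE u, hT u) ∈ M then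
      (if (alE u, aT u) ∈ M then 3 else 2)
      else if (bE u, hT u) ∈ M then (if (beE u, bT u) ∈ M then 5 else 4) else 1 := by
      unfold st
      rfl
    rw [hstd]
    have sa := sat_a hM hY hi hu
    have sb := sat_b hM hY hi hu
    have i1 : (pE u, hT u) ∈ M → (aE u, hT u) ∉ M := fun h h' => pE_ne_aE (hM.inj h h')
    have i2 : (pE u, hT u) ∈ M → (bE u, hT u) ∉ M := fun h h' => pE_ne_bE (hM.inj h h')
    have i3 : (aE u, hT u) ∈ M → (bE u, hT u) ∉ M := fun h h' => aE_ne_bE (hM.inj h h')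
    have i4 : (aE u, hT u) ∈ M → (aE u, aT u) ∉ M := fun h h' => hT_ne_aT (hM.fn _ _ _ h h')
    have i5 : (bE u, hT u) ∈ M → (bE u, bT u) ∉ M := fun h h' => hT_ne_bT (hM.fn _ _ _ h h')
    have i6 : (aE u, aT u) ∈ M → (alE u, aT u) ∉ M := fun h h' => aE_ne_alE (hM.inj h h')
    have i7 : (bE u, bT u) ∈ M → (beE u, bT u) ∉ M := fun h h' => bE_ne_beE (hM.inj h h')
    have hrhs : ((e, t) ∈ M ∧ (t = hT u ∨ t = aT u ∨ t = bT u)) ↔
        (e = pE u ∧ t = hT u ∧ (pE u, hT u) ∈ M) ∨ (e = aE u ∧ t = hT u ∧ (aE u, hT u) ∈ M) ∨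
        (e = aE u ∧ t = aT u ∧ (aE u, aT u) ∈ M) ∨ (e = bE u ∧ t = hT u ∧ (bE u, hT u) ∈ M) ∨
        (e = bE u ∧ t = bT u ∧ (bE u, bT u) ∈ M) ∨ (e = alE u ∧ t = aT u ∧ (alE u, aT u) ∈ M) ∨
        (e = beE u ∧ t = bT u ∧ (beE u, bT u) ∈ M) := by
      constructor
      · rintro ⟨h, rfl | rfl | rfl⟩
        · have hc := (hM.sub _ _ h).2.2
          rw [cov_hT] at hc
          rcases hc with rfl | rfl | rfl
          · exact Or.inl ⟨rfl, rfl, h⟩
          · exact Or.inr (Or.inl ⟨rfl, rfl, h⟩)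
          · exact Or.inr (Or.inr (Or.inr (Or.inl ⟨rfl, rfl, h⟩)))
        · have hc := (hM.sub _ _ h).2.2
          rw [cov_aT (adj := adj)] at hc
          rcases hc with rfl | rfl | rfl
          · exact Or.inr (Or.inr (Or.inl ⟨rfl, rfl, h⟩))
          · exact Or.inr (Or.inr (Or.inr (Or.inr (Or.inr (Or.inl ⟨rfl, rfl, h⟩)))))
          · exact absurd h (hy0 u hu)
        · have hc := (hM.sub _ _ h).2.2
          rw [cov_bT (adj := adj)] at hc
          rcases hc with rfl | rfl | rfl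
          · exact Or.inr (Or.inr (Or.inr (Or.inr (Or.inl ⟨rfl, rfl, h⟩))))
          · exact Or.inr (Or.inr (Or.inr (Or.inr (Or.inr (Or.inr ⟨rfl, rfl, h⟩)))))
          · exact absurd h (hy0' u hu)
      · rintro (⟨rfl, rfl, h⟩ | ⟨rfl, rfl, h⟩ | ⟨rfl, rfl, h⟩ | ⟨rfl, rfl, h⟩ | ⟨rfl, rfl, h⟩ |
          ⟨rfl, rfl, h⟩ | ⟨rfl, rfl, h⟩)
        · exact ⟨h, Or.inl rfl⟩
        · exact ⟨h, Or.inl rfl⟩
        · exact ⟨h, Or.inr (Or.inl rfl)⟩
        · exact ⟨h, Or.inl rfl⟩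
        · exact ⟨h, Or.inr (Or.inr rfl)⟩
        · exact ⟨h, Or.inr (Or.inl rfl)⟩
        · exact ⟨h, Or.inr (Or.inr rfl)⟩
    rw [hrhs, mem_DS]
    by_cases p1 : (pE u, hT u) ∈ M <;> by_cases p2 : (aE u, hT u) ∈ M <;>
      by_cases p3 : (bE u, hT u) ∈ M <;> by_cases p4 : (alE u, aT u) ∈ M <;>
      by_cases p5 : (beE u, bT u) ∈ M <;> by_cases p6 : (aE u, aT u) ∈ M <;>
      by_cases p7 : (bE u, bT u) ∈ M <;>
      simp only [p1, p2, p3, p4, p5, p6, p7, if_true, if_false, not_true, not_false_iff, or_true,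
        true_or, or_false, forall_true_left, IsEmpty.forall_iff, imp_false]
        at sa sb i1 i2 i3 i4 i5 i6 i7 ⊢ <;> simp
  ext ⟨e, t⟩
  rw [mem_Mc]
  constructor
  · rintro (⟨u, j, hu, hj, rfl, rfl⟩ | ⟨u, h⟩)
    · exact sat_y hM hY hi hu j hj
    · exact ((aTbT u u.2 e t).1 h).1
  · intro h
    obtain ⟨h1, _, h3⟩ := hM.sub _ _ h
    rw [mem_Tc] at h1
    obtain ⟨u, hu, h1⟩ := h1
    by_cases ht : t = hT u ∨ t = aT u ∨ t = bT u
    · right
      exact ⟨⟨u, hu⟩, (aTbT u hu e t).2 ⟨h, ht⟩⟩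
    · left
      rcases h1 with h1 | h1 | h1 | ⟨j, hj, rfl⟩
      · exact absurd (Or.inl h1) ht
      · exact absurd (Or.inr (Or.inl h1)) ht
      · exact absurd (Or.inr (Or.inr h1)) ht
      · exact ⟨u, j, hu, hj, hM.inj h (sat_y hM hY hi hu j hj), rfl⟩

lemma st_indep {M : Finset (Finset ℕ × Finset ℕ)} (hM : IsAM (Tc n adj) ∅ M)
    (hY : ∀ s ∈ Yc n adj, ∃ t, (s, t) ∈ M) (hi : ∀ u, adj u u = false)
    (hs : ∀ u v, adj u v = adj v u) : IndepC n adj (st n M) := by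
  have h0 : ∀ u : Fin n, st n M u = 0 → (pE u, hT u) ∈ M := by
    intro u hu
    unfold st at hu
    by_contra h1
    rw [if_neg h1] at hu
    split_ifs at hu <;> exact absurd hu (by decide)
  intro u v hu hv
  by_contra hne
  have huv : adj u v = true := by
    cases h : adj u v
    · exact absurd h hne
    · rfl
  have h1 := sat_indep hM hY hi u.2 v.2 (h0 u hu) huv
  have h2 := sat_indep hM hY hi v.2 u.2 (h0 v hv) (by rw [hs]; exact huv)
  exact hM.wf.transGen.irrefl.irrefl _ (h1.trans h2)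

end Pool.Agent.H77.Morse
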