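import Pool.Agent.H77.Morse.Strip

set_option autoImplicit false

/-!
# The core complex of a graph

Vertices: for `v < n` and `e ∈ {0, 1}` the numbers `6v + e`, `6v + 2 + e` are the path vertices,
`6v + 4` and `6v + 5` are the two apices of the `v`-th switch.
-/

namespace Pool.Agent.H77.Morse

open Finset

/-- The path of the fan of `u`. -/
def pth (adj : ℕ → ℕ → Bool) (u : ℕ) : ℕ → ℕ
  | 0 => 6 * u + 4
  | j + 1 => 6 * (j / 2) + 2 * (j % 2) + (adj u (j / 2)).toNat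

def hT (u : ℕ) : Finset ℕ := {6 * u + 1, 6 * u + 3, 6 * u + 4}
def aT (u : ℕ) : Finset ℕ := {6 * u + 1, 6 * u + 4, 6 * u + 5}
def bT (u : ℕ) : Finset ℕ := {6 * u + 3, 6 * u + 4, 6 * u + 5}
def fT (adj : ℕ → ℕ → Bool) (u j : ℕ) : Finset ℕ := {6 * u + 5, pth adj u j, pth adj u (j + 1)}

def pE (u : ℕ) : Finset ℕ := {6 * u + 1, 6 * u + 3}
def aE (u : ℕ) : Finset ℕ := {6 * u + 1, 6 * u + 4}
def bE (u : ℕ) : Finset ℕ := {6 * u + 3, 6 * u + 4}
def alE (u : ℕ) : Finset ℕ := {6 * u + 1, 6 * u + 5}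
def beE (u : ℕ) : Finset ℕ := {6 * u + 3, 6 * u + 5}
def yE (adj : ℕ → ℕ → Bool) (u j : ℕ) : Finset ℕ := {6 * u + 5, pth adj u j}
def thE (adj : ℕ → ℕ → Bool) (u j : ℕ) : Finset ℕ := {pth adj u j, pth adj u (j + 1)}

/-- The triangles of the core. -/
def Tc (n : ℕ) (adj : ℕ → ℕ → Bool) : Finset (Finset ℕ) :=
  (range n).biUnion (fun u => {hT u, aT u, bT u} ∪ (range (2 * n)).image (fT adj u))

lemma mem_Tc {n : ℕ} {adj : ℕ → ℕ → Bool} {t : Finset ℕ} : t ∈ Tc n adj ↔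
    ∃ u, u < n ∧ (t = hT u ∨ t = aT u ∨ t = bT u ∨ ∃ j, j < 2 * n ∧ t = fT adj u j) := by
  unfold Tc
  simp only [mem_biUnion, mem_range, mem_union, mem_insert, mem_singleton, mem_image]
  constructor
  · rintro ⟨u, hu, (h | h | h) | ⟨j, hj, h⟩⟩
    · exact ⟨u, hu, Or.inl h⟩
    · exact ⟨u, hu, Or.inr (Or.inl h)⟩
    · exact ⟨u, hu, Or.inr (Or.inr (Or.inl h))⟩
    · exact ⟨u, hu, Or.inr (Or.inr (Or.inr ⟨j, hj, h.symm⟩))⟩
  · rintro ⟨u, hu, h | h | h | ⟨j, hj, h⟩⟩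
    · exact ⟨u, hu, Or.inl (Or.inl h)⟩
    · exact ⟨u, hu, Or.inl (Or.inr (Or.inl h))⟩
    · exact ⟨u, hu, Or.inl (Or.inr (Or.inr h))⟩
    · exact ⟨u, hu, Or.inr ⟨j, hj, h.symm⟩⟩

/-- The edges of the core which must be matched. -/
def Yc (n : ℕ) (adj : ℕ → ℕ → Bool) : Finset (Finset ℕ) :=
  (range n).biUnion (fun u => {aE u, bE u} ∪ (range (2 * n)).image (yE adj u))

lemma mem_Yc {n : ℕ} {adj : ℕ → ℕ → Bool} {e : Finset ℕ} : e ∈ Yc n adj ↔
    ∃ u, u < n ∧ (e = aE u ∨ e = bE u ∨ ∃ j, j < 2 * n ∧ e = yE adj u j) := by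
  unfold Yc
  simp only [mem_biUnion, mem_range, mem_union, mem_insert, mem_singleton, mem_image]
  constructor
  · rintro ⟨u, hu, (h | h) | ⟨j, hj, h⟩⟩
    · exact ⟨u, hu, Or.inl h⟩
    · exact ⟨u, hu, Or.inr (Or.inl h)⟩
    · exact ⟨u, hu, Or.inr (Or.inr ⟨j, hj, h.symm⟩)⟩
  · rintro ⟨u, hu, h | h | ⟨j, hj, h⟩⟩
    · exact ⟨u, hu, Or.inl (Or.inl h)⟩
    · exact ⟨u, hu, Or.inl (Or.inr h)⟩
    · exact ⟨u, hu, Or.inr ⟨j, hj, h.symm⟩⟩

lemma pair_eq {a b c d : ℕ} :
    ({a, b} : Finset ℕ) = {c, d} ↔ (a = c ∧ b = d) ∨ (a = d ∧ b = c) := by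
  constructor
  · intro heq
    have ha : a ∈ ({c, d} : Finset ℕ) := heq ▸ mem_insert_self _ _
    have hb : b ∈ ({c, d} : Finset ℕ) := heq ▸ mem_insert_of_mem (mem_singleton_self _)
    have hc : c ∈ ({a, b} : Finset ℕ) := heq ▸ mem_insert_self _ _
    have hd : d ∈ ({a, b} : Finset ℕ) := heq ▸ mem_insert_of_mem (mem_singleton_self _)
    simp only [mem_insert, mem_singleton] at ha hb hc hd
    omega
  · rintro (⟨rfl, rfl⟩ | ⟨rfl, rfl⟩)
    · rfl
    · exact Finset.pair_comm _ _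

section
variable {adj : ℕ → ℕ → Bool}

lemma pth_zero (u : ℕ) : pth adj u 0 = 6 * u + 4 := rfl

lemma pth_succ (u j : ℕ) :
    pth adj u (j + 1) = 6 * (j / 2) + 2 * (j % 2) + (adj u (j / 2)).toNat := rfl

lemma toNat_le (b : Bool) : b.toNat ≤ 1 := by cases b <;> simp

/-- Description of the vertices of the paths. -/
lemma pth_cases (hi : ∀ u, adj u u = false) (u j : ℕ) :
    (j = 0 ∧ pth adj u j = 6 * u + 4) ∨ ∃ k ε, j = k + 1 ∧ ε ≤ 1 ∧ (k / 2 = u → ε = 0) ∧
      pth adj u j = 6 * (k / 2) + 2 * (k % 2) + ε ∧ ε = (adj u (k / 2)).toNat := by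
  cases j with
  | zero => left; exact ⟨rfl, rfl⟩
  | succ k =>
    right
    refine ⟨k, (adj u (k / 2)).toNat, rfl, toNat_le _, ?_, rfl, rfl⟩
    intro h
    rw [h, hi]; rfl

lemma pth_inj {u j k : ℕ} (h : pth adj u j = pth adj u k) : j = k := by
  cases j with
  | zero =>
    cases k with
    | zero => rfl
    | succ k =>
      rw [pth_zero, pth_succ] at h
      have := toNat_le (adj u (k / 2))
      omega
  | succ j =>
    cases k with
    | zero =>
      rw [pth_zero, pth_succ] at h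
      have := toNat_le (adj u (j / 2))
      omega
    | succ k =>
      rw [pth_succ, pth_succ] at h
      have h1 := toNat_le (adj u (k / 2))
      have h2 := toNat_le (adj u (j / 2))
      have h3 : j / 2 = k / 2 := by omega
      rw [h3] at h
      omega

lemma pth_ne_q {u j v : ℕ} : pth adj u j ≠ 6 * v + 5 := by
  cases j with
  | zero => rw [pth_zero]; omega
  | succ j =>
    rw [pth_succ]
    have := toNat_le (adj u (j / 2))
    omega

lemma facets_hT (u : ℕ) : facets (hT u) = {pE u, aE u, bE u} :=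
  facets_triple (by omega) (by omega) (by omega)

lemma facets_aT (u : ℕ) : facets (aT u) = {aE u, alE u, yE adj u 0} := by
  unfold aT
  rw [facets_triple (by omega) (by omega) (by omega)]
  unfold aE alE yE
  rw [pth_zero, Finset.pair_comm (6 * u + 4)]

lemma facets_bT (u : ℕ) : facets (bT u) = {bE u, beE u, yE adj u 0} := by
  unfold bT
  rw [facets_triple (by omega) (by omega) (by omega)]
  unfold bE beE yE
  rw [pth_zero, Finset.pair_comm (6 * u + 4)]

lemma facets_fT (u j : ℕ) : facets (fT adj u j) = {yE adj u j, yE adj u (j + 1), thE adj u j} := by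
  unfold fT
  rw [facets_triple pth_ne_q.symm pth_ne_q.symm (fun h => by have := pth_inj h; omega)]
  rfl

lemma cov_hT {e : Finset ℕ} {u : ℕ} : Cov e (hT u) ↔ e = pE u ∨ e = aE u ∨ e = bE u := by
  rw [← mem_facets, facets_hT]; simp

lemma cov_aT {e : Finset ℕ} {u : ℕ} :
    Cov e (aT u) ↔ e = aE u ∨ e = alE u ∨ e = yE adj u 0 := by
  rw [← mem_facets, facets_aT (adj := adj)]; simp

lemma cov_bT {e : Finset ℕ} {u : ℕ} :
    Cov e (bT u) ↔ e = bE u ∨ e = beE u ∨ e = yE adj u 0 := by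
  rw [← mem_facets, facets_bT (adj := adj)]; simp

lemma cov_fT {e : Finset ℕ} {u j : ℕ} :
    Cov e (fT adj u j) ↔ e = yE adj u j ∨ e = yE adj u (j + 1) ∨ e = thE adj u j := by
  rw [← mem_facets, facets_fT]; simp

/-! ### Distinctness of edges -/

variable (hi : ∀ u, adj u u = false)

lemma yE_inj {u j u' j' : ℕ} (h : yE adj u j = yE adj u' j') : u = u' ∧ j = j' := by
  unfold yE at h
  rw [pair_eq] at h
  rcases h with ⟨h1, h2⟩ | ⟨h1, _⟩
  · have : u = u' := by omega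
    subst this
    exact ⟨rfl, pth_inj h2⟩
  · exact absurd h1.symm pth_ne_q

lemma pE_inj {u u' : ℕ} (h : pE u = pE u') : u = u' := by
  unfold pE at h; rw [pair_eq] at h; omega
lemma aE_inj {u u' : ℕ} (h : aE u = aE u') : u = u' := by
  unfold aE at h; rw [pair_eq] at h; omega
lemma bE_inj {u u' : ℕ} (h : bE u = bE u') : u = u' := by
  unfold bE at h; rw [pair_eq] at h; omega
lemma alE_inj {u u' : ℕ} (h : alE u = alE u') : u = u' := by
  unfold alE at h; rw [pair_eq] at h; omega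
lemma beE_inj {u u' : ℕ} (h : beE u = beE u') : u = u' := by
  unfold beE at h; rw [pair_eq] at h; omega

lemma pE_ne_aE {u u' : ℕ} : pE u ≠ aE u' := by
  intro h; unfold pE aE at h; rw [pair_eq] at h; omega
lemma pE_ne_bE {u u' : ℕ} : pE u ≠ bE u' := by
  intro h; unfold pE bE at h; rw [pair_eq] at h; omega
lemma pE_ne_alE {u u' : ℕ} : pE u ≠ alE u' := by
  intro h; unfold pE alE at h; rw [pair_eq] at h; omega
lemma pE_ne_beE {u u' : ℕ} : pE u ≠ beE u' := by
  intro h; unfold pE beE at h; rw [pair_eq] at h; omega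
lemma aE_ne_bE {u u' : ℕ} : aE u ≠ bE u' := by
  intro h; unfold aE bE at h; rw [pair_eq] at h; omega
lemma aE_ne_alE {u u' : ℕ} : aE u ≠ alE u' := by
  intro h; unfold aE alE at h; rw [pair_eq] at h; omega
lemma aE_ne_beE {u u' : ℕ} : aE u ≠ beE u' := by
  intro h; unfold aE beE at h; rw [pair_eq] at h; omega
lemma bE_ne_alE {u u' : ℕ} : bE u ≠ alE u' := by
  intro h; unfold bE alE at h; rw [pair_eq] at h; omega
lemma bE_ne_beE {u u' : ℕ} : bE u ≠ beE u' := by
  intro h; unfold bE beE at h; rw [pair_eq] at h; omega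
lemma alE_ne_beE {u u' : ℕ} : alE u ≠ beE u' := by
  intro h; unfold alE beE at h; rw [pair_eq] at h; omega

lemma yE_ne_pE {u j u' : ℕ} : yE adj u j ≠ pE u' := by
  intro h; unfold yE pE at h; rw [pair_eq] at h; omega
lemma yE_ne_aE {u j u' : ℕ} : yE adj u j ≠ aE u' := by
  intro h; unfold yE aE at h; rw [pair_eq] at h; omega
lemma yE_ne_bE {u j u' : ℕ} : yE adj u j ≠ bE u' := by
  intro h; unfold yE bE at h; rw [pair_eq] at h; omega

include hi in
lemma yE_ne_alE {u j u' : ℕ} : yE adj u j ≠ alE u' := by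
  intro h; unfold yE alE at h; rw [pair_eq] at h
  rcases pth_cases hi u j with ⟨_, h1⟩ | ⟨k, ε, _, h2, h3, h4, _⟩ <;> omega
include hi in
lemma yE_ne_beE {u j u' : ℕ} : yE adj u j ≠ beE u' := by
  intro h; unfold yE beE at h; rw [pair_eq] at h
  rcases pth_cases hi u j with ⟨_, h1⟩ | ⟨k, ε, _, h2, h3, h4, _⟩ <;> omega

lemma thE_no_q {u j v : ℕ} : 6 * v + 5 ∉ thE adj u j := by
  unfold thE
  rw [mem_insert, mem_singleton, not_or]
  exact ⟨fun h => pth_ne_q h.symm, fun h => pth_ne_q h.symm⟩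

lemma thE_ne_yE {u j u' j' : ℕ} : thE adj u j ≠ yE adj u' j' := by
  intro h
  refine thE_no_q (adj := adj) (u := u) (j := j) (v := u') ?_
  rw [h]; unfold yE; simp

lemma thE_ne_alE {u j u' : ℕ} : thE adj u j ≠ alE u' := by
  intro h
  refine thE_no_q (adj := adj) (u := u) (j := j) (v := u') ?_
  rw [h]; unfold alE; simp
lemma thE_ne_beE {u j u' : ℕ} : thE adj u j ≠ beE u' := by
  intro h
  refine thE_no_q (adj := adj) (u := u) (j := j) (v := u') ?_
  rw [h]; unfold beE; simp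

include hi in
lemma thE_ne_aE {u j u' : ℕ} : thE adj u j ≠ aE u' := by
  intro h; unfold thE aE at h; rw [pair_eq] at h
  rcases pth_cases hi u j with ⟨h0, h1⟩ | ⟨k, ε, h0, h2, h3, h4, _⟩ <;>
  rcases pth_cases hi u (j + 1) with ⟨h0', h1'⟩ | ⟨k', ε', h0', h2', h3', h4', _⟩ <;> omega
include hi in
lemma thE_ne_bE {u j u' : ℕ} : thE adj u j ≠ bE u' := by
  intro h; unfold thE bE at h; rw [pair_eq] at h
  rcases pth_cases hi u j with ⟨h0, h1⟩ | ⟨k, ε, h0, h2, h3, h4, _⟩ <;>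
  rcases pth_cases hi u (j + 1) with ⟨h0', h1'⟩ | ⟨k', ε', h0', h2', h3', h4', _⟩ <;> omega

include hi in
/-- The third edge of a fan triangle is a choice edge only for adjacent vertices. -/
lemma thE_eq_pE {u j v : ℕ} (h : thE adj u j = pE v) : adj u v = true := by
  unfold thE pE at h; rw [pair_eq] at h
  rcases pth_cases hi u (j + 1) with ⟨h0', h1'⟩ | ⟨k', ε', h0', h2', h3', h4', h5'⟩
  · omega
  · have h6 : k' / 2 = v := by
      rcases h with ⟨_, h⟩ | ⟨_, h⟩ <;> omega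
    have h7 : ε' = 1 := by
      rcases h with ⟨_, h⟩ | ⟨_, h⟩ <;> omega
    rw [h6, h7] at h5'
    cases hb : adj u v
    · rw [hb] at h5'; simp at h5'
    · rfl

lemma thE_adj {u v : ℕ} (h : adj u v = true) : thE adj u (2 * v + 1) = pE v := by
  unfold thE pE
  rw [pth_succ, pth_succ]
  have h1 : (2 * v) / 2 = v := by omega
  have h2 : (2 * v + 1) / 2 = v := by omega
  have h3 : (2 * v) % 2 = 0 := by omega
  have h4 : (2 * v + 1) % 2 = 1 := by omega
  rw [h1, h2, h3, h4, h]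
  simp

end

end Pool.Agent.H77.Morse
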