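import Pool.Agent.H77.Morse.CoreDefs

set_option autoImplicit false

/-!
# The matchings of the core
-/

namespace Pool.Agent.H77.Morse

open Finset

/-- The six states of a switch. -/
def DS (u : ℕ) (s : Fin 6) : Finset (Finset ℕ × Finset ℕ) :=
  match s with
  | 0 => {(pE u, hT u), (aE u, aT u), (bE u, bT u)}
  | 1 => {(aE u, aT u), (bE u, bT u)}
  | 2 => {(aE u, hT u), (bE u, bT u)}
  | 3 => {(aE u, hT u), (bE u, bT u), (alE u, aT u)}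
  | 4 => {(bE u, hT u), (aE u, aT u)}
  | 5 => {(bE u, hT u), (aE u, aT u), (beE u, bT u)}

lemma mem_DS {u : ℕ} {s : Fin 6} {e t : Finset ℕ} : (e, t) ∈ DS u s ↔
    (e = pE u ∧ t = hT u ∧ s = 0) ∨ (e = aE u ∧ t = hT u ∧ (s = 2 ∨ s = 3)) ∨
    (e = aE u ∧ t = aT u ∧ (s = 0 ∨ s = 1 ∨ s = 4 ∨ s = 5)) ∨
    (e = bE u ∧ t = hT u ∧ (s = 4 ∨ s = 5)) ∨
    (e = bE u ∧ t = bT u ∧ (s = 0 ∨ s = 1 ∨ s = 2 ∨ s = 3)) ∨
    (e = alE u ∧ t = aT u ∧ s = 3) ∨ (e = beE u ∧ t = bT u ∧ s = 5) := by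
  fin_cases s <;> simp [DS] <;> tauto

/-- The exponent of the states. -/
def dsz (s : Fin 6) : ℕ :=
  match s with
  | 0 => 3
  | 1 => 2
  | 2 => 2
  | 3 => 3
  | 4 => 2
  | 5 => 3

lemma card_DS (u : ℕ) (s : Fin 6) : (DS u s).card = dsz s := by
  have h1 : ∀ a b : Finset ℕ × Finset ℕ, a.1 ≠ b.1 → ({a, b} : Finset _).card = 2 := by
    intro a b h
    exact card_pair (fun h' => h (by rw [h']))
  have h2 : ∀ a b c : Finset ℕ × Finset ℕ, a.1 ≠ b.1 → a.1 ≠ c.1 → b.1 ≠ c.1 →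
      ({a, b, c} : Finset _).card = 3 := by
    intro a b c h h' h''
    exact card_eq_three.2 ⟨a, b, c, fun h0 => h (by rw [h0]), fun h0 => h' (by rw [h0]),
      fun h0 => h'' (by rw [h0]), rfl⟩
  fin_cases s
  · exact h2 _ _ _ pE_ne_aE pE_ne_bE aE_ne_bE
  · exact h1 _ _ aE_ne_bE
  · exact h1 _ _ aE_ne_bE
  · exact h2 _ _ _ aE_ne_bE aE_ne_alE bE_ne_alE
  · exact h1 _ _ aE_ne_bE.symm
  · exact h2 _ _ _ aE_ne_bE.symm bE_ne_beE aE_ne_beE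

/-- The forced part of the matching. -/
def MF (n : ℕ) (adj : ℕ → ℕ → Bool) : Finset (Finset ℕ × Finset ℕ) :=
  (range n ×ˢ range (2 * n)).image (fun p => (yE adj p.1 p.2, fT adj p.1 p.2))

/-- The matching given by the states of the switches. -/
def Mc (n : ℕ) (adj : ℕ → ℕ → Bool) (c : Fin n → Fin 6) : Finset (Finset ℕ × Finset ℕ) :=
  MF n adj ∪ univ.biUnion (fun u : Fin n => DS u (c u))

variable {n : ℕ} {adj : ℕ → ℕ → Bool} {c : Fin n → Fin 6}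

lemma mem_MF {e t : Finset ℕ} : (e, t) ∈ MF n adj ↔
    ∃ u j, u < n ∧ j < 2 * n ∧ e = yE adj u j ∧ t = fT adj u j := by
  unfold MF
  simp only [mem_image, mem_product, mem_range, Prod.exists, Prod.mk.injEq]
  constructor
  · rintro ⟨u, j, ⟨hu, hj⟩, h1, h2⟩
    exact ⟨u, j, hu, hj, h1.symm, h2.symm⟩
  · rintro ⟨u, j, hu, hj, h1, h2⟩
    exact ⟨u, j, ⟨hu, hj⟩, h1.symm, h2.symm⟩

lemma mem_Mc {e t : Finset ℕ} : (e, t) ∈ Mc n adj c ↔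
    (∃ u j, u < n ∧ j < 2 * n ∧ e = yE adj u j ∧ t = fT adj u j) ∨
      ∃ u : Fin n, (e, t) ∈ DS u (c u) := by
  unfold Mc
  rw [mem_union, mem_MF, mem_biUnion]
  simp

lemma Mc_p {u : ℕ} {t : Finset ℕ} (h : (pE u, t) ∈ Mc n adj c) :
    ∃ hu : u < n, t = hT u ∧ c ⟨u, hu⟩ = 0 := by
  rw [mem_Mc] at h
  rcases h with ⟨u', j, _, _, h1, _⟩ | ⟨v, h⟩
  · exact absurd h1.symm yE_ne_pE
  · rw [mem_DS] at h
    rcases h with ⟨h1, h2, h3⟩ | ⟨h1, _⟩ | ⟨h1, _⟩ | ⟨h1, _⟩ | ⟨h1, _⟩ | ⟨h1, _⟩ | ⟨h1, _⟩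
    · have := pE_inj h1
      subst this
      exact ⟨v.2, h2, h3⟩
    · exact absurd h1 pE_ne_aE
    · exact absurd h1 pE_ne_aE
    · exact absurd h1 pE_ne_bE
    · exact absurd h1 pE_ne_bE
    · exact absurd h1 pE_ne_alE
    · exact absurd h1 pE_ne_beE

lemma Mc_a {u : ℕ} {t : Finset ℕ} (h : (aE u, t) ∈ Mc n adj c) :
    ∃ hu : u < n, (t = hT u ∧ (c ⟨u, hu⟩ = 2 ∨ c ⟨u, hu⟩ = 3)) ∨
      (t = aT u ∧ (c ⟨u, hu⟩ = 0 ∨ c ⟨u, hu⟩ = 1 ∨ c ⟨u, hu⟩ = 4 ∨ c ⟨u, hu⟩ = 5)) := by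
  rw [mem_Mc] at h
  rcases h with ⟨u', j, _, _, h1, _⟩ | ⟨v, h⟩
  · exact absurd h1.symm yE_ne_aE
  · rw [mem_DS] at h
    rcases h with ⟨h1, _⟩ | ⟨h1, h2, h3⟩ | ⟨h1, h2, h3⟩ | ⟨h1, _⟩ | ⟨h1, _⟩ | ⟨h1, _⟩ | ⟨h1, _⟩
    · exact absurd h1.symm pE_ne_aE
    · have := aE_inj h1
      subst this
      exact ⟨v.2, Or.inl ⟨h2, h3⟩⟩
    · have := aE_inj h1
      subst this
      exact ⟨v.2, Or.inr ⟨h2, h3⟩⟩
    · exact absurd h1 aE_ne_bE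
    · exact absurd h1 aE_ne_bE
    · exact absurd h1 aE_ne_alE
    · exact absurd h1 aE_ne_beE

lemma Mc_b {u : ℕ} {t : Finset ℕ} (h : (bE u, t) ∈ Mc n adj c) :
    ∃ hu : u < n, (t = hT u ∧ (c ⟨u, hu⟩ = 4 ∨ c ⟨u, hu⟩ = 5)) ∨
      (t = bT u ∧ (c ⟨u, hu⟩ = 0 ∨ c ⟨u, hu⟩ = 1 ∨ c ⟨u, hu⟩ = 2 ∨ c ⟨u, hu⟩ = 3)) := by
  rw [mem_Mc] at h
  rcases h with ⟨u', j, _, _, h1, _⟩ | ⟨v, h⟩
  · exact absurd h1.symm yE_ne_bE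
  · rw [mem_DS] at h
    rcases h with ⟨h1, _⟩ | ⟨h1, _⟩ | ⟨h1, _⟩ | ⟨h1, h2, h3⟩ | ⟨h1, h2, h3⟩ | ⟨h1, _⟩ | ⟨h1, _⟩
    · exact absurd h1.symm pE_ne_bE
    · exact absurd h1.symm aE_ne_bE
    · exact absurd h1.symm aE_ne_bE
    · have := bE_inj h1
      subst this
      exact ⟨v.2, Or.inl ⟨h2, h3⟩⟩
    · have := bE_inj h1
      subst this
      exact ⟨v.2, Or.inr ⟨h2, h3⟩⟩
    · exact absurd h1 bE_ne_alE
    · exact absurd h1 bE_ne_beE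

lemma Mc_al (hi : ∀ u, adj u u = false) {u : ℕ} {t : Finset ℕ} (h : (alE u, t) ∈ Mc n adj c) :
    ∃ hu : u < n, t = aT u ∧ c ⟨u, hu⟩ = 3 := by
  rw [mem_Mc] at h
  rcases h with ⟨u', j, _, _, h1, _⟩ | ⟨v, h⟩
  · exact absurd h1.symm (yE_ne_alE hi)
  · rw [mem_DS] at h
    rcases h with ⟨h1, _⟩ | ⟨h1, _⟩ | ⟨h1, _⟩ | ⟨h1, _⟩ | ⟨h1, _⟩ | ⟨h1, h2, h3⟩ | ⟨h1, _⟩
    · exact absurd h1.symm pE_ne_alE
    · exact absurd h1.symm aE_ne_alE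
    · exact absurd h1.symm aE_ne_alE
    · exact absurd h1.symm bE_ne_alE
    · exact absurd h1.symm bE_ne_alE
    · have := alE_inj h1
      subst this
      exact ⟨v.2, h2, h3⟩
    · exact absurd h1 alE_ne_beE

lemma Mc_be (hi : ∀ u, adj u u = false) {u : ℕ} {t : Finset ℕ} (h : (beE u, t) ∈ Mc n adj c) :
    ∃ hu : u < n, t = bT u ∧ c ⟨u, hu⟩ = 5 := by
  rw [mem_Mc] at h
  rcases h with ⟨u', j, _, _, h1, _⟩ | ⟨v, h⟩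
  · exact absurd h1.symm (yE_ne_beE hi)
  · rw [mem_DS] at h
    rcases h with ⟨h1, _⟩ | ⟨h1, _⟩ | ⟨h1, _⟩ | ⟨h1, _⟩ | ⟨h1, _⟩ | ⟨h1, _⟩ | ⟨h1, h2, h3⟩
    · exact absurd h1.symm pE_ne_beE
    · exact absurd h1.symm aE_ne_beE
    · exact absurd h1.symm aE_ne_beE
    · exact absurd h1.symm bE_ne_beE
    · exact absurd h1.symm bE_ne_beE
    · exact absurd h1.symm alE_ne_beE
    · have := beE_inj h1
      subst this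
      exact ⟨v.2, h2, h3⟩

lemma Mc_y (hi : ∀ u, adj u u = false) {u j : ℕ} {t : Finset ℕ}
    (h : (yE adj u j, t) ∈ Mc n adj c) : u < n ∧ j < 2 * n ∧ t = fT adj u j := by
  rw [mem_Mc] at h
  rcases h with ⟨u', j', h1, h2, h3, h4⟩ | ⟨v, h⟩
  · obtain ⟨rfl, rfl⟩ := yE_inj h3
    exact ⟨h1, h2, h4⟩
  · rw [mem_DS] at h
    rcases h with ⟨h1, _⟩ | ⟨h1, _⟩ | ⟨h1, _⟩ | ⟨h1, _⟩ | ⟨h1, _⟩ | ⟨h1, _⟩ | ⟨h1, _⟩
    · exact absurd h1 yE_ne_pE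
    · exact absurd h1 yE_ne_aE
    · exact absurd h1 yE_ne_aE
    · exact absurd h1 yE_ne_bE
    · exact absurd h1 yE_ne_bE
    · exact absurd h1 (yE_ne_alE hi)
    · exact absurd h1 (yE_ne_beE hi)

/-- Every matched edge has one of the six forms. -/
lemma Mc_forms {e t : Finset ℕ} (h : (e, t) ∈ Mc n adj c) :
    (∃ u, u < n ∧ (e = pE u ∨ e = aE u ∨ e = bE u ∨ e = alE u ∨ e = beE u)) ∨
      ∃ u j, u < n ∧ j < 2 * n ∧ e = yE adj u j := by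
  rw [mem_Mc] at h
  rcases h with ⟨u', j', h1, h2, h3, h4⟩ | ⟨v, h⟩
  · exact Or.inr ⟨u', j', h1, h2, h3⟩
  · left
    refine ⟨v, v.2, ?_⟩
    rw [mem_DS] at h
    tauto

lemma Mc_fn (hi : ∀ u, adj u u = false) {e t t' : Finset ℕ} (h : (e, t) ∈ Mc n adj c)
    (h' : (e, t') ∈ Mc n adj c) : t = t' := by
  rcases Mc_forms h with ⟨u, hu, rfl | rfl | rfl | rfl | rfl⟩ | ⟨u, j, hu, hj, rfl⟩
  · obtain ⟨_, h1, _⟩ := Mc_p h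
    obtain ⟨_, h2, _⟩ := Mc_p h'
    rw [h1, h2]
  · obtain ⟨_, h1⟩ := Mc_a h
    obtain ⟨_, h2⟩ := Mc_a h'
    rcases h1 with ⟨h1, h1'⟩ | ⟨h1, h1'⟩ <;> rcases h2 with ⟨h2, h2'⟩ | ⟨h2, h2'⟩
    · rw [h1, h2]
    · exfalso; revert h1' h2'; generalize c ⟨u, _⟩ = s; revert s; decide
    · exfalso; revert h1' h2'; generalize c ⟨u, _⟩ = s; revert s; decide
    · rw [h1, h2]
  · obtain ⟨_, h1⟩ := Mc_b h
    obtain ⟨_, h2⟩ := Mc_b h'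
    rcases h1 with ⟨h1, h1'⟩ | ⟨h1, h1'⟩ <;> rcases h2 with ⟨h2, h2'⟩ | ⟨h2, h2'⟩
    · rw [h1, h2]
    · exfalso; revert h1' h2'; generalize c ⟨u, _⟩ = s; revert s; decide
    · exfalso; revert h1' h2'; generalize c ⟨u, _⟩ = s; revert s; decide
    · rw [h1, h2]
  · obtain ⟨_, h1, _⟩ := Mc_al hi h
    obtain ⟨_, h2, _⟩ := Mc_al hi h'
    rw [h1, h2]
  · obtain ⟨_, h1, _⟩ := Mc_be hi h
    obtain ⟨_, h2, _⟩ := Mc_be hi h'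
    rw [h1, h2]
  · obtain ⟨_, _, h1⟩ := Mc_y hi h
    obtain ⟨_, _, h2⟩ := Mc_y hi h'
    rw [h1, h2]

lemma Mc_sub {e t : Finset ℕ} (h : (e, t) ∈ Mc n adj c) : t ∈ Tc n adj ∧ Cov e t := by
  rw [mem_Mc] at h
  rcases h with ⟨u, j, hu, hj, rfl, rfl⟩ | ⟨v, h⟩
  · exact ⟨mem_Tc.2 ⟨u, hu, Or.inr (Or.inr (Or.inr ⟨j, hj, rfl⟩))⟩, cov_fT.2 (Or.inl rfl)⟩
  · rw [mem_DS] at h
    rcases h with ⟨h1, h2, _⟩ | ⟨h1, h2, _⟩ | ⟨h1, h2, _⟩ | ⟨h1, h2, _⟩ | ⟨h1, h2, _⟩ |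
      ⟨h1, h2, _⟩ | ⟨h1, h2, _⟩ <;> subst h1 <;> subst h2
    · exact ⟨mem_Tc.2 ⟨v, v.2, Or.inl rfl⟩, cov_hT.2 (Or.inl rfl)⟩
    · exact ⟨mem_Tc.2 ⟨v, v.2, Or.inl rfl⟩, cov_hT.2 (Or.inr (Or.inl rfl))⟩
    · exact ⟨mem_Tc.2 ⟨v, v.2, Or.inr (Or.inl rfl)⟩, (cov_aT (adj := adj)).2 (Or.inl rfl)⟩
    · exact ⟨mem_Tc.2 ⟨v, v.2, Or.inl rfl⟩, cov_hT.2 (Or.inr (Or.inr rfl))⟩
    · exact ⟨mem_Tc.2 ⟨v, v.2, Or.inr (Or.inr (Or.inl rfl))⟩,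
        (cov_bT (adj := adj)).2 (Or.inl rfl)⟩
    · exact ⟨mem_Tc.2 ⟨v, v.2, Or.inr (Or.inl rfl)⟩,
        (cov_aT (adj := adj)).2 (Or.inr (Or.inl rfl))⟩
    · exact ⟨mem_Tc.2 ⟨v, v.2, Or.inr (Or.inr (Or.inl rfl))⟩,
        (cov_bT (adj := adj)).2 (Or.inr (Or.inl rfl))⟩

/-- All edges of `Yc` are matched. -/
lemma Mc_sat : ∀ s ∈ Yc n adj, ∃ t, (s, t) ∈ Mc n adj c := by
  intro s hs
  rw [mem_Yc] at hs
  obtain ⟨u, hu, rfl | rfl | ⟨j, hj, rfl⟩⟩ := hs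
  · have h : (∃ t, (aE u, t) ∈ DS u (c ⟨u, hu⟩)) := by
      have hs : (c ⟨u, hu⟩ = 2 ∨ c ⟨u, hu⟩ = 3) ∨
          (c ⟨u, hu⟩ = 0 ∨ c ⟨u, hu⟩ = 1 ∨ c ⟨u, hu⟩ = 4 ∨ c ⟨u, hu⟩ = 5) := by
        generalize c ⟨u, hu⟩ = s; revert s; decide
      rcases hs with hs | hs
      · exact ⟨hT u, mem_DS.2 (Or.inr (Or.inl ⟨rfl, rfl, hs⟩))⟩
      · exact ⟨aT u, mem_DS.2 (Or.inr (Or.inr (Or.inl ⟨rfl, rfl, hs⟩)))⟩
    obtain ⟨t, ht⟩ := h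
    exact ⟨t, mem_Mc.2 (Or.inr ⟨⟨u, hu⟩, ht⟩)⟩
  · have h : (∃ t, (bE u, t) ∈ DS u (c ⟨u, hu⟩)) := by
      have hs : (c ⟨u, hu⟩ = 4 ∨ c ⟨u, hu⟩ = 5) ∨
          (c ⟨u, hu⟩ = 0 ∨ c ⟨u, hu⟩ = 1 ∨ c ⟨u, hu⟩ = 2 ∨ c ⟨u, hu⟩ = 3) := by
        generalize c ⟨u, hu⟩ = s; revert s; decide
      rcases hs with hs | hs
      · exact ⟨hT u, mem_DS.2 (Or.inr (Or.inr (Or.inr (Or.inl ⟨rfl, rfl, hs⟩))))⟩
      · exact ⟨bT u, mem_DS.2 (Or.inr (Or.inr (Or.inr (Or.inr (Or.inl ⟨rfl, rfl, hs⟩)))))⟩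
    obtain ⟨t, ht⟩ := h
    exact ⟨t, mem_Mc.2 (Or.inr ⟨⟨u, hu⟩, ht⟩)⟩
  · exact ⟨fT adj u j, mem_Mc.2 (Or.inl ⟨u, j, hu, hj, rfl, rfl⟩)⟩

/-- The number of pairs of the matching. -/
lemma card_Mc (hi : ∀ u, adj u u = false) :
    (Mc n adj c).card = n * (2 * n) + ∑ u : Fin n, dsz (c u) := by
  unfold Mc
  rw [card_union_of_disjoint, card_biUnion]
  · congr 1
    · unfold MF
      rw [card_image_of_injOn, card_product, card_range, card_range]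
      intro p _ q _ h
      simp only [Prod.mk.injEq] at h
      obtain ⟨h1, h2⟩ := yE_inj h.1
      exact Prod.ext h1 h2
    · exact sum_congr rfl (fun u _ => card_DS _ _)
  · intro u _ v _ huv
    rw [Function.onFun, disjoint_left]
    rintro ⟨e, t⟩ h1 h2
    apply huv
    apply Fin.ext
    rw [mem_DS] at h1 h2
    rcases h1 with ⟨h1, _⟩ | ⟨h1, _⟩ | ⟨h1, _⟩ | ⟨h1, _⟩ | ⟨h1, _⟩ | ⟨h1, _⟩ | ⟨h1, _⟩ <;>
    rcases h2 with ⟨h2, _⟩ | ⟨h2, _⟩ | ⟨h2, _⟩ | ⟨h2, _⟩ | ⟨h2, _⟩ | ⟨h2, _⟩ | ⟨h2, _⟩ <;>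
    rw [h1] at h2 <;>
    first
      | exact pE_inj h2
      | exact aE_inj h2
      | exact bE_inj h2
      | exact alE_inj h2
      | exact beE_inj h2
      | exact absurd h2 pE_ne_aE
      | exact absurd h2 pE_ne_bE
      | exact absurd h2 pE_ne_alE
      | exact absurd h2 pE_ne_beE
      | exact absurd h2 aE_ne_bE
      | exact absurd h2 aE_ne_alE
      | exact absurd h2 aE_ne_beE
      | exact absurd h2 bE_ne_alE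
      | exact absurd h2 bE_ne_beE
      | exact absurd h2 alE_ne_beE
      | exact absurd h2 pE_ne_aE.symm
      | exact absurd h2 pE_ne_bE.symm
      | exact absurd h2 pE_ne_alE.symm
      | exact absurd h2 pE_ne_beE.symm
      | exact absurd h2 aE_ne_bE.symm
      | exact absurd h2 aE_ne_alE.symm
      | exact absurd h2 aE_ne_beE.symm
      | exact absurd h2 bE_ne_alE.symm
      | exact absurd h2 bE_ne_beE.symm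
      | exact absurd h2 alE_ne_beE.symm
  · rw [disjoint_left]
    rintro ⟨e, t⟩ h1 h2
    rw [mem_MF] at h1
    obtain ⟨u, j, _, _, rfl, _⟩ := h1
    rw [mem_biUnion] at h2
    obtain ⟨v, _, h2⟩ := h2
    rw [mem_DS] at h2
    rcases h2 with ⟨h2, _⟩ | ⟨h2, _⟩ | ⟨h2, _⟩ | ⟨h2, _⟩ | ⟨h2, _⟩ | ⟨h2, _⟩ | ⟨h2, _⟩
    · exact absurd h2 yE_ne_pE
    · exact absurd h2 yE_ne_aE
    · exact absurd h2 yE_ne_aE
    · exact absurd h2 yE_ne_bE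
    · exact absurd h2 yE_ne_bE
    · exact absurd h2 (yE_ne_alE hi)
    · exact absurd h2 (yE_ne_beE hi)

end Pool.Agent.H77.Morse
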