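import Pool.Agent.H77.Morse.CoreBij

set_option autoImplicit false

/-!
# The core evaluates to the independence polynomial at `-1/4`
-/

namespace Pool.Agent.H77.Morse

open Finset

/-- Independent sets. -/
def IndepS (adj : ℕ → ℕ → Bool) (A : Finset ℕ) : Prop := ∀ u ∈ A, ∀ v ∈ A, adj u v = false

open Classical in
/-- The independence polynomial at `-1/4` of the graph on `range n`. -/
noncomputable def indPoly (n : ℕ) (adj : ℕ → ℕ → Bool) : ℚ :=
  ∑ A ∈ (range n).powerset, if IndepS adj A then (-1 / 4) ^ A.card else 0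

variable {n : ℕ} {adj : ℕ → ℕ → Bool}

open Classical in
lemma W_core_states (hi : ∀ u, adj u u = false) (hs : ∀ u v, adj u v = adj v u) :
    W (Tc n adj) ∅ (Yc n adj) = ∑ c : Fin n → Fin 6,
      if IndepC n adj c then (-1 / 2 : ℚ) ^ (n * (2 * n) + ∑ u, dsz (c u)) else 0 := by
  unfold W wt
  rw [← sum_filter, ← sum_filter]
  refine sum_nbij' (st n) (Mc n adj) ?_ ?_ ?_ ?_ ?_
  · intro M hM
    rw [mem_filter, mem_AM] at hM
    rw [mem_filter]
    exact ⟨mem_univ _, st_indep hM.1 hM.2 hi hs⟩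
  · intro c hc
    rw [mem_filter] at hc
    rw [mem_filter, mem_AM]
    exact ⟨isAM_Mc hi hc.2, Mc_sat⟩
  · intro M hM
    rw [mem_filter, mem_AM] at hM
    exact Mc_st hM.1 hM.2 hi
  · intro c _
    exact st_Mc hi c
  · intro M hM
    rw [mem_filter, mem_AM] at hM
    conv_lhs => rw [← Mc_st hM.1 hM.2 hi, card_Mc hi]

/-- The states compatible with a given set of switches which are on. -/
def stOf (A : Finset (Fin n)) (u : Fin n) : Finset (Fin 6) := if u ∈ A then {0} else {1, 2, 3, 4, 5}

lemma mem_stOf {A : Finset (Fin n)} {u : Fin n} {s : Fin 6} : s ∈ stOf A u ↔ (s = 0 ↔ u ∈ A) := by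
  unfold stOf
  by_cases h : u ∈ A
  · simp [h]
  · simp only [h, if_false, iff_false]
    revert s; decide

lemma sum_stOf (A : Finset (Fin n)) (u : Fin n) :
    ∑ s ∈ stOf A u, (-1 / 2 : ℚ) ^ dsz s = if u ∈ A then -1 / 8 else 1 / 2 := by
  unfold stOf
  by_cases h : u ∈ A
  · simp only [h, if_true, sum_singleton, dsz]
    norm_num
  · simp only [h, if_false]
    rw [sum_insert (by decide), sum_insert (by decide), sum_insert (by decide),
      sum_insert (by decide), sum_singleton]
    simp only [dsz]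
    norm_num

open Classical in
theorem W_core (hi : ∀ u, adj u u = false) (hs : ∀ u v, adj u v = adj v u) :
    W (Tc n adj) ∅ (Yc n adj) = (-1 / 2) ^ (n * (2 * n)) * (1 / 2) ^ n * indPoly n adj := by
  rw [W_core_states hi hs]
  have e1 : ∀ c : Fin n → Fin 6, (if IndepC n adj c then
      (-1 / 2 : ℚ) ^ (n * (2 * n) + ∑ u, dsz (c u)) else 0) =
      ∑ A : Finset (Fin n), if (∀ u, c u ∈ stOf A u) then
        (-1 / 2 : ℚ) ^ (n * (2 * n)) * ((if IndepS adj (A.map Fin.valEmbedding) then 1 else 0) *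
          ∏ u, (-1 / 2 : ℚ) ^ dsz (c u)) else 0 := by
    intro c
    have h1 : ∀ A : Finset (Fin n), (∀ u, c u ∈ stOf A u) ↔ A = univ.filter (fun u => c u = 0) := by
      intro A
      constructor
      · intro h
        ext u
        rw [mem_filter]
        have := mem_stOf.1 (h u)
        simp [this]
      · rintro rfl u
        rw [mem_stOf, mem_filter]
        simp
    have h2 : IndepS adj ((univ.filter (fun u => c u = 0)).map Fin.valEmbedding) ↔
        IndepC n adj c := by
      unfold IndepS IndepC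
      simp only [mem_map, mem_filter, mem_univ, true_and, Fin.valEmbedding_apply]
      constructor
      · intro h u v hu hv
        exact h u ⟨u, hu, rfl⟩ v ⟨v, hv, rfl⟩
      · rintro h _ ⟨u, hu, rfl⟩ _ ⟨v, hv, rfl⟩
        exact h u v hu hv
    simp only [h1]
    rw [sum_ite_eq' univ (univ.filter (fun u => c u = 0)), if_pos (mem_univ _)]
    rw [prod_pow_eq_pow_sum]
    by_cases h3 : IndepC n adj c
    · rw [if_pos h3, if_pos (h2.2 h3), pow_add, one_mul]
    · rw [if_neg h3, if_neg (fun h => h3 (h2.1 h))]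
      ring
  rw [sum_congr rfl (fun c _ => e1 c), sum_comm]
  have e2 : ∀ A : Finset (Fin n), (∑ c : Fin n → Fin 6, if (∀ u, c u ∈ stOf A u) then
        (-1 / 2 : ℚ) ^ (n * (2 * n)) * ((if IndepS adj (A.map Fin.valEmbedding) then 1 else 0) *
          ∏ u, (-1 / 2 : ℚ) ^ dsz (c u)) else 0) =
      (-1 / 2) ^ (n * (2 * n)) * (1 / 2) ^ n *
        (if IndepS adj (A.map Fin.valEmbedding) then
          (-1 / 4) ^ (A.map Fin.valEmbedding).card else 0) := by
    intro A
    rw [← sum_filter]
    have h1 : (univ.filter (fun c : Fin n → Fin 6 => ∀ u, c u ∈ stOf A u)) =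
        Fintype.piFinset (stOf A) := by
      ext c
      rw [mem_filter, Fintype.mem_piFinset]
      simp
    have hps : ∑ x ∈ Fintype.piFinset (stOf A), ∏ u, (-1 / 2 : ℚ) ^ dsz (x u) =
        ∏ u, ∑ s ∈ stOf A u, (-1 / 2 : ℚ) ^ dsz s :=
      (prod_univ_sum (stOf A) (fun _ s => (-1 / 2 : ℚ) ^ dsz s)).symm
    rw [h1, ← mul_sum, ← mul_sum, hps]
    have h2 : ∏ u : Fin n, ∑ s ∈ stOf A u, (-1 / 2 : ℚ) ^ dsz s =
        (1 / 2) ^ n * (-1 / 4) ^ A.card := by
      rw [prod_congr rfl (fun u _ => sum_stOf A u)]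
      have h3 : ∀ u : Fin n, (if u ∈ A then (-1 / 8 : ℚ) else 1 / 2) =
          (1 / 2) * (if u ∈ A then (-1 / 4) else 1) := by
        intro u
        split_ifs <;> norm_num
      rw [prod_congr rfl (fun u _ => h3 u), prod_mul_distrib, prod_const, card_univ,
        Fintype.card_fin, prod_ite_mem, univ_inter, prod_const]
    rw [h2, card_map]
    split_ifs <;> ring
  rw [sum_congr rfl (fun A _ => e2 A), ← mul_sum]
  congr 1
  unfold indPoly
  refine sum_nbij' (fun A => A.map Fin.valEmbedding)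
    (fun B => univ.filter (fun u : Fin n => (u : ℕ) ∈ B)) ?_ ?_ ?_ ?_ ?_
  · intro A _
    rw [mem_powerset]
    intro x hx
    rw [mem_map] at hx
    obtain ⟨u, _, rfl⟩ := hx
    exact mem_range.2 u.2
  · intro B _
    exact mem_univ _
  · intro A _
    ext u
    simp [Fin.val_inj]
  · intro B hB
    rw [mem_powerset] at hB
    ext x
    simp only [mem_map, mem_filter, mem_univ, true_and, Fin.valEmbedding_apply]
    constructor
    · rintro ⟨u, hu, rfl⟩
      exact hu
    · intro hx
      exact ⟨⟨x, mem_range.1 (hB hx)⟩, hx, rfl⟩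
  · intro A _
    rfl

end Pool.Agent.H77.Morse
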