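import Pool.Agent.H77.Morse.CoreMc

set_option autoImplicit false

/-!
# Acyclicity of the matchings of the core
-/

namespace Pool.Agent.H77.Morse

open Finset

variable {n : ℕ} {adj : ℕ → ℕ → Bool} {c : Fin n → Fin 6}

/-- Independence of the set of switches which are on. -/
def IndepC (n : ℕ) (adj : ℕ → ℕ → Bool) (c : Fin n → Fin 6) : Prop :=
  ∀ u v : Fin n, c u = 0 → c v = 0 → adj u v = false

/-- The chains. -/
lemma acc_chain (hi : ∀ u, adj u u = false) {u : ℕ}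
    (hp : ∀ v, adj u v = true → Acc (Arc (Mc n adj c)) (pE v)) :
    ∀ k j, j + k = 2 * n → Acc (Arc (Mc n adj c)) (yE adj u j) := by
  intro k
  induction k with
  | zero =>
    intro j hj
    refine acc_of_not_dom (fun t ht => ?_)
    obtain ⟨_, h, _⟩ := Mc_y hi ht
    omega
  | succ k ih =>
    intro j hj
    refine Acc.intro _ ?_
    rintro e' ⟨t, ht, hcov, hne⟩
    obtain ⟨_, _, rfl⟩ := Mc_y hi ht
    rw [cov_fT] at hcov
    rcases hcov with rfl | rfl | rfl
    · exact absurd rfl hne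
    · exact ih (j + 1) (by omega)
    · by_cases hdom : ∃ t', (thE adj u j, t') ∈ Mc n adj c
      · obtain ⟨t', ht'⟩ := hdom
        rcases Mc_forms ht' with ⟨v, hv, h | h | h | h | h⟩ | ⟨v, i, hv, hi', h⟩
        · rw [h]
          exact hp v (thE_eq_pE hi h)
        · exact absurd h (thE_ne_aE hi)
        · exact absurd h (thE_ne_bE hi)
        · exact absurd h thE_ne_alE
        · exact absurd h thE_ne_beE
        · exact absurd h thE_ne_yE
      · exact acc_of_not_dom (fun t' ht' => hdom ⟨t', ht'⟩)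

lemma acc_al_of_ne (hi : ∀ u, adj u u = false) {u : ℕ} (h : ∀ hu : u < n, c ⟨u, hu⟩ ≠ 3) :
    Acc (Arc (Mc n adj c)) (alE u) := by
  refine acc_of_not_dom (fun t ht => ?_)
  obtain ⟨hu, _, h1⟩ := Mc_al hi ht
  exact h hu h1

lemma acc_be_of_ne (hi : ∀ u, adj u u = false) {u : ℕ} (h : ∀ hu : u < n, c ⟨u, hu⟩ ≠ 5) :
    Acc (Arc (Mc n adj c)) (beE u) := by
  refine acc_of_not_dom (fun t ht => ?_)
  obtain ⟨hu, _, h1⟩ := Mc_be hi ht
  exact h hu h1

lemma acc_p_off {u : ℕ} (h : ∀ hu : u < n, c ⟨u, hu⟩ ≠ 0) :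
    Acc (Arc (Mc n adj c)) (pE u) := by
  refine acc_of_not_dom (fun t ht => ?_)
  obtain ⟨hu, _, h1⟩ := Mc_p ht
  exact h hu h1

/-- If `a` is matched with `aT` and `al` is not matched. -/
lemma acc_a_of_y (hi : ∀ u, adj u u = false) {u : ℕ} (hu : u < n)
    (hs : c ⟨u, hu⟩ = 0 ∨ c ⟨u, hu⟩ = 1 ∨ c ⟨u, hu⟩ = 4 ∨ c ⟨u, hu⟩ = 5)
    (hy : Acc (Arc (Mc n adj c)) (yE adj u 0)) : Acc (Arc (Mc n adj c)) (aE u) := by
  refine Acc.intro _ ?_
  rintro e' ⟨t, ht, hcov, hne⟩
  obtain ⟨_, h1⟩ := Mc_a ht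
  rcases h1 with ⟨_, h1⟩ | ⟨rfl, _⟩
  · exfalso; revert hs h1; generalize c ⟨u, _⟩ = s; revert s; decide
  · rw [cov_aT (adj := adj)] at hcov
    rcases hcov with rfl | rfl | rfl
    · exact absurd rfl hne
    · refine acc_al_of_ne hi (fun _ => ?_)
      revert hs; generalize c ⟨u, _⟩ = s; revert s; decide
    · exact hy

lemma acc_b_of_y (hi : ∀ u, adj u u = false) {u : ℕ} (hu : u < n)
    (hs : c ⟨u, hu⟩ = 0 ∨ c ⟨u, hu⟩ = 1 ∨ c ⟨u, hu⟩ = 2 ∨ c ⟨u, hu⟩ = 3)
    (hy : Acc (Arc (Mc n adj c)) (yE adj u 0)) : Acc (Arc (Mc n adj c)) (bE u) := by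
  refine Acc.intro _ ?_
  rintro e' ⟨t, ht, hcov, hne⟩
  obtain ⟨_, h1⟩ := Mc_b ht
  rcases h1 with ⟨_, h1⟩ | ⟨rfl, _⟩
  · exfalso; revert hs h1; generalize c ⟨u, _⟩ = s; revert s; decide
  · rw [cov_bT (adj := adj)] at hcov
    rcases hcov with rfl | rfl | rfl
    · exact absurd rfl hne
    · refine acc_be_of_ne hi (fun _ => ?_)
      revert hs; generalize c ⟨u, _⟩ = s; revert s; decide
    · exact hy

/-- The matching of an independent set of switches is acyclic. -/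
lemma wf_Mc (hi : ∀ u, adj u u = false) (hc : IndepC n adj c) :
    WellFounded (Arc (Mc n adj c)) := by
  -- all choice edges
  have hp : ∀ u, Acc (Arc (Mc n adj c)) (pE u) := by
    intro u
    by_cases hon : ∃ hu : u < n, c ⟨u, hu⟩ = 0
    · obtain ⟨hu, hon⟩ := hon
      have hy : Acc (Arc (Mc n adj c)) (yE adj u 0) := by
        refine acc_chain hi (fun v hv => ?_) (2 * n) 0 (by omega)
        refine acc_p_off (fun hvn h0 => ?_)
        have := hc ⟨u, hu⟩ ⟨v, hvn⟩ hon h0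
        rw [this] at hv
        exact absurd hv (by decide)
      have ha := acc_a_of_y hi hu (Or.inl hon) hy
      have hb := acc_b_of_y hi hu (Or.inl hon) hy
      refine Acc.intro _ ?_
      rintro e' ⟨t, ht, hcov, hne⟩
      obtain ⟨_, rfl, _⟩ := Mc_p ht
      rw [cov_hT] at hcov
      rcases hcov with rfl | rfl | rfl
      · exact absurd rfl hne
      · exact ha
      · exact hb
    · exact acc_p_off (fun hu h => hon ⟨hu, h⟩)
  have hy : ∀ u j, j ≤ 2 * n → Acc (Arc (Mc n adj c)) (yE adj u j) := fun u j hj =>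
    acc_chain hi (fun v _ => hp v) (2 * n - j) j (by omega)
  have hab : ∀ u, u < n → Acc (Arc (Mc n adj c)) (aE u) ∧ Acc (Arc (Mc n adj c)) (bE u) := by
    intro u hu
    have hcases : (c ⟨u, hu⟩ = 0 ∨ c ⟨u, hu⟩ = 1) ∨ (c ⟨u, hu⟩ = 2 ∨ c ⟨u, hu⟩ = 3) ∨
        (c ⟨u, hu⟩ = 4 ∨ c ⟨u, hu⟩ = 5) := by
      generalize c ⟨u, hu⟩ = s; revert s; decide
    rcases hcases with h | h | h
    · exact ⟨acc_a_of_y hi hu (by tauto) (hy u 0 (by omega)),
        acc_b_of_y hi hu (by tauto) (hy u 0 (by omega))⟩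
    · have hb := acc_b_of_y hi hu (by tauto) (hy u 0 (by omega))
      refine ⟨Acc.intro _ ?_, hb⟩
      rintro e' ⟨t, ht, hcov, hne⟩
      obtain ⟨_, h1⟩ := Mc_a ht
      rcases h1 with ⟨rfl, _⟩ | ⟨_, h1⟩
      · rw [cov_hT] at hcov
        rcases hcov with rfl | rfl | rfl
        · exact hp u
        · exact absurd rfl hne
        · exact hb
      · exfalso; revert h h1; generalize c ⟨u, _⟩ = s; revert s; decide
    · have ha := acc_a_of_y hi hu (by tauto) (hy u 0 (by omega))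
      refine ⟨ha, Acc.intro _ ?_⟩
      rintro e' ⟨t, ht, hcov, hne⟩
      obtain ⟨_, h1⟩ := Mc_b ht
      rcases h1 with ⟨rfl, _⟩ | ⟨_, h1⟩
      · rw [cov_hT] at hcov
        rcases hcov with rfl | rfl | rfl
        · exact hp u
        · exact ha
        · exact absurd rfl hne
      · exfalso; revert h h1; generalize c ⟨u, _⟩ = s; revert s; decide
  constructor
  intro e
  by_cases hdom : ∃ t, (e, t) ∈ Mc n adj c
  · obtain ⟨t, ht⟩ := hdom
    rcases Mc_forms ht with ⟨u, hu, rfl | rfl | rfl | rfl | rfl⟩ | ⟨u, j, hu, hj, rfl⟩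
    · exact hp u
    · exact (hab u hu).1
    · exact (hab u hu).2
    · refine Acc.intro _ ?_
      rintro e' ⟨t, ht, hcov, hne⟩
      obtain ⟨_, rfl, _⟩ := Mc_al hi ht
      rw [cov_aT (adj := adj)] at hcov
      rcases hcov with rfl | rfl | rfl
      · exact (hab u hu).1
      · exact absurd rfl hne
      · exact hy u 0 (by omega)
    · refine Acc.intro _ ?_
      rintro e' ⟨t, ht, hcov, hne⟩
      obtain ⟨_, rfl, _⟩ := Mc_be hi ht
      rw [cov_bT (adj := adj)] at hcov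
      rcases hcov with rfl | rfl | rfl
      · exact (hab u hu).2
      · exact absurd rfl hne
      · exact hy u 0 (by omega)
    · exact hy u j (by omega)
  · exact acc_of_not_dom (fun t ht => hdom ⟨t, ht⟩)

lemma isAM_Mc (hi : ∀ u, adj u u = false) (hc : IndepC n adj c) :
    IsAM (Tc n adj) ∅ (Mc n adj c) :=
  ⟨fun _ _ h => ⟨(Mc_sub h).1, by simp, (Mc_sub h).2⟩, fun _ _ _ h h' => Mc_fn hi h h',
    wf_Mc hi hc⟩

end Pool.Agent.H77.Morse
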