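import Pool.Agent.H77.Morse.Bridge

set_option autoImplicit false

/-!
# The list of all simplices of a complex given by its triangles
-/

namespace Pool.Agent.H77.Morse

/-- The vertices of `s` lie in a common member of `L`. -/
def inTri (L : List (List ℕ)) (s : List ℕ) : Prop := ∃ t ∈ L, ∀ v ∈ s, v ∈ t

instance (L : List (List ℕ)) (s : List ℕ) : Decidable (inTri L s) :=
  inferInstanceAs (Decidable (∃ t ∈ L, ∀ v ∈ s, v ∈ t))

/-- The edges. -/
def cplx2 (M : ℕ) (L : List (List ℕ)) : List (List ℕ) :=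
  (List.range M).flatMap (fun i =>
    ((List.range M).filter (fun j => decide (i < j ∧ inTri L [i, j]))).map (fun j => [i, j]))

/-- The triangles. -/
def cplx3 (M : ℕ) (L : List (List ℕ)) : List (List ℕ) :=
  (List.range M).flatMap (fun i => (List.range M).flatMap (fun j =>
    ((List.range M).filter (fun k => decide (i < j ∧ j < k ∧ inTri L [i, j, k]))).map
      (fun k => [i, j, k])))

/-- The complex on `M` vertices whose maximal simplices of positive dimension are in `L`. -/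
def cplx (M : ℕ) (L : List (List ℕ)) : List (List ℕ) :=
  (List.range M).map (fun i => [i]) ++ (cplx2 M L ++ cplx3 M L)

variable {M : ℕ} {L : List (List ℕ)}

lemma mem_cplx2 {s : List ℕ} : s ∈ cplx2 M L ↔
    ∃ i j, i < M ∧ j < M ∧ i < j ∧ inTri L [i, j] ∧ s = [i, j] := by
  unfold cplx2
  simp only [List.mem_flatMap, List.mem_range, List.mem_map, List.mem_filter, decide_eq_true_eq]
  constructor
  · rintro ⟨i, hi, j, ⟨hj, h1, h2⟩, rfl⟩
    exact ⟨i, j, hi, hj, h1, h2, rfl⟩
  · rintro ⟨i, j, hi, hj, h1, h2, rfl⟩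
    exact ⟨i, hi, j, ⟨hj, h1, h2⟩, rfl⟩

lemma mem_cplx3 {s : List ℕ} : s ∈ cplx3 M L ↔
    ∃ i j k, i < M ∧ j < M ∧ k < M ∧ i < j ∧ j < k ∧ inTri L [i, j, k] ∧ s = [i, j, k] := by
  unfold cplx3
  simp only [List.mem_flatMap, List.mem_range, List.mem_map, List.mem_filter, decide_eq_true_eq]
  constructor
  · rintro ⟨i, hi, j, hj, k, ⟨hk, h1, h2, h3⟩, rfl⟩
    exact ⟨i, j, k, hi, hj, hk, h1, h2, h3, rfl⟩
  · rintro ⟨i, j, k, hi, hj, hk, h1, h2, h3, rfl⟩
    exact ⟨i, hi, j, hj, k, ⟨hk, h1, h2, h3⟩, rfl⟩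

lemma mem_cplx {s : List ℕ} : s ∈ cplx M L ↔ (∃ i, i < M ∧ s = [i]) ∨
    (∃ i j, i < M ∧ j < M ∧ i < j ∧ inTri L [i, j] ∧ s = [i, j]) ∨
    (∃ i j k, i < M ∧ j < M ∧ k < M ∧ i < j ∧ j < k ∧ inTri L [i, j, k] ∧ s = [i, j, k]) := by
  unfold cplx
  rw [List.mem_append, List.mem_append, mem_cplx2, mem_cplx3]
  simp only [List.mem_map, List.mem_range]
  constructor
  · rintro (⟨i, h1, h2⟩ | h | h)
    · exact Or.inl ⟨i, h1, h2.symm⟩
    · exact Or.inr (Or.inl h)
    · exact Or.inr (Or.inr h)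
  · rintro (⟨i, h1, h2⟩ | h | h)
    · exact Or.inl ⟨i, h1, h2.symm⟩
    · exact Or.inr (Or.inl h)
    · exact Or.inr (Or.inr h)

lemma nodup_cplx2 : (cplx2 M L).Nodup := by
  unfold cplx2
  rw [List.nodup_flatMap]
  constructor
  · intro i _
    refine List.Nodup.map ?_ (List.nodup_range.filter _)
    intro a b h
    simpa using h
  · refine List.Nodup.pairwise_of_forall_ne List.nodup_range ?_
    intro a _ b _ hab s h1 h2
    simp only [List.mem_map] at h1 h2
    obtain ⟨x, _, rfl⟩ := h1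
    obtain ⟨y, _, h⟩ := h2
    apply hab
    simp at h
    exact h.1.symm

lemma nodup_cplx3 : (cplx3 M L).Nodup := by
  unfold cplx3
  rw [List.nodup_flatMap]
  constructor
  · intro i _
    rw [List.nodup_flatMap]
    constructor
    · intro j _
      refine List.Nodup.map ?_ (List.nodup_range.filter _)
      intro a b h
      simpa using h
    · refine List.Nodup.pairwise_of_forall_ne List.nodup_range ?_
      intro a _ b _ hab s h1 h2
      simp only [List.mem_map] at h1 h2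
      obtain ⟨x, _, rfl⟩ := h1
      obtain ⟨y, _, h⟩ := h2
      apply hab
      simp at h
      exact h.1.symm
  · refine List.Nodup.pairwise_of_forall_ne List.nodup_range ?_
    intro a _ b _ hab s h1 h2
    simp only [List.mem_map, List.mem_flatMap] at h1 h2
    obtain ⟨_, _, x, _, rfl⟩ := h1
    obtain ⟨_, _, y, _, h⟩ := h2
    apply hab
    simp at h
    exact h.1.symm

lemma isComplexList_cplx (L : List (List ℕ)) (M : ℕ) : IsComplexList (cplx M L) := by
  refine ⟨?_, ?_, ?_, ?_⟩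
  · unfold cplx
    rw [List.nodup_append', List.nodup_append']
    refine ⟨?_, ⟨nodup_cplx2, nodup_cplx3, ?_⟩, ?_⟩
    · refine List.Nodup.map ?_ List.nodup_range
      intro a b h
      simpa using h
    · intro s h1 h2
      rw [mem_cplx2] at h1
      rw [mem_cplx3] at h2
      obtain ⟨i, j, _, _, _, _, rfl⟩ := h1
      obtain ⟨i', j', k', _, _, _, _, _, _, h⟩ := h2
      simp at h
    · intro s h1 h2
      rw [List.mem_map] at h1
      obtain ⟨i, _, rfl⟩ := h1
      rw [List.mem_append, mem_cplx2, mem_cplx3] at h2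
      rcases h2 with ⟨i', j', _, _, _, _, h⟩ | ⟨i', j', k', _, _, _, _, _, _, h⟩
      · simp at h
      · simp at h
  · intro s hs
    rw [mem_cplx] at hs
    rcases hs with ⟨i, _, rfl⟩ | ⟨i, j, _, _, h, _, rfl⟩ | ⟨i, j, k, _, _, _, h1, h2, _, rfl⟩
    · simp
    · simp [h]
    · simp only [List.pairwise_cons, List.mem_cons, List.not_mem_nil, or_false, forall_eq_or_imp,
        forall_eq, IsEmpty.forall_iff, implies_true, List.Pairwise.nil, and_true]
      exact ⟨⟨h1, h1.trans h2⟩, h2⟩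
  · intro s hs
    rw [mem_cplx] at hs
    rcases hs with ⟨i, _, rfl⟩ | ⟨i, j, _, _, h, _, rfl⟩ | ⟨i, j, k, _, _, _, h1, h2, _, rfl⟩ <;>
      simp
  · intro s hs t ht hst
    rw [mem_cplx] at hs
    have hsub : ∀ {a b : List ℕ}, inTri L b → a ⊆ b → inTri L a :=
      fun ⟨t, ht, h⟩ hab => ⟨t, ht, fun v hv => h v (hab hv)⟩
    rw [mem_cplx]
    rw [← List.mem_sublists'] at hst
    rcases hs with ⟨i, hi, rfl⟩ | ⟨i, j, hi, hj, h, hL, rfl⟩ |
      ⟨i, j, k, hi, hj, hk, h1, h2, hL, rfl⟩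
    · simp at hst
      rcases hst with rfl | rfl
      · exact absurd rfl ht
      · exact Or.inl ⟨i, hi, rfl⟩
    · simp at hst
      rcases hst with rfl | rfl | rfl | rfl
      · exact absurd rfl ht
      · exact Or.inl ⟨j, hj, rfl⟩
      · exact Or.inl ⟨i, hi, rfl⟩
      · exact Or.inr (Or.inl ⟨i, j, hi, hj, h, hL, rfl⟩)
    · simp at hst
      rcases hst with rfl | rfl | rfl | rfl | rfl | rfl | rfl | rfl
      · exact absurd rfl ht
      · exact Or.inl ⟨k, hk, rfl⟩
      · exact Or.inl ⟨j, hj, rfl⟩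
      · exact Or.inr (Or.inl ⟨j, k, hj, hk, h2, hsub hL (by simp), rfl⟩)
      · exact Or.inl ⟨i, hi, rfl⟩
      · exact Or.inr (Or.inl ⟨i, k, hi, hk, h1.trans h2, hsub hL (by simp), rfl⟩)
      · exact Or.inr (Or.inl ⟨i, j, hi, hj, h1, hsub hL (by simp), rfl⟩)
      · exact Or.inr (Or.inr ⟨i, j, k, hi, hj, hk, h1, h2, hL, rfl⟩)

end Pool.Agent.H77.Morse
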