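import Pool.Agent.H77.Morse.Cplx

set_option autoImplicit false

/-!
# The set of simplices of `cplx M L`
-/

namespace Pool.Agent.H77.Morse

open Finset

lemma mem_simplices {K : List (List ℕ)} {s : Finset ℕ} :
    s ∈ simplices K ↔ ∃ l ∈ K, l.toFinset = s := by
  unfold simplices
  rw [List.mem_toFinset, List.mem_map]

/-- The set of simplices of a complex list is a complex. -/
lemma simplices_faces {K : List (List ℕ)} (h : IsComplexList K) :
    ∀ s ∈ simplices K, ∀ t ⊆ s, t.Nonempty → t ∈ simplices K := by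
  intro s hs t hts hne
  rw [mem_simplices] at hs ⊢
  obtain ⟨l, hl, rfl⟩ := hs
  have h1 : (l.filter (fun v => decide (v ∈ t))).toFinset = t := by
    ext v
    rw [List.mem_toFinset, List.mem_filter, decide_eq_true_eq]
    exact ⟨fun h => h.2, fun h => ⟨List.mem_toFinset.1 (hts h), h⟩⟩
  refine ⟨l.filter (fun v => decide (v ∈ t)), h.faces l hl _ ?_ List.filter_sublist, h1⟩
  intro h2
  rw [h2] at h1
  rw [← h1] at hne
  simp at hne

lemma card_toFinset_sorted {l : List ℕ} (h : l.Pairwise (· < ·)) : l.toFinset.card = l.length := by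
  rw [List.toFinset_card_of_nodup]
  exact h.imp (fun h => ne_of_lt h)

lemma simplices_card {K : List (List ℕ)} (h : IsComplexList K) {m : ℕ}
    (hm : ∀ s ∈ K, s.length ≤ m) : ∀ s ∈ simplices K, s.card ≤ m := by
  intro s hs
  rw [mem_simplices] at hs
  obtain ⟨l, hl, rfl⟩ := hs
  rw [card_toFinset_sorted (h.sorted l hl)]
  exact hm l hl

variable {M : ℕ} {L : List (List ℕ)}

lemma cplx_length {s : List ℕ} (hs : s ∈ cplx M L) : s.length ≤ 3 := by
  rw [mem_cplx] at hs
  rcases hs with ⟨i, _, rfl⟩ | ⟨i, j, _, _, _, _, rfl⟩ | ⟨i, j, k, _, _, _, _, _, _, rfl⟩ <;> simp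

lemma isCx2_cplx : IsCx2 (simplices (cplx M L)) := by
  refine ⟨?_, simplices_faces (isComplexList_cplx L M),
    simplices_card (isComplexList_cplx L M) (fun s hs => cplx_length hs)⟩
  intro s hs
  rw [mem_simplices] at hs
  obtain ⟨l, hl, rfl⟩ := hs
  rw [List.toFinset_nonempty_iff]
  exact (isComplexList_cplx L M).ne_nil l hl

lemma nverts_cplx : nverts (simplices (cplx M L)) = M := by
  unfold nverts
  have : (simplices (cplx M L)).filter (fun s => s.card = 1) =
      (range M).image (fun i => ({i} : Finset ℕ)) := by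
    ext s
    rw [mem_filter, mem_simplices, mem_image]
    constructor
    · rintro ⟨⟨l, hl, rfl⟩, hc⟩
      rw [card_toFinset_sorted ((isComplexList_cplx L M).sorted l hl)] at hc
      rw [mem_cplx] at hl
      rcases hl with ⟨i, hi, rfl⟩ | ⟨i, j, _, _, _, _, rfl⟩ | ⟨i, j, k, _, _, _, _, _, _, rfl⟩
      · exact ⟨i, mem_range.2 hi, by simp⟩
      · simp at hc
      · simp at hc
    · rintro ⟨i, hi, rfl⟩
      exact ⟨⟨[i], mem_cplx.2 (Or.inl ⟨i, mem_range.1 hi, rfl⟩), by simp⟩, card_singleton _⟩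
  rw [this, card_image_of_injective _ singleton_injective, card_range]

lemma tris_cplx (hL : ∀ t ∈ L, t.toFinset.card = 3 ∧ ∀ v ∈ t, v < M) :
    tris (simplices (cplx M L)) = (L.map List.toFinset).toFinset := by
  unfold tris
  ext s
  rw [mem_filter, mem_simplices, List.mem_toFinset, List.mem_map]
  constructor
  · rintro ⟨⟨l, hl, rfl⟩, hc⟩
    have hc' := hc
    rw [card_toFinset_sorted ((isComplexList_cplx L M).sorted l hl)] at hc
    rw [mem_cplx] at hl
    rcases hl with ⟨i, hi, rfl⟩ | ⟨i, j, _, _, _, _, rfl⟩ | ⟨i, j, k, _, _, _, h1, h2, h3, rfl⟩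
    · simp at hc
    · simp at hc
    · obtain ⟨t, ht, h4⟩ := h3
      refine ⟨t, ht, ?_⟩
      symm
      refine eq_of_subset_of_card_le ?_ ?_
      · intro v hv
        rw [List.mem_toFinset] at hv ⊢
        exact h4 v hv
      · rw [(hL t ht).1, hc']
  · rintro ⟨t, ht, rfl⟩
    obtain ⟨h1, h2⟩ := hL t ht
    refine ⟨?_, h1⟩
    have hlen : (t.toFinset.sort (· ≤ ·)).length = 3 := by rw [Finset.length_sort, h1]
    have hsort : (t.toFinset.sort (· ≤ ·)).Pairwise (· < ·) := by
      have := Finset.sortedLT_sort t.toFinset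
      exact this.pairwise
    have hmem : ∀ v ∈ t.toFinset.sort (· ≤ ·), v ∈ t := by
      intro v hv
      rw [Finset.mem_sort, List.mem_toFinset] at hv
      exact hv
    refine ⟨t.toFinset.sort (· ≤ ·), ?_, Finset.sort_toFinset _ _⟩
    generalize t.toFinset.sort (· ≤ ·) = l at hlen hsort hmem
    match l, hlen with
    | [i, j, k], _ =>
      simp only [List.pairwise_cons, List.mem_cons, List.not_mem_nil, or_false, forall_eq_or_imp,
        forall_eq, IsEmpty.forall_iff, implies_true, List.Pairwise.nil, and_true] at hsort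
      rw [mem_cplx]
      exact Or.inr (Or.inr ⟨i, j, k, h2 i (hmem i (by simp)), h2 j (hmem j (by simp)),
        h2 k (hmem k (by simp)), hsort.1.1, hsort.2, ⟨t, ht, hmem⟩, rfl⟩)

lemma dim_cplx (hL : ∀ t ∈ L, t.toFinset.card = 3 ∧ ∀ v ∈ t, v < M) (hne : L ≠ []) :
    dim (simplices (cplx M L)) = 2 := by
  unfold dim
  have h1 : (simplices (cplx M L)).sup Finset.card = 3 := by
    apply le_antisymm
    · exact Finset.sup_le (fun s hs => isCx2_cplx.card_le s hs)
    · obtain ⟨t, ht⟩ := List.exists_mem_of_ne_nil L hne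
      have h2 : t.toFinset ∈ tris (simplices (cplx M L)) := by
        rw [tris_cplx hL, List.mem_toFinset, List.mem_map]
        exact ⟨t, ht, rfl⟩
      have h3 := mem_filter.1 h2
      rw [← h3.2]
      exact Finset.le_sup (f := Finset.card) h3.1
  rw [h1]

end Pool.Agent.H77.Morse
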