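import Mathlib
import Pool.Agent.H99.BinDet.BN

set_option autoImplicit false

/-!
# The Morse ensemble polynomial of a finite simplicial complex

A simplicial complex is given by the finite set of its nonempty simplices, a simplex being a finite
set of natural numbers.
-/

namespace Pool.Agent.H77.Morse

open Finset

/-- `s` is a facet of `t`. -/
def Cov (s t : Finset ℕ) : Prop := s ⊆ t ∧ t.card = s.card + 1

/-- One step in the Hasse diagram of `K`, directed downwards except for the pairs of `M`, which are
directed upwards. -/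
def Step (K : Finset (Finset ℕ)) (M : Finset (Finset ℕ × Finset ℕ)) (a b : Finset ℕ) : Prop :=
  a ∈ K ∧ b ∈ K ∧ ((Cov b a ∧ (b, a) ∉ M) ∨ (a, b) ∈ M)

/-- Acyclic matchings of the face poset of `K`. -/
structure IsAcyclicMatching (K : Finset (Finset ℕ)) (M : Finset (Finset ℕ × Finset ℕ)) : Prop where
  pairs : ∀ s t, (s, t) ∈ M → s ∈ K ∧ t ∈ K ∧ Cov s t
  matching : ∀ p ∈ M, ∀ q ∈ M, p ≠ q → p.1 ≠ q.1 ∧ p.1 ≠ q.2 ∧ p.2 ≠ q.1 ∧ p.2 ≠ q.2
  acyclic : ∀ s, ¬ Relation.TransGen (Step K M) s s

open Classical in
/-- The number of critical `i`-simplices. -/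
noncomputable def crit (K : Finset (Finset ℕ)) (M : Finset (Finset ℕ × Finset ℕ)) (i : ℕ) : ℕ :=
  (K.filter (fun s => s.card = i + 1 ∧ ∀ t, (s, t) ∉ M ∧ (t, s) ∉ M)).card

/-- The dimension of `K`. -/
def dim (K : Finset (Finset ℕ)) : ℕ := K.sup Finset.card - 1

open Classical in
/-- The acyclic matchings of `K`. -/
noncomputable def acyclicMatchings (K : Finset (Finset ℕ)) :
    Finset (Finset (Finset ℕ × Finset ℕ)) :=
  (K ×ˢ K).powerset.filter (IsAcyclicMatching K)

/-- The Morse ensemble polynomial of `K`; the variable `z_i` is `MvPolynomial.X i`. -/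
noncomputable def ME (K : Finset (Finset ℕ)) : MvPolynomial ℕ ℕ :=
  ∑ M ∈ acyclicMatchings K, ∏ i ∈ range (dim K + 1), MvPolynomial.X i ^ crit K M i

open Pool.Agent.H99.BinDet in
/-- The list `out` describes `ME K`: it contains, in some order and without repetition, for each
monomial with nonzero coefficient the pair of the list of its exponents (of `z_0, …, z_d`,
`d = dim K`) and its coefficient. Natural numbers of type `BN` are encoded in binary. -/
def IsOutput (K : Finset (Finset ℕ)) (out : List (List ℕ × BN)) : Prop :=
  (out.map Prod.fst).Nodup ∧ ∀ (e : List ℕ) (c : BN), (e, c) ∈ out ↔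
    e.length = dim K + 1 ∧ c.val ≠ 0 ∧ c.val = (ME K).coeff e.toFinsupp

/-- The list `K` is the list of all simplices of a simplicial complex: every simplex is given by the
strictly increasing list of its vertices, there are no repetitions, and `K` is closed under passing
to nonempty faces. -/
structure IsComplexList (K : List (List ℕ)) : Prop where
  nodup : K.Nodup
  sorted : ∀ s ∈ K, s.Pairwise (· < ·)
  ne_nil : ∀ s ∈ K, s ≠ []
  faces : ∀ s ∈ K, ∀ t, t ≠ [] → t.Sublist s → t ∈ K

/-- The set of simplices of a list. -/
def simplices (K : List (List ℕ)) : Finset (Finset ℕ) := (K.map List.toFinset).toFinset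

/-- CNF formulas: the number of variables and the list of clauses; a clause is a list of literals,
and the literal `(i, b)` says that the variable `i` has the value `b`. -/
abbrev CNF := ℕ × List (List (ℕ × Bool))

/-- The assignment `σ` satisfies the formula. -/
def Sat (φ : CNF) (σ : Fin φ.1 → Bool) : Prop :=
  ∀ C ∈ φ.2, ∃ i : Fin φ.1, ((i : ℕ), σ i) ∈ C

open Classical in
/-- The number of satisfying assignments. -/
noncomputable def satCount (φ : CNF) : ℕ := (univ.filter (fun σ : Fin φ.1 → Bool => Sat φ σ)).card

end Pool.Agent.H77.Morse
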