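import Pool.Agent.H77.Morse.Bridge

set_option autoImplicit false

/-!
# Evaluating the output
-/

namespace Pool.Agent.H77.Morse

open Finset Pool.Agent.H99.BinDet

variable {K : Finset (Finset ℕ)}

/-- The vector of the numbers of critical simplices. -/
noncomputable def cv (K : Finset (Finset ℕ)) (M : Finset (Finset ℕ × Finset ℕ)) : List ℕ :=
  (List.range (dim K + 1)).map (crit K M)

lemma toFinsupp_cv (M : Finset (Finset ℕ × Finset ℕ)) :
    (cv K M).toFinsupp = ∑ i ∈ range (dim K + 1), Finsupp.single i (crit K M i) := by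
  ext j
  rw [List.toFinsupp_apply, Finsupp.finsetSum_apply]
  unfold cv
  by_cases hj : j < dim K + 1
  · rw [sum_eq_single j]
    · rw [Finsupp.single_eq_same]
      rw [List.getD_eq_getElem _ _ (by simpa using hj)]
      simp
    · intro b _ hb
      exact Finsupp.single_eq_of_ne (Ne.symm hb)
    · intro h
      exact absurd (mem_range.2 hj) h
  · rw [List.getD_eq_default _ _ (by simpa using hj)]
    symm
    refine sum_eq_zero (fun i hi => Finsupp.single_eq_of_ne ?_)
    have := mem_range.1 hi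
    omega

lemma eq_of_toFinsupp {l l' : List ℕ} (hl : l.length = l'.length)
    (h : l.toFinsupp = l'.toFinsupp) : l = l' := by
  apply List.ext_getElem hl
  intro i h1 h2
  have h3 := DFunLike.congr_fun h i
  rw [List.toFinsupp_apply, List.toFinsupp_apply, List.getD_eq_getElem _ _ h1,
    List.getD_eq_getElem _ _ h2] at h3
  exact h3

lemma coeff_ME {e : List ℕ} (he : e.length = dim K + 1) :
    (ME K).coeff e.toFinsupp = ((acyclicMatchings K).filter (fun M => cv K M = e)).card := by
  classical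
  unfold ME
  rw [MvPolynomial.coeff_sum, card_filter]
  refine sum_congr rfl (fun M _ => ?_)
  have h1 : ∏ i ∈ range (dim K + 1), (MvPolynomial.X i : MvPolynomial ℕ ℕ) ^ crit K M i =
      MvPolynomial.monomial (cv K M).toFinsupp 1 := by
    rw [toFinsupp_cv, MvPolynomial.monomial_sum_one]
    exact prod_congr rfl (fun i _ => by rw [MvPolynomial.X_pow_eq_monomial])
  rw [h1, MvPolynomial.coeff_monomial]
  have h2 : (cv K M).toFinsupp = e.toFinsupp ↔ cv K M = e := by
    constructor
    · intro h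
      refine eq_of_toFinsupp ?_ h
      rw [he]
      unfold cv
      simp
    · intro h
      rw [h]
  by_cases h3 : cv K M = e
  · rw [if_pos (h2.2 h3), if_pos h3]
  · rw [if_neg (fun h => h3 (h2.1 h)), if_neg h3]

lemma output_sum {out : List (List ℕ × BN)} (h : IsOutput K out) (g : List ℕ → ℤ) :
    (out.map (fun p => g p.1 * (p.2.val : ℤ))).sum = ∑ M ∈ acyclicMatchings K, g (cv K M) := by
  classical
  obtain ⟨hnd, hmem⟩ := h
  have h1 : out.map (fun p => g p.1 * (p.2.val : ℤ)) = (out.map Prod.fst).map (fun e =>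
      g e * (((acyclicMatchings K).filter (fun M => cv K M = e)).card : ℤ)) := by
    rw [List.map_map]
    refine List.map_congr_left ?_
    rintro ⟨e, c⟩ hp
    obtain ⟨h1, _, h3⟩ := (hmem e c).1 hp
    simp only [Function.comp]
    rw [h3, coeff_ME h1]
  rw [h1, ← List.sum_toFinset _ hnd]
  have h2 : (out.map Prod.fst).toFinset = (acyclicMatchings K).image (cv K) := by
    ext e
    rw [List.mem_toFinset, List.mem_map, mem_image]
    constructor
    · rintro ⟨⟨e', c⟩, hp, rfl⟩
      obtain ⟨h1, h2, h3⟩ := (hmem e' c).1 hp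
      rw [coeff_ME h1] at h3
      rw [h3] at h2
      obtain ⟨M, hM⟩ := card_pos.1 (Nat.pos_of_ne_zero h2)
      rw [mem_filter] at hM
      exact ⟨M, hM.1, hM.2⟩
    · rintro ⟨M, hM, rfl⟩
      have hlen : (cv K M).length = dim K + 1 := by unfold cv; simp
      refine ⟨(cv K M, ⟨(ME K).coeff (cv K M).toFinsupp⟩), (hmem _ _).2 ⟨hlen, ?_, rfl⟩, rfl⟩
      show (ME K).coeff (cv K M).toFinsupp ≠ 0
      rw [coeff_ME hlen]
      have hM' : M ∈ (acyclicMatchings K).filter (fun M' => cv K M' = cv K M) :=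
        mem_filter.2 ⟨hM, rfl⟩
      exact (card_pos.2 ⟨M, hM'⟩).ne'
  rw [h2, sum_comp g (cv K)]
  refine sum_congr rfl (fun e _ => ?_)
  rw [nsmul_eq_mul, mul_comm]

/-- The evaluation used by the reduction. -/
def gEval (n0 : ℕ) (e : List ℕ) : ℤ := if e.getD 0 0 = n0 then (-2) ^ e.getD 2 0 else 0

theorem eval_output (hK : IsCx2 K) (hd : dim K = 2) {out : List (List ℕ × BN)}
    (h : IsOutput K out) :
    (((out.map (fun p => gEval (nverts K) p.1 * (p.2.val : ℤ))).sum : ℤ) : ℚ) =
      (-2) ^ (tris K).card * W (tris K) ∅ ∅ := by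
  classical
  rw [output_sum h]
  have hcv : ∀ M, (cv K M).getD 0 0 = crit K M 0 ∧ (cv K M).getD 2 0 = crit K M 2 := by
    intro M
    unfold cv
    rw [hd]
    exact ⟨rfl, rfl⟩
  have e1 : ∑ M ∈ acyclicMatchings K, gEval (nverts K) (cv K M) =
      ∑ M ∈ AM (tris K) ∅, (-2 : ℤ) ^ crit K M 2 := by
    have : AM (tris K) ∅ = (acyclicMatchings K).filter (fun M => crit K M 0 = nverts K) := by
      ext M
      rw [mem_AM, ← bridge hK, mem_filter]
      refine and_congr_left (fun _ => ?_)
      unfold acyclicMatchings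
      rw [mem_filter, mem_powerset]
      refine ⟨fun h => ⟨?_, h⟩, fun h => h.2⟩
      rintro ⟨s, t⟩ hp
      exact mem_product.2 ⟨(h.pairs _ _ hp).1, (h.pairs _ _ hp).2.1⟩
    rw [this, sum_filter]
    refine sum_congr rfl (fun M _ => ?_)
    unfold gEval
    rw [(hcv M).1, (hcv M).2]
  rw [e1]
  push_cast
  unfold W
  rw [mul_sum]
  refine sum_congr rfl (fun M hM => ?_)
  rw [mem_AM] at hM
  have h1 := crit_two hM
  have h2 : wt ∅ M = (-1 / 2 : ℚ) ^ M.card := by
    unfold wt
    rw [if_pos]
    simp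
  rw [h2, ← h1, pow_add, mul_assoc, ← mul_pow]
  norm_num

/-- Every complex has an output list. -/
lemma exists_output (K : Finset (Finset ℕ)) : ∃ out : List (List ℕ × BN), IsOutput K out := by
  classical
  refine ⟨(((acyclicMatchings K).image (cv K)).toList).map
    (fun e => (e, ⟨(ME K).coeff e.toFinsupp⟩)), ?_, ?_⟩
  · rw [List.map_map]
    have : (Prod.fst ∘ fun e : List ℕ => (e, (⟨(ME K).coeff e.toFinsupp⟩ : BN))) = id := rfl
    rw [this, List.map_id]
    exact nodup_toList _
  · intro e c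
    rw [List.mem_map]
    constructor
    · rintro ⟨e', he', h⟩
      rw [Prod.mk.injEq] at h
      obtain ⟨rfl, rfl⟩ := h
      rw [mem_toList, mem_image] at he'
      obtain ⟨M, hM, rfl⟩ := he'
      have hlen : (cv K M).length = dim K + 1 := by unfold cv; simp
      refine ⟨hlen, ?_, rfl⟩
      show (ME K).coeff (cv K M).toFinsupp ≠ 0
      rw [coeff_ME hlen]
      have hM' : M ∈ (acyclicMatchings K).filter (fun M' => cv K M' = cv K M) :=
        mem_filter.2 ⟨hM, rfl⟩
      exact (card_pos.2 ⟨M, hM'⟩).ne'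
    · rintro ⟨h1, h2, h3⟩
      refine ⟨e, ?_, ?_⟩
      · rw [h3, coeff_ME h1] at h2
        obtain ⟨M, hM⟩ := card_pos.1 (Nat.pos_of_ne_zero h2)
        rw [mem_filter] at hM
        rw [mem_toList, mem_image]
        exact ⟨M, hM.1, hM.2⟩
      · rw [Prod.mk.injEq]
        exact ⟨rfl, BN.ext h3.symm⟩

end Pool.Agent.H77.Morse
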