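import Pool.Agent.H77.Morse.Defs

set_option autoImplicit false

/-!
# Acyclic matchings between the two top levels: adding a triangle
-/

namespace Pool.Agent.H77.Morse

open Finset

/-- The arcs of a matching: `e` is matched with `t` and `e'` is another facet of `t`. -/
def Arc (M : Finset (Finset ℕ × Finset ℕ)) (e' e : Finset ℕ) : Prop :=
  ∃ t, (e, t) ∈ M ∧ Cov e' t ∧ e' ≠ e

/-- Acyclic matchings into the simplices of `T`, the simplices of `D` being unused. -/
structure IsAM (T D : Finset (Finset ℕ)) (M : Finset (Finset ℕ × Finset ℕ)) : Prop where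
  sub : ∀ e t, (e, t) ∈ M → t ∈ T ∧ e ∉ D ∧ Cov e t
  fn : ∀ e t t', (e, t) ∈ M → (e, t') ∈ M → t = t'
  wf : WellFounded (Arc M)

open Classical in
/-- The finite set of all acyclic matchings. -/
noncomputable def AM (T D : Finset (Finset ℕ)) : Finset (Finset (Finset ℕ × Finset ℕ)) :=
  ((T.biUnion powerset) ×ˢ T).powerset.filter (IsAM T D)

lemma mem_AM {T D : Finset (Finset ℕ)} {M : Finset (Finset ℕ × Finset ℕ)} :
    M ∈ AM T D ↔ IsAM T D M := by
  classical
  unfold AM
  rw [mem_filter, mem_powerset]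
  refine ⟨fun h => h.2, fun h => ⟨?_, h⟩⟩
  rintro ⟨e, t⟩ hp
  obtain ⟨h1, _, h2⟩ := h.sub e t hp
  rw [mem_product, mem_biUnion]
  exact ⟨⟨t, h1, mem_powerset.2 h2.1⟩, h1⟩

lemma IsAM.inj {T D : Finset (Finset ℕ)} {M : Finset (Finset ℕ × Finset ℕ)} (h : IsAM T D M)
    {e e' t : Finset ℕ} (h1 : (e, t) ∈ M) (h2 : (e', t) ∈ M) : e = e' := by
  by_contra hne
  have a1 : Arc M e' e := ⟨t, h1, (h.sub _ _ h2).2.2, fun h => hne h.symm⟩
  have a2 : Arc M e e' := ⟨t, h2, (h.sub _ _ h1).2.2, hne⟩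
  exact h.wf.asymmetric _ _ a1 a2

lemma Arc.mono {M M' : Finset (Finset ℕ × Finset ℕ)} (h : M' ⊆ M) {e e' : Finset ℕ}
    (ha : Arc M' e' e) : Arc M e' e := by
  obtain ⟨t, h1, h2, h3⟩ := ha
  exact ⟨t, h h1, h2, h3⟩

lemma wf_mono {M M' : Finset (Finset ℕ × Finset ℕ)} (h : M' ⊆ M) (hw : WellFounded (Arc M)) :
    WellFounded (Arc M') :=
  Subrelation.wf (fun ha => Arc.mono h ha) hw

/-- A simplex which is not matched has no outgoing arc. -/
lemma acc_of_not_dom {M : Finset (Finset ℕ × Finset ℕ)} {e : Finset ℕ}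
    (h : ∀ t, (e, t) ∉ M) : Acc (Arc M) e :=
  Acc.intro _ (fun _ ⟨t, ht, _⟩ => absurd ht (h t))

lemma wf_insert_sink {M : Finset (Finset ℕ × Finset ℕ)} {e t : Finset ℕ}
    (hw : WellFounded (Arc M)) (he : ∀ t', (e, t') ∉ M)
    (h : ∀ e', Cov e' t → e' ≠ e → ∀ t', (e', t') ∉ M) :
    WellFounded (Arc (insert (e, t) M)) := by
  classical
  constructor
  intro s
  induction s using hw.induction with
  | _ s ih =>
    refine Acc.intro _ ?_
    rintro s' ⟨t', h1, h2, h3⟩
    rw [mem_insert] at h1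
    rcases h1 with h1 | h1
    · obtain ⟨rfl, rfl⟩ := Prod.mk.injEq _ _ _ _ ▸ h1
      refine acc_of_not_dom ?_
      intro t'' h4
      rw [mem_insert] at h4
      rcases h4 with h4 | h4
      · exact h3 (Prod.mk.injEq _ _ _ _ ▸ h4).1
      · exact h s' h2 h3 t'' h4
    · exact ih s' ⟨t', h1, h2, h3⟩

lemma wf_insert_source {M : Finset (Finset ℕ × Finset ℕ)} {e t : Finset ℕ}
    (hw : WellFounded (Arc M)) (h : ∀ e' t', (e', t') ∈ M → ¬ Cov e t')
    (he : ∀ t', (e, t') ∉ M) :
    WellFounded (Arc (insert (e, t) M)) := by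
  classical
  have key : ∀ s, s ≠ e → Acc (Arc (insert (e, t) M)) s := by
    intro s
    induction s using hw.induction with
    | _ s ih =>
      intro hs
      refine Acc.intro _ ?_
      rintro s' ⟨t', h1, h2, h3⟩
      rw [mem_insert] at h1
      rcases h1 with h1 | h1
      · exact absurd (Prod.mk.injEq _ _ _ _ ▸ h1).1 hs
      · refine ih s' ⟨t', h1, h2, h3⟩ ?_
        rintro rfl
        exact h s t' h1 h2
  constructor
  intro s
  by_cases hs : s = e
  · subst hs
    refine Acc.intro _ ?_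
    rintro s' ⟨t', _, _, h3⟩
    exact key s' h3
  · exact key s hs

open Classical in
/-- The facets of a simplex. -/
noncomputable def facets (t : Finset ℕ) : Finset (Finset ℕ) := t.powerset.filter (fun s => Cov s t)

lemma mem_facets {s t : Finset ℕ} : s ∈ facets t ↔ Cov s t := by
  classical
  unfold facets
  rw [mem_filter, mem_powerset]
  exact ⟨fun h => h.2, fun h => ⟨h.1, h⟩⟩

open Classical in
/-- Adding one simplex. -/
lemma AM_insert {T D : Finset (Finset ℕ)} {t : Finset ℕ} (ht : t ∉ T) :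
    AM (insert t T) D = AM T D ∪ ((facets t).filter (· ∉ D)).biUnion (fun e =>
      ((AM T (insert e D)).filter (fun M => WellFounded (Arc (insert (e, t) M)))).image
        (insert (e, t))) := by
  ext M
  simp only [mem_union, mem_biUnion, mem_image, mem_filter, mem_AM, mem_facets]
  constructor
  · intro h
    by_cases hex : ∃ e, (e, t) ∈ M
    · right
      obtain ⟨e, he⟩ := hex
      obtain ⟨_, heD, hcov⟩ := h.sub e t he
      refine ⟨e, ⟨hcov, heD⟩, M.erase (e, t), ⟨⟨?_, ?_, ?_⟩, ?_⟩, ?_⟩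
      · intro e' t' h'
        rw [mem_erase] at h'
        obtain ⟨h1, h2, h3⟩ := h.sub e' t' h'.2
        have hne : e' ≠ e := by
          rintro rfl
          exact h'.1 (by rw [h.fn _ _ _ h'.2 he])
        refine ⟨?_, ?_, h3⟩
        · rw [mem_insert] at h1
          rcases h1 with rfl | h1
          · exact absurd (h.inj h'.2 he) hne
          · exact h1
        · rw [mem_insert, not_or]
          exact ⟨hne, h2⟩
      · intro e' t' t'' h1 h2
        exact h.fn _ _ _ (mem_of_mem_erase h1) (mem_of_mem_erase h2)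
      · exact wf_mono (erase_subset _ _) h.wf
      · rw [insert_erase he]
        exact h.wf
      · exact insert_erase he
    · left
      refine ⟨?_, h.fn, h.wf⟩
      intro e' t' h'
      obtain ⟨h1, h2, h3⟩ := h.sub e' t' h'
      refine ⟨?_, h2, h3⟩
      rw [mem_insert] at h1
      rcases h1 with rfl | h1
      · exact absurd ⟨e', h'⟩ hex
      · exact h1
  · rintro (h | ⟨e, ⟨hcov, heD⟩, M', ⟨h, hwf⟩, rfl⟩)
    · exact ⟨fun e' t' h' => ⟨mem_insert_of_mem (h.sub e' t' h').1, (h.sub e' t' h').2⟩, h.fn, h.wf⟩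
    · have hdom : ∀ t', (e, t') ∉ M' := fun t' h' => (h.sub e t' h').2.1 (mem_insert_self _ _)
      refine ⟨?_, ?_, hwf⟩
      · intro e' t' h'
        rw [mem_insert] at h'
        rcases h' with h' | h'
        · obtain ⟨rfl, rfl⟩ := Prod.mk.injEq _ _ _ _ ▸ h'
          exact ⟨mem_insert_self _ _, heD, hcov⟩
        · obtain ⟨h1, h2, h3⟩ := h.sub e' t' h'
          exact ⟨mem_insert_of_mem h1, fun h => h2 (mem_insert_of_mem h), h3⟩
      · intro e' t' t'' h1 h2
        rw [mem_insert] at h1 h2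
        rcases h1 with h1 | h1 <;> rcases h2 with h2 | h2
        · rw [Prod.mk.injEq] at h1 h2
          rw [h1.2, h2.2]
        · obtain ⟨rfl, rfl⟩ := Prod.mk.injEq _ _ _ _ ▸ h1
          exact absurd h2 (hdom _)
        · obtain ⟨rfl, rfl⟩ := Prod.mk.injEq _ _ _ _ ▸ h2
          exact absurd h1 (hdom _)
        · exact h.fn _ _ _ h1 h2

open Classical in
lemma sum_AM_insert {T D : Finset (Finset ℕ)} {t : Finset ℕ} (ht : t ∉ T)
    (F : Finset (Finset ℕ × Finset ℕ) → ℚ) :
    ∑ M ∈ AM (insert t T) D, F M = ∑ M ∈ AM T D, F M +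
      ∑ e ∈ (facets t).filter (· ∉ D), ∑ M ∈ (AM T (insert e D)).filter
        (fun M => WellFounded (Arc (insert (e, t) M))), F (insert (e, t) M) := by
  have hnot : ∀ (D' : Finset (Finset ℕ)) (M : Finset (Finset ℕ × Finset ℕ)), M ∈ AM T D' →
      ∀ e, (e, t) ∉ M := fun D' M hM e he => ht ((mem_AM.1 hM).sub e t he).1
  rw [AM_insert ht, sum_union, sum_biUnion]
  · congr 1
    refine sum_congr rfl (fun e _ => ?_)
    rw [sum_image]
    intro M hM M' hM' heq
    have hM := (mem_filter.1 (mem_coe.1 hM)).1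
    have hM' := (mem_filter.1 (mem_coe.1 hM')).1
    have h1 : (insert (e, t) M).erase (e, t) = (insert (e, t) M').erase (e, t) := by rw [heq]
    rwa [erase_insert (hnot _ M hM e), erase_insert (hnot _ M' hM' e)] at h1
  · intro e _ e' _ hne
    simp only [Function.onFun]
    rw [disjoint_left]
    intro M h1 h2
    rw [mem_image] at h1 h2
    obtain ⟨M1, hM1, rfl⟩ := h1
    obtain ⟨M2, hM2, h3⟩ := h2
    rw [mem_filter] at hM1 hM2
    have h4 : (e, t) ∈ insert (e', t) M2 := by rw [h3]; exact mem_insert_self _ _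
    rw [mem_insert] at h4
    rcases h4 with h4 | h4
    · exact hne (Prod.mk.injEq _ _ _ _ ▸ h4).1
    · exact hnot _ M2 hM2.1 e h4
  · rw [disjoint_left]
    intro M h1 h2
    rw [mem_biUnion] at h2
    obtain ⟨e, _, h2⟩ := h2
    rw [mem_image] at h2
    obtain ⟨M1, _, rfl⟩ := h2
    exact hnot _ _ h1 e (mem_insert_self _ _)

end Pool.Agent.H77.Morse
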