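import Pool.Agent.H77.Morse.Reduction
import Pool.Agent.H60.Lists
import Pool.Agent.H99.BinDet.BZ

set_option autoImplicit false

/-!
# The reduction runs in polynomial time
-/

namespace Pool.Agent.H77.Morse

open Pool.Agent.H7.Comp Pool.Agent.H60 Pool.Agent.H99.BinDet

variable {α : Type} [Enc α]

lemma pt_nF : PT nF := by
  unfold nF
  exact ((PT.const 2).mul PT.fst).add
    ((PT.const 4).mul ((Lists.length PT.snd).add PT.fst))

lemma pt_kap : PT kap := by
  unfold kap
  refine Lists.append PT.snd (Lists.map (Lists.range PT.fst) ?_)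
  exact PT.cons (PT.snd.pair (PT.const false)) (PT.cons (PT.snd.pair (PT.const true)) (PT.const []))

lemma pt_litMem {f : α → List (ℕ × Bool)} {g : α → ℕ} (hf : PT f) (hg : PT g) :
    PTp (fun x => litOf (g x) ∈ f x) := by
  have h := Lists.exMem (l := f) (P := fun x (a : ℕ × Bool) => a.1 = g x / 2 ∧
    ((a.2 = true ∧ g x % 2 = 1) ∨ (¬ a.2 = true ∧ ¬ g x % 2 = 1))) hf ?_
  · refine h.congr (fun x => ?_)
    unfold litOf
    constructor
    · rintro ⟨⟨i, b⟩, ha, h1, h2⟩
      simp only at h1 h2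
      have : (g x / 2, decide (g x % 2 = 1)) = (i, b) := by
        rw [Prod.mk.injEq]
        refine ⟨h1.symm, ?_⟩
        rcases h2 with ⟨h2, h3⟩ | ⟨h2, h3⟩
        · rw [h2]; simp [h3]
        · cases b
          · simp [h3]
          · exact absurd rfl h2
      rw [this]
      exact ha
    · intro h1
      refine ⟨_, h1, rfl, ?_⟩
      by_cases h2 : g x % 2 = 1
      · left; simp [h2]
      · right; simp [h2]
  · have hg' : PT (fun p : α × (ℕ × Bool) => g p.1) := hg.comp PT.fst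
    have ha1 : PT (fun p : α × (ℕ × Bool) => p.2.1) := PT.fst.comp PT.snd
    have ha2 : PTp (fun p : α × (ℕ × Bool) => p.2.2 = true) := PTp.ofBool (PT.snd.comp PT.snd)
    have hm : PTp (fun p : α × (ℕ × Bool) => g p.1 % 2 = 1) :=
      PTp.eq (hg'.mod (PT.const 2)) (PT.const 1)
    exact (PTp.eq ha1 (hg'.div (PT.const 2))).and ((ha2.and hm).or (ha2.not.and hm.not))

lemma pt_adj {f : α → CNF} {g h : α → ℕ} (hf : PT f) (hg : PT g) (hh : PT h) :
    PT (fun x => adjF (f x) (g x) (h x)) := by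
  have hL : PT (fun x => 2 * (f x).1) := (PT.const 2).mul (PT.fst.comp hf)
  have hk : PT (fun x => kap (f x)) := pt_kap.comp hf
  unfold adjF
  refine PT.ite (PTp.lt hg hL) (PT.ite (PTp.lt hh hL) ?_ ?_) (PT.ite (PTp.lt hh hL) ?_ ?_)
  · exact PTp.toPT ((PTp.eq (hg.div (PT.const 2)) (hh.div (PT.const 2))).and (PTp.eq hg hh).not)
  · exact PTp.toPT (pt_litMem (PT.getD hk ((hh.sub hL).div (PT.const 4)) (PT.const [])) hg)
  · exact PTp.toPT (pt_litMem (PT.getD hk ((hg.sub hL).div (PT.const 4)) (PT.const [])) hh)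
  · exact PTp.toPT ((PTp.eq ((hg.sub hL).div (PT.const 4)) ((hh.sub hL).div (PT.const 4))).and
      (PTp.eq hg hh).not)

lemma pt_toNat {f : α → Bool} (hf : PT f) : PT (fun x => (f x).toNat) := by
  refine (PT.ite (PTp.ofBool hf) (PT.const 1) (PT.const 0)).congr (fun x => ?_)
  cases f x <;> rfl

lemma pth_eq (adj : ℕ → ℕ → Bool) (u j : ℕ) : pth adj u j = if j = 0 then 6 * u + 4 else
    6 * ((j - 1) / 2) + 2 * ((j - 1) % 2) + (adj u ((j - 1) / 2)).toNat := by
  cases j with
  | zero => rfl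
  | succ j => simp [pth]

lemma pt_pth {f : α → CNF} {g h : α → ℕ} (hf : PT f) (hg : PT g) (hh : PT h) :
    PT (fun x => pth (adjF (f x)) (g x) (h x)) := by
  have hj : PT (fun x => h x - 1) := hh.sub (PT.const 1)
  have hj2 : PT (fun x => (h x - 1) / 2) := hj.div (PT.const 2)
  refine (PT.ite (PTp.eq hh (PT.const 0)) (((PT.const 6).mul hg).add (PT.const 4))
    ((((PT.const 6).mul hj2).add ((PT.const 2).mul (hj.mod (PT.const 2)))).add
      (pt_toNat (pt_adj hf hg hj2)))).congr (fun x => ?_)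
  rw [pth_eq]

lemma pt_triple {f g h : α → ℕ} (hf : PT f) (hg : PT g) (hh : PT h) :
    PT (fun x => [f x, g x, h x]) :=
  PT.cons hf (PT.cons hg (PT.cons hh (PT.const [])))

lemma pt_coreL : PT (fun φ : CNF => coreL (nF φ) (adjF φ)) := by
  unfold coreL
  have hu : PT (fun p : CNF × ℕ => 6 * p.2) := (PT.const 6).mul PT.snd
  refine Lists.flatMap (Lists.range pt_nF) (Lists.append ?_ (Lists.map
    (Lists.range ((PT.const 2).mul (pt_nF.comp PT.fst))) ?_))
  · exact PT.cons (pt_triple (hu.add (PT.const 1)) (hu.add (PT.const 3)) (hu.add (PT.const 4)))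
      (PT.cons (pt_triple (hu.add (PT.const 1)) (hu.add (PT.const 4)) (hu.add (PT.const 5)))
      (PT.cons (pt_triple (hu.add (PT.const 3)) (hu.add (PT.const 4)) (hu.add (PT.const 5)))
      (PT.const [])))
  · have hφ : PT (fun q : (CNF × ℕ) × ℕ => q.1.1) := PT.fst.comp PT.fst
    have hu : PT (fun q : (CNF × ℕ) × ℕ => q.1.2) := PT.snd.comp PT.fst
    exact pt_triple (((PT.const 6).mul hu).add (PT.const 5)) (pt_pth hφ hu PT.snd)
      (pt_pth hφ hu (PT.snd.add (PT.const 1)))

lemma pt_min {f g : α → ℕ} (hf : PT f) (hg : PT g) : PT (fun x => min (f x) (g x)) := by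
  refine (PT.ite (PTp.le hf hg) hf hg).congr (fun x => ?_)
  rfl

lemma pt_max {f g : α → ℕ} (hf : PT f) (hg : PT g) : PT (fun x => max (f x) (g x)) := by
  refine (PT.ite (PTp.le hf hg) hg hf).congr (fun x => ?_)
  rfl

lemma pt_mustL : PT (fun φ : CNF => mustL (nF φ) (adjF φ)) := by
  unfold mustL
  have hu : PT (fun p : CNF × ℕ => 6 * p.2) := (PT.const 6).mul PT.snd
  refine Lists.flatMap (Lists.range pt_nF) (Lists.append ?_ (Lists.map
    (Lists.range ((PT.const 2).mul (pt_nF.comp PT.fst))) ?_))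
  · exact PT.cons ((hu.add (PT.const 1)).pair (hu.add (PT.const 4)))
      (PT.cons ((hu.add (PT.const 3)).pair (hu.add (PT.const 4))) (PT.const []))
  · have hφ : PT (fun q : (CNF × ℕ) × ℕ => q.1.1) := PT.fst.comp PT.fst
    have hu : PT (fun q : (CNF × ℕ) × ℕ => q.1.2) := PT.snd.comp PT.fst
    have h1 := ((PT.const 6).mul hu).add (PT.const 5)
    have h2 := pt_pth hφ hu PT.snd
    exact (pt_min h1 h2).pair (pt_max h1 h2)

lemma pt_natpair {f g : α → ℕ} (hf : PT f) (hg : PT g) : PT (fun x => Nat.pair (f x) (g x)) := by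
  refine (PT.ite (PTp.lt hf hg) ((hg.mul hg).add hf) (((hf.mul hf).add hf).add hg)).congr
    (fun x => ?_)
  rfl

lemma pt_stripL {f : α → ℕ} {g : α → ℕ × ℕ} (hf : PT f) (hg : PT g) :
    PT (fun x => stripL (f x) (g x)) := by
  unfold stripL muV kaV
  have h1 := PT.fst.comp hg
  have h2 := PT.snd.comp hg
  have h3 : PT (fun x => f x + 2 * Nat.pair (g x).1 (g x).2) :=
    hf.add ((PT.const 2).mul (pt_natpair h1 h2))
  exact PT.cons (pt_triple h1 h2 h3)
    (PT.cons (pt_triple h1 h3 (h3.add (PT.const 1))) (PT.const []))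

lemma pt_triL : PT (fun φ : CNF => triL (nF φ) (adjF φ)) := by
  unfold triL
  have hn : PT (fun φ : CNF => 6 * nF φ) := (PT.const 6).mul pt_nF
  refine PT.cons (pt_triple hn (hn.add (PT.const 1)) (hn.add (PT.const 2)))
    (Lists.append pt_coreL (Lists.flatMap pt_mustL ?_))
  exact pt_stripL ((hn.add (PT.const 3)).comp PT.fst) PT.snd

lemma pt_Mtot : PT (fun φ : CNF => Mtot (nF φ)) := by
  unfold Mtot
  have hn : PT (fun φ : CNF => 6 * nF φ) := (PT.const 6).mul pt_nF
  exact (hn.add (PT.const 3)).add ((PT.const 2).mul (hn.mul hn))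

lemma pt_inTri {f : α → List (List ℕ)} {g : α → List ℕ} (hf : PT f) (hg : PT g) :
    PTp (fun x => inTri (f x) (g x)) := by
  unfold inTri
  refine Lists.exMem hf (Lists.allMem (hg.comp PT.fst) ?_)
  have h := Lists.exMem (l := fun p : (α × List ℕ) × ℕ => p.1.2)
    (P := fun p (a : ℕ) => a = p.2) (PT.snd.comp PT.fst) (PTp.eq PT.snd (PT.snd.comp PT.fst))
  refine h.congr (fun p => ?_)
  constructor
  · rintro ⟨a, ha, rfl⟩
    exact ha
  · intro ha
    exact ⟨_, ha, rfl⟩

lemma pt_cplx2 {f : α → ℕ} {g : α → List (List ℕ)} (hf : PT f) (hg : PT g) :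
    PT (fun x => cplx2 (f x) (g x)) := by
  unfold cplx2
  refine Lists.flatMap (Lists.range hf) (Lists.map (Lists.filter (Lists.range (hf.comp PT.fst)) ?_) ?_)
  · have hi : PT (fun q : (α × ℕ) × ℕ => q.1.2) := PT.snd.comp PT.fst
    have hL : PT (fun q : (α × ℕ) × ℕ => g q.1.1) := hg.comp (PT.fst.comp PT.fst)
    exact PTp.toPT ((PTp.lt hi PT.snd).and (pt_inTri hL
      (PT.cons hi (PT.cons PT.snd (PT.const [])))))
  · exact PT.cons (PT.snd.comp PT.fst) (PT.cons PT.snd (PT.const []))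

lemma pt_cplx3 {f : α → ℕ} {g : α → List (List ℕ)} (hf : PT f) (hg : PT g) :
    PT (fun x => cplx3 (f x) (g x)) := by
  unfold cplx3
  refine Lists.flatMap (Lists.range hf) (Lists.flatMap (Lists.range (hf.comp PT.fst))
    (Lists.map (Lists.filter (Lists.range (hf.comp (PT.fst.comp PT.fst))) ?_) ?_))
  · have hi : PT (fun q : ((α × ℕ) × ℕ) × ℕ => q.1.1.2) := PT.snd.comp (PT.fst.comp PT.fst)
    have hj : PT (fun q : ((α × ℕ) × ℕ) × ℕ => q.1.2) := PT.snd.comp PT.fst
    have hL : PT (fun q : ((α × ℕ) × ℕ) × ℕ => g q.1.1.1) :=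
      hg.comp (PT.fst.comp (PT.fst.comp PT.fst))
    exact PTp.toPT ((PTp.lt hi hj).and ((PTp.lt hj PT.snd).and (pt_inTri hL
      (pt_triple hi hj PT.snd))))
  · exact pt_triple (PT.snd.comp (PT.fst.comp PT.fst)) (PT.snd.comp PT.fst) PT.snd

theorem pt_preF : PT preF := by
  unfold preF cplx
  exact Lists.append (Lists.map (Lists.range pt_Mtot) (PT.cons PT.snd (PT.const [])))
    (Lists.append (pt_cplx2 pt_Mtot pt_triL) (pt_cplx3 pt_Mtot pt_triL))

/-! ### The postprocessing -/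

lemma pt_pow (b : ℤ) {f : α → ℕ} (hf : PT f) : PT (fun x => b ^ f x) := by
  refine (PT.intProd (F := fun _ _ => b) hf (PT.const b)).congr (fun x => ?_)
  simp

lemma pt_gEval {f : α → ℕ} {g : α → List ℕ} (hf : PT f) (hg : PT g) :
    PT (fun x => gEval (f x) (g x)) := by
  unfold gEval
  exact PT.ite (PTp.eq (PT.getD hg (PT.const 0) (PT.const 0)) hf)
    (pt_pow (-2) (PT.getD hg (PT.const 2) (PT.const 0))) (PT.const 0)

lemma sum_range_getD {β : Type} (l : List β) (d : β) (F : β → ℤ) :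
    ∑ i ∈ Finset.range l.length, F (l.getD i d) = (l.map F).sum := by
  induction l with
  | nil => simp
  | cons a l ih =>
    rw [List.length_cons, Finset.sum_range_succ', List.map_cons, List.sum_cons, ← ih, add_comm]
    rfl

lemma pt_ySum {f : α → ℕ} {g : α → List (List ℕ × BN)} (hf : PT f) (hg : PT g) :
    PT (fun x => ySum (f x) (g x)) := by
  have hget : PT (fun p : α × ℕ => (g p.1).getD p.2 ([], 0)) :=
    PT.getD (hg.comp PT.fst) PT.snd (PT.const ([], 0))
  refine (PT.intSum (n := fun x => (g x).length)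
    (F := fun x i => gEval (f x) ((g x).getD i ([], 0)).1 *
      ((((g x).getD i ([], 0)).2.val : ℕ) : ℤ)) (Lists.length hg) ?_).congr (fun x => ?_)
  · exact PT.intMul (pt_gEval (hf.comp PT.fst) (PT.fst.comp hget)) (PT.bnToInt (PT.snd.comp hget))
  · unfold ySum
    exact sum_range_getD (g x) ([], 0) (fun p => gEval (f x) p.1 * (p.2.val : ℤ))

lemma pt_two_pow {f : α → ℕ} (hf : PT f) : PT (fun x => (⟨2 ^ f x⟩ : BN)) := by
  refine (PT.natAbs (pt_pow 2 hf)).congr (fun x => ?_)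
  rw [Int.natAbs_pow]
  rfl

lemma pt_expF : PT expF := by
  unfold expF
  have h2 : PT (fun φ : CNF => 2 * nF φ) := (PT.const 2).mul pt_nF
  exact (((((PT.const 2).mul (pt_nF.mul ((PT.const 2).add h2))).add (PT.const 1)).add
    (pt_nF.mul h2)).add pt_nF).add ((PT.const 2).mul PT.fst)

theorem pt_postF : PT (fun x : CNF × List (List ℕ × BN) => (⟨postF x.1 x.2⟩ : BN)) := by
  unfold postF ntri
  have hφ : PT (fun x : CNF × List (List ℕ × BN) => x.1) := PT.fst
  have h1 := PT.natAbs (pt_ySum (pt_Mtot.comp hφ) (PT.snd (α := CNF)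
    (β := List (List ℕ × BN))))
  have h2 := PT.bnMul h1 (pt_two_pow (pt_expF.comp hφ))
  exact PT.bnShift h2 (Lists.length ((pt_cplx3 pt_Mtot pt_triL).comp hφ))

end Pool.Agent.H77.Morse
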