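import Pool.Agent.H77.Morse.Sat

set_option autoImplicit false

/-!
# The graph of a formula
-/

namespace Pool.Agent.H77.Morse

open Finset

/-- The literal with number `u`. -/
def litOf (u : ℕ) : ℕ × Bool := (u / 2, decide (u % 2 = 1))

/-- The clauses together with the tautological clauses. -/
def kap (φ : CNF) : List (List (ℕ × Bool)) :=
  φ.2 ++ (List.range φ.1).map (fun i => [(i, false), (i, true)])

/-- The conflict graph of a formula. -/
def adjF (φ : CNF) (u v : ℕ) : Bool :=
  if u < 2 * φ.1 then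
    if v < 2 * φ.1 then decide (u / 2 = v / 2 ∧ u ≠ v)
    else decide (litOf u ∈ (kap φ).getD ((v - 2 * φ.1) / 4) [])
  else
    if v < 2 * φ.1 then decide (litOf v ∈ (kap φ).getD ((u - 2 * φ.1) / 4) [])
    else decide ((u - 2 * φ.1) / 4 = (v - 2 * φ.1) / 4 ∧ u ≠ v)

/-- The number of vertices of the conflict graph. -/
def nF (φ : CNF) : ℕ := 2 * φ.1 + 4 * (φ.2.length + φ.1)

lemma adjF_irrefl (φ : CNF) (u : ℕ) : adjF φ u u = false := by
  unfold adjF
  split_ifs <;> simp

lemma adjF_symm (φ : CNF) (u v : ℕ) : adjF φ u v = adjF φ v u := by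
  unfold adjF
  split_ifs
  · rw [decide_eq_decide]; constructor <;> rintro ⟨h1, h2⟩ <;> exact ⟨h1.symm, h2.symm⟩
  · rfl
  · rfl
  · rw [decide_eq_decide]; constructor <;> rintro ⟨h1, h2⟩ <;> exact ⟨h1.symm, h2.symm⟩

lemma adjF_cl (φ : CNF) {u v : ℕ} (hu : 2 * φ.1 ≤ u) (hv : 2 * φ.1 ≤ v) :
    adjF φ u v = decide ((u - 2 * φ.1) / 4 = (v - 2 * φ.1) / 4 ∧ u ≠ v) := by
  unfold adjF
  rw [if_neg (by omega), if_neg (by omega)]

lemma adjF_lit_cl (φ : CNF) {u v : ℕ} (hu : u < 2 * φ.1) (hv : 2 * φ.1 ≤ v) :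
    adjF φ u v = decide (litOf u ∈ (kap φ).getD ((v - 2 * φ.1) / 4) []) := by
  unfold adjF
  rw [if_pos hu, if_neg (by omega)]

lemma adjF_lit (φ : CNF) {u v : ℕ} (hu : u < 2 * φ.1) (hv : v < 2 * φ.1) :
    adjF φ u v = decide (u / 2 = v / 2 ∧ u ≠ v) := by
  unfold adjF
  rw [if_pos hu, if_pos hv]

lemma fG_eq {adj : ℕ → ℕ → Bool} {L : ℕ} {G : Finset ℕ → Prop} {A : Finset ℕ} {P : Prop}
    [Decidable P] (h : (IndepS adj A ∧ G (A ∩ range L)) ↔ P) :
    fG adj L G A = if P then (-1 / 4) ^ A.card else 0 := by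
  unfold fG
  by_cases hP : P
  · rw [if_pos (h.2 hP), if_pos hP]
  · rw [if_neg (fun h' => hP (h.1 h')), if_neg hP]

lemma fG_congr {adj : ℕ → ℕ → Bool} {L : ℕ} {G G' : Finset ℕ → Prop} {A : Finset ℕ}
    (h : G (A ∩ range L) ↔ G' (A ∩ range L)) : fG adj L G A = fG adj L G' A := by
  classical
  rw [fG_eq (P := IndepS adj A ∧ G' (A ∩ range L)) (and_congr_right (fun _ => h)),
    fG_eq (P := IndepS adj A ∧ G' (A ∩ range L)) Iff.rfl]

/-- The sets of literals which correspond to satisfying assignments. -/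
def OKSet (φ : CNF) (A : Finset ℕ) : Prop :=
  IndepS (adjF φ) A ∧ ∀ C ∈ kap φ, ∃ u ∈ A, litOf u ∈ C

lemma sum_clauses (φ : CNF) : ∀ (k : ℕ) (G : Finset ℕ → Prop),
    ∑ A ∈ (range (2 * φ.1 + 4 * k)).powerset, fG (adjF φ) (2 * φ.1) G A =
      ∑ A ∈ (range (2 * φ.1)).powerset, fG (adjF φ) (2 * φ.1)
        (fun X => G X ∧ ∀ c, c < k → ∃ u ∈ X, adjF φ u (2 * φ.1 + 4 * c) = true) A := by
  intro k
  induction k with
  | zero =>
    intro G
    refine sum_congr rfl (fun A _ => fG_congr ?_)
    simp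
  | succ k ih =>
    intro G
    have e1 : 2 * φ.1 + 4 * (k + 1) = 2 * φ.1 + 4 * k + 4 := by ring
    rw [e1, sum_twins (adjF_irrefl φ) (adjF_symm φ) (by omega) G]
    · have e2 : ∀ B ∈ (range (2 * φ.1 + 4 * k)).powerset,
          fG (adjF φ) (2 * φ.1) (fun X => G X ∧ ∃ u ∈ B, adjF φ u (2 * φ.1 + 4 * k) = true) B =
          fG (adjF φ) (2 * φ.1) (fun X => G X ∧ ∃ u ∈ X, adjF φ u (2 * φ.1 + 4 * k) = true) B := by
        intro B hB
        rw [mem_powerset] at hB
        have h1 : (∃ u ∈ B, adjF φ u (2 * φ.1 + 4 * k) = true) ↔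
            (∃ u ∈ B ∩ range (2 * φ.1), adjF φ u (2 * φ.1 + 4 * k) = true) := by
          constructor
          · rintro ⟨u, hu, h⟩
            have hu' := mem_range.1 (hB hu)
            refine ⟨u, mem_inter.2 ⟨hu, mem_range.2 ?_⟩, h⟩
            by_contra hge
            rw [adjF_cl φ (by omega) (by omega), decide_eq_true_eq] at h
            omega
          · rintro ⟨u, hu, h⟩
            exact ⟨u, (mem_inter.1 hu).1, h⟩
        exact fG_congr (and_congr_right (fun _ => h1))
      rw [sum_congr rfl e2, ih]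
      refine sum_congr rfl (fun A _ => fG_congr ?_)
      have h3 : ∀ X : Finset ℕ, ((G X ∧ ∃ u ∈ X, adjF φ u (2 * φ.1 + 4 * k) = true) ∧
          ∀ c, c < k → ∃ u ∈ X, adjF φ u (2 * φ.1 + 4 * c) = true) ↔
          (G X ∧ ∀ c, c < k + 1 → ∃ u ∈ X, adjF φ u (2 * φ.1 + 4 * c) = true) := by
        intro X
        constructor
        · rintro ⟨⟨h1, h2⟩, h3⟩
          refine ⟨h1, fun c hc => ?_⟩
          rcases Nat.lt_succ_iff_lt_or_eq.1 hc with h | rfl
          · exact h3 c h
          · exact h2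
        · rintro ⟨h1, h2⟩
          exact ⟨⟨h1, h2 k (by omega)⟩, fun c hc => h2 c (by omega)⟩
      exact h3 _
    · intro u hu
      by_cases hlt : u < 2 * φ.1
      · rw [adjF_lit_cl φ hlt (by omega), adjF_lit_cl φ hlt (by omega),
          adjF_lit_cl φ hlt (by omega), adjF_lit_cl φ hlt (by omega)]
        have h0 : (2 * φ.1 + 4 * k - 2 * φ.1) / 4 = k := by omega
        have h1 : (2 * φ.1 + 4 * k + 1 - 2 * φ.1) / 4 = k := by omega
        have h2 : (2 * φ.1 + 4 * k + 2 - 2 * φ.1) / 4 = k := by omega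
        have h3 : (2 * φ.1 + 4 * k + 3 - 2 * φ.1) / 4 = k := by omega
        rw [h0, h1, h2, h3]
        exact ⟨rfl, rfl, rfl⟩
      · rw [adjF_cl φ (by omega) (by omega), adjF_cl φ (by omega) (by omega),
          adjF_cl φ (by omega) (by omega), adjF_cl φ (by omega) (by omega)]
        refine ⟨?_, ?_, ?_⟩ <;> rw [decide_eq_decide] <;> constructor <;> intro h <;> omega
    all_goals
      rw [adjF_cl φ (by omega) (by omega), decide_eq_true_eq]
      omega

lemma mem_kap (φ : CNF) {C : List (ℕ × Bool)} : C ∈ kap φ ↔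
    C ∈ φ.2 ∨ ∃ i, i < φ.1 ∧ C = [(i, false), (i, true)] := by
  unfold kap
  rw [List.mem_append, List.mem_map]
  simp only [List.mem_range]
  constructor
  · rintro (h | ⟨i, hi, h⟩)
    · exact Or.inl h
    · exact Or.inr ⟨i, hi, h.symm⟩
  · rintro (h | ⟨i, hi, h⟩)
    · exact Or.inl h
    · exact Or.inr ⟨i, hi, h.symm⟩

lemma length_kap (φ : CNF) : (kap φ).length = φ.2.length + φ.1 := by
  unfold kap
  simp

/-- The set of literals of an assignment. -/
def litSet (φ : CNF) (σ : Fin φ.1 → Bool) : Finset ℕ :=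
  univ.image (fun i : Fin φ.1 => 2 * (i : ℕ) + (σ i).toNat)

lemma mem_litSet {φ : CNF} {σ : Fin φ.1 → Bool} {u : ℕ} : u ∈ litSet φ σ ↔
    ∃ i : Fin φ.1, u = 2 * (i : ℕ) + (σ i).toNat := by
  unfold litSet
  rw [mem_image]
  simp only [mem_univ, true_and, eq_comm]

lemma litOf_enc (i : ℕ) (b : Bool) : litOf (2 * i + b.toNat) = (i, b) := by
  unfold litOf
  cases b
  · simp
  · simp
    omega

theorem indPoly_sat (φ : CNF) :
    indPoly (nF φ) (adjF φ) = (-1 / 4) ^ φ.1 * satCount φ := by
  classical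
  have e1 : indPoly (nF φ) (adjF φ) = ∑ A ∈ (range (nF φ)).powerset,
      fG (adjF φ) (2 * φ.1) (fun _ => True) A := by
    unfold indPoly fG
    simp
  rw [e1]
  unfold nF
  rw [sum_clauses]
  have key : ∀ A ⊆ range (2 * φ.1),
      ((IndepS (adjF φ) A ∧ True ∧ ∀ c, c < φ.2.length + φ.1 →
        ∃ u ∈ A ∩ range (2 * φ.1), adjF φ u (2 * φ.1 + 4 * c) = true) ↔
      OKSet φ A) := by
    intro A hA
    have h1 : A ∩ range (2 * φ.1) = A := inter_eq_left.2 hA
    unfold OKSet
    rw [h1, true_and]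
    refine and_congr_right (fun _ => ?_)
    have h2 : ∀ c, (2 * φ.1 + 4 * c - 2 * φ.1) / 4 = c := fun c => by omega
    constructor
    · intro h C hC
      obtain ⟨c, hc, rfl⟩ := List.getElem_of_mem hC
      obtain ⟨u, hu, h3⟩ := h c (by rw [← length_kap]; exact hc)
      rw [adjF_lit_cl φ (mem_range.1 (hA hu)) (by omega), decide_eq_true_eq, h2] at h3
      rw [List.getD_eq_getElem _ _ hc] at h3
      exact ⟨u, hu, h3⟩
    · intro h c hc
      rw [← length_kap] at hc
      obtain ⟨u, hu, h3⟩ := h _ (List.getElem_mem hc)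
      refine ⟨u, hu, ?_⟩
      rw [adjF_lit_cl φ (mem_range.1 (hA hu)) (by omega), decide_eq_true_eq, h2]
      rw [List.getD_eq_getElem _ _ hc]
      exact h3
  have e3 : ∑ A ∈ (range (2 * φ.1)).powerset, fG (adjF φ) (2 * φ.1)
        (fun X => True ∧ ∀ c, c < φ.2.length + φ.1 →
          ∃ u ∈ X, adjF φ u (2 * φ.1 + 4 * c) = true) A =
      ∑ A ∈ (range (2 * φ.1)).powerset.filter (OKSet φ), (-1 / 4 : ℚ) ^ A.card := by
    rw [sum_filter]
    exact sum_congr rfl (fun A hA => fG_eq (key A (mem_powerset.1 hA)))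
  rw [e3]
  have hlt : ∀ (i : Fin φ.1) (b : Bool), 2 * (i : ℕ) + b.toNat < 2 * φ.1 := by
    intro i b
    have := toNat_le b
    have := i.2
    omega
  have e2 : ∑ A ∈ (range (2 * φ.1)).powerset.filter (OKSet φ), (-1 / 4 : ℚ) ^ A.card =
      ∑ σ ∈ univ.filter (fun σ : Fin φ.1 → Bool => Sat φ σ), (-1 / 4 : ℚ) ^ φ.1 := by
    refine sum_nbij' (fun A => (fun i : Fin φ.1 => decide (2 * (i : ℕ) + 1 ∈ A)))
      (litSet φ) ?_ ?_ ?_ ?_ ?_
    · intro A hA
      rw [mem_filter, mem_powerset] at hA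
      obtain ⟨h1, h2⟩ := hA
      obtain ⟨h3, h4⟩ := h2
      rw [mem_filter]
      refine ⟨mem_univ _, ?_⟩
      intro C hC
      obtain ⟨u, hu, h5⟩ := h4 C ((mem_kap φ).2 (Or.inl hC))
      have hu' := mem_range.1 (h1 hu)
      refine ⟨⟨u / 2, by omega⟩, ?_⟩
      have h6 : decide (2 * (u / 2) + 1 ∈ A) = decide (u % 2 = 1) := by
        rw [decide_eq_decide]
        constructor
        · intro h7
          by_contra h8
          have h9 := h3 u hu _ h7
          rw [adjF_lit φ hu' (by omega), decide_eq_false_iff_not] at h9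
          omega
        · intro h7
          have : 2 * (u / 2) + 1 = u := by omega
          rw [this]; exact hu
      simp only [h6]
      exact h5
    · intro σ hσ
      rw [mem_filter] at hσ
      rw [mem_filter, mem_powerset]
      have hsub : litSet φ σ ⊆ range (2 * φ.1) := by
        intro u hu
        rw [mem_litSet] at hu
        obtain ⟨i, rfl⟩ := hu
        exact mem_range.2 (hlt i _)
      refine ⟨hsub, ?_, ?_⟩
      · intro u hu v hv
        rw [mem_litSet] at hu hv
        obtain ⟨i, rfl⟩ := hu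
        obtain ⟨j, rfl⟩ := hv
        rw [adjF_lit φ (hlt i _) (hlt j _), decide_eq_false_iff_not]
        rintro ⟨h1, h2⟩
        have hi := toNat_le (σ i)
        have hj := toNat_le (σ j)
        have : i = j := Fin.ext (by omega)
        subst this
        exact h2 rfl
      · intro C hC
        rw [mem_kap] at hC
        rcases hC with hC | ⟨i, hi, rfl⟩
        · obtain ⟨i, hi⟩ := hσ.2 C hC
          exact ⟨_, mem_litSet.2 ⟨i, rfl⟩, by rw [litOf_enc]; exact hi⟩
        · refine ⟨_, mem_litSet.2 ⟨⟨i, hi⟩, rfl⟩, ?_⟩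
          rw [litOf_enc]
          cases σ ⟨i, hi⟩ <;> simp
    · intro A hA
      rw [mem_filter, mem_powerset] at hA
      obtain ⟨h1, h2⟩ := hA
      obtain ⟨h3, h4⟩ := h2
      have ex : ∀ i, i < φ.1 → 2 * i ∈ A ∨ 2 * i + 1 ∈ A := by
        intro i hi
        obtain ⟨u, hu, h5⟩ := h4 _ ((mem_kap φ).2 (Or.inr ⟨i, hi, rfl⟩))
        simp only [litOf, List.mem_cons, Prod.mk.injEq, List.not_mem_nil, or_false] at h5
        have h6 : u / 2 = i := by
          rcases h5 with h5 | h5 <;> exact h5.1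
        have h7 : u = 2 * i ∨ u = 2 * i + 1 := by omega
        rcases h7 with rfl | rfl
        · left; exact hu
        · right; exact hu
      ext u
      rw [mem_litSet]
      constructor
      · rintro ⟨i, rfl⟩
        by_cases h5 : 2 * (i : ℕ) + 1 ∈ A
        · simp only [h5, decide_true, Bool.toNat_true]
        · simp only [h5, decide_false, Bool.toNat_false, add_zero]
          rcases ex i i.2 with h | h
          · exact h
          · exact absurd h h5
      · intro hu
        have hu' := mem_range.1 (h1 hu)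
        refine ⟨⟨u / 2, by omega⟩, ?_⟩
        by_cases h5 : 2 * (u / 2) + 1 ∈ A
        · simp only [h5, decide_true, Bool.toNat_true]
          by_contra h6
          have h9 := h3 u hu _ h5
          rw [adjF_lit φ hu' (by omega), decide_eq_false_iff_not] at h9
          omega
        · simp only [h5, decide_false, Bool.toNat_false, add_zero]
          by_contra h6
          have : 2 * (u / 2) + 1 = u := by omega
          rw [this] at h5
          exact h5 hu
    · intro σ _
      funext i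
      rw [Bool.eq_iff_iff, decide_eq_true_eq, mem_litSet]
      constructor
      · rintro ⟨j, hj⟩
        have := toNat_le (σ j)
        have hij : i = j := Fin.ext (by omega)
        subst hij
        cases h : σ i
        · rw [h] at hj; simp at hj
        · rfl
      · intro h
        exact ⟨i, by rw [h]; rfl⟩
    · intro A hA
      rw [mem_filter, mem_powerset] at hA
      obtain ⟨h1, h2⟩ := hA
      obtain ⟨h3, h4⟩ := h2
      congr 1
      have h5 : A.card = (range φ.1).card := by
        refine card_nbij (fun u => u / 2) ?_ ?_ ?_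
        · intro u hu
          have := mem_range.1 (h1 hu)
          rw [mem_coe, mem_range]
          show u / 2 < φ.1
          omega
        · intro u hu v hv huv
          by_contra hne
          have h9 := h3 u hu v hv
          rw [adjF_lit φ (mem_range.1 (h1 hu)) (mem_range.1 (h1 hv)),
            decide_eq_false_iff_not] at h9
          exact h9 ⟨huv, hne⟩
        · intro i hi
          rw [mem_coe, mem_range] at hi
          obtain ⟨u, hu, h5⟩ := h4 _ ((mem_kap φ).2 (Or.inr ⟨i, hi, rfl⟩))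
          simp only [litOf, List.mem_cons, Prod.mk.injEq, List.not_mem_nil, or_false] at h5
          refine ⟨u, hu, ?_⟩
          rcases h5 with h5 | h5 <;> exact h5.1
      rw [h5, card_range]
  rw [e2, sum_const, nsmul_eq_mul, mul_comm]
  rfl

end Pool.Agent.H77.Morse
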