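import Pool.Agent.H77.Morse.Strip

set_option autoImplicit false

/-!
# Attaching many strips
-/

namespace Pool.Agent.H77.Morse

open Finset

/-- The two triangles of the strip attached along the edge `{e.1, e.2}`. -/
def strip (μ κ : ℕ × ℕ → ℕ) (e : ℕ × ℕ) : Finset (Finset ℕ) :=
  {{e.1, e.2, μ e}, {e.1, μ e, κ e}}

theorem W_strips (μ κ : ℕ × ℕ → ℕ) (N : ℕ) (hμN : ∀ e, N ≤ μ e) (hκN : ∀ e, N ≤ κ e)
    (hμ : Function.Injective μ) (hκ : Function.Injective κ) (hμκ : ∀ e e', μ e ≠ κ e')
    (T : Finset (Finset ℕ)) (hT : ∀ t ∈ T, ∀ v ∈ t, v < N)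
    (Q : Finset (ℕ × ℕ)) (hQ : ∀ e ∈ Q, e.1 < e.2 ∧ e.2 < N) :
    ∀ S : Finset (Finset ℕ), (∀ s ∈ S, ∀ v ∈ s, v < N) →
      (∀ e ∈ Q, ({e.1, e.2} : Finset ℕ) ∉ S) →
      W (T ∪ Q.biUnion (strip μ κ)) ∅ S =
        (-1 / 4) ^ Q.card * W T ∅ (S ∪ Q.image (fun e => {e.1, e.2})) := by
  classical
  induction Q using Finset.induction_on with
  | empty =>
    intro S _ _
    simp
  | insert e Q heQ ih =>
    intro S hS hQS
    obtain ⟨h12, h2N⟩ := hQ e (mem_insert_self _ _)
    have hQ' : ∀ e ∈ Q, e.1 < e.2 ∧ e.2 < N := fun e he => hQ e (mem_insert_of_mem he)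
    have hμe := hμN e
    have hκe := hκN e
    have hμκe := hμκ e e
    have e1 : T ∪ (insert e Q).biUnion (strip μ κ) =
        insert {e.1, μ e, κ e} (insert {e.1, e.2, μ e} (T ∪ Q.biUnion (strip μ κ))) := by
      rw [biUnion_insert]
      ext t
      simp only [strip, mem_union, mem_insert, mem_singleton]
      tauto
    have hfresh : ∀ v, N ≤ v → (∀ e' ∈ Q, v ≠ μ e' ∧ v ≠ κ e') →
        ∀ t ∈ T ∪ Q.biUnion (strip μ κ), v ∉ t := by
      intro v hv hne t ht hvt
      rw [mem_union, mem_biUnion] at ht
      rcases ht with ht | ⟨e', he', ht⟩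
      · have := hT t ht v hvt
        omega
      · obtain ⟨h3, h4⟩ := hQ' e' he'
        obtain ⟨h5, h6⟩ := hne e' he'
        simp only [strip, mem_insert, mem_singleton] at ht
        rcases ht with rfl | rfl
        · simp only [mem_insert, mem_singleton] at hvt
          omega
        · simp only [mem_insert, mem_singleton] at hvt
          omega
    rw [e1, W_strip (by omega) (by omega) (by omega) (by omega) (by omega) hμκe]
    · rw [ih hQ', card_insert_of_notMem heQ, pow_succ, image_insert]
      · have e2 : insert {e.1, e.2} S ∪ Q.image (fun e => ({e.1, e.2} : Finset ℕ)) =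
            S ∪ insert {e.1, e.2} (Q.image (fun e => ({e.1, e.2} : Finset ℕ))) := by
          ext s
          simp only [mem_union, mem_insert]
          tauto
        rw [e2]
        ring
      · intro s hs v hv
        rw [mem_insert] at hs
        rcases hs with rfl | hs
        · simp only [mem_insert, mem_singleton] at hv
          omega
        · exact hS s hs v hv
      · intro e' he'
        rw [mem_insert, not_or]
        refine ⟨?_, hQS e' (mem_insert_of_mem he')⟩
        obtain ⟨h3, h4⟩ := hQ' e' he'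
        intro heq
        apply heQ
        have ha : e.1 ∈ ({e'.1, e'.2} : Finset ℕ) := heq ▸ mem_insert_self _ _
        have hb : e.2 ∈ ({e'.1, e'.2} : Finset ℕ) :=
          heq ▸ mem_insert_of_mem (mem_singleton_self _)
        simp only [mem_insert, mem_singleton] at ha hb
        have : e = e' := Prod.ext (by omega) (by omega)
        rw [this]
        exact he'
    · refine hfresh _ hμe (fun e' he' => ⟨fun h => heQ ?_, hμκ e e'⟩)
      rw [hμ h]
      exact he'
    · refine hfresh _ hκe (fun e' he' => ⟨fun h => hμκ e' e h.symm, fun h => heQ ?_⟩)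
      rw [hκ h]
      exact he'
    · intro s hs h
      have := hS s hs _ h
      omega
    · intro s hs h
      have := hS s hs _ h
      omega
    · exact hQS e (mem_insert_self _ _)

end Pool.Agent.H77.Morse
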