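import Pool.Agent.H77.Morse.CoreSum
import Pool.Agent.H77.Morse.Strips

set_option autoImplicit false

/-!
# The full complex: core and strips
-/

namespace Pool.Agent.H77.Morse

open Finset

/-- The first new vertex of the strip attached along `e`. -/
def muV (N : ℕ) (e : ℕ × ℕ) : ℕ := N + 2 * Nat.pair e.1 e.2

/-- The second new vertex of the strip attached along `e`. -/
def kaV (N : ℕ) (e : ℕ × ℕ) : ℕ := N + 2 * Nat.pair e.1 e.2 + 1

/-- The sorted pairs of the edges which must be matched. -/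
def Qc (n : ℕ) (adj : ℕ → ℕ → Bool) : Finset (ℕ × ℕ) :=
  (range n).biUnion (fun u => {(6 * u + 1, 6 * u + 4), (6 * u + 3, 6 * u + 4)} ∪
    (range (2 * n)).image (fun j =>
      (min (6 * u + 5) (pth adj u j), max (6 * u + 5) (pth adj u j))))

/-- All triangles: the core, one isolated triangle (so that there is at least one triangle) and
the strips. -/
def Tall (n : ℕ) (adj : ℕ → ℕ → Bool) : Finset (Finset ℕ) :=
  insert {6 * n, 6 * n + 1, 6 * n + 2} (Tc n adj) ∪
    (Qc n adj).biUnion (strip (muV (6 * n + 3)) (kaV (6 * n + 3)))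

variable {n : ℕ} {adj : ℕ → ℕ → Bool}

lemma mem_Qc {e : ℕ × ℕ} : e ∈ Qc n adj ↔ ∃ u, u < n ∧ (e = (6 * u + 1, 6 * u + 4) ∨
    e = (6 * u + 3, 6 * u + 4) ∨ ∃ j, j < 2 * n ∧
      e = (min (6 * u + 5) (pth adj u j), max (6 * u + 5) (pth adj u j))) := by
  unfold Qc
  simp only [mem_biUnion, mem_range, mem_union, mem_insert, mem_singleton, mem_image]
  constructor
  · rintro ⟨u, hu, (h | h) | ⟨j, hj, h⟩⟩
    · exact ⟨u, hu, Or.inl h⟩
    · exact ⟨u, hu, Or.inr (Or.inl h)⟩
    · exact ⟨u, hu, Or.inr (Or.inr ⟨j, hj, h.symm⟩)⟩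
  · rintro ⟨u, hu, h | h | ⟨j, hj, h⟩⟩
    · exact ⟨u, hu, Or.inl (Or.inl h)⟩
    · exact ⟨u, hu, Or.inl (Or.inr h)⟩
    · exact ⟨u, hu, Or.inr ⟨j, hj, h.symm⟩⟩

lemma pth_lt {u j : ℕ} (hu : u < n) (hj : j ≤ 2 * n) : pth adj u j < 6 * n := by
  cases j with
  | zero => rw [pth_zero]; omega
  | succ j =>
    rw [pth_succ]
    have := toNat_le (adj u (j / 2))
    omega

lemma min_max_pair (a b : ℕ) : ({min a b, max a b} : Finset ℕ) = {a, b} := by
  rw [pair_eq]
  omega

lemma image_Qc : (Qc n adj).image (fun e => ({e.1, e.2} : Finset ℕ)) = Yc n adj := by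
  ext s
  rw [mem_image, mem_Yc]
  constructor
  · rintro ⟨e, he, rfl⟩
    rw [mem_Qc] at he
    obtain ⟨u, hu, rfl | rfl | ⟨j, hj, rfl⟩⟩ := he
    · exact ⟨u, hu, Or.inl rfl⟩
    · exact ⟨u, hu, Or.inr (Or.inl rfl)⟩
    · exact ⟨u, hu, Or.inr (Or.inr ⟨j, hj, min_max_pair _ _⟩)⟩
  · rintro ⟨u, hu, rfl | rfl | ⟨j, hj, rfl⟩⟩
    · exact ⟨_, mem_Qc.2 ⟨u, hu, Or.inl rfl⟩, rfl⟩
    · exact ⟨_, mem_Qc.2 ⟨u, hu, Or.inr (Or.inl rfl)⟩, rfl⟩
    · exact ⟨_, mem_Qc.2 ⟨u, hu, Or.inr (Or.inr ⟨j, hj, rfl⟩)⟩, min_max_pair _ _⟩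

lemma card_Qc : (Qc n adj).card = n * (2 + 2 * n) := by
  unfold Qc
  rw [card_biUnion]
  · rw [sum_const_nat (m := 2 + 2 * n), card_range]
    intro u hu
    rw [card_union_of_disjoint, card_pair, card_image_of_injOn, card_range]
    · intro j hj k hk h
      simp only [Prod.mk.injEq] at h
      have h1 : pth adj u j = pth adj u k := by omega
      exact pth_inj h1
    · intro h
      rw [Prod.mk.injEq] at h
      omega
    · rw [disjoint_left]
      intro e he h
      rw [mem_image] at h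
      obtain ⟨j, _, rfl⟩ := h
      simp only [mem_insert, mem_singleton, Prod.mk.injEq] at he
      omega
  · intro u hu v hv huv
    rw [Function.onFun, disjoint_left]
    intro e h1 h2
    simp only [mem_union, mem_insert, mem_singleton, mem_image] at h1 h2
    apply huv
    rcases h1 with (rfl | rfl) | ⟨j, _, rfl⟩ <;> rcases h2 with (h2 | h2) | ⟨k, _, h2⟩ <;>
      rw [Prod.mk.injEq] at h2
    · omega
    · omega
    · omega
    · omega
    · omega
    · omega
    · omega
    · omega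
    · have h3 := pth_ne_q (adj := adj) (u := u) (j := j) (v := v)
      have h4 := pth_ne_q (adj := adj) (u := v) (j := k) (v := u)
      omega

lemma Tc_lt {t : Finset ℕ} (ht : t ∈ Tc n adj) {v : ℕ} (hv : v ∈ t) : v < 6 * n := by
  rw [mem_Tc] at ht
  obtain ⟨u, hu, rfl | rfl | rfl | ⟨j, hj, rfl⟩⟩ := ht
  · unfold hT at hv; simp only [mem_insert, mem_singleton] at hv; omega
  · unfold aT at hv; simp only [mem_insert, mem_singleton] at hv; omega
  · unfold bT at hv; simp only [mem_insert, mem_singleton] at hv; omega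
  · unfold fT at hv
    simp only [mem_insert, mem_singleton] at hv
    have h1 := pth_lt (adj := adj) hu (show j ≤ 2 * n by omega)
    have h2 := pth_lt (adj := adj) hu (show j + 1 ≤ 2 * n by omega)
    omega

lemma Qc_lt {e : ℕ × ℕ} (he : e ∈ Qc n adj) : e.1 < e.2 ∧ e.2 < 6 * n := by
  rw [mem_Qc] at he
  obtain ⟨u, hu, rfl | rfl | ⟨j, hj, rfl⟩⟩ := he
  · simp only; omega
  · simp only; omega
  · have h1 := pth_lt (adj := adj) hu (show j ≤ 2 * n by omega)
    have h2 := pth_ne_q (adj := adj) (u := u) (j := j) (v := u)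
    simp only
    omega

open Classical in
lemma W_isolated {T S : Finset (Finset ℕ)} {a b c : ℕ} (hab : a ≠ b) (hac : a ≠ c) (hbc : b ≠ c)
    (ha : ∀ t ∈ T, a ∉ t) (hb : ∀ t ∈ T, b ∉ t) (haS : ∀ s ∈ S, a ∉ s) (hbS : ∀ s ∈ S, b ∉ s) :
    W (insert {a, b, c} T) ∅ S = (-1 / 2) * W T ∅ S := by
  have ht : ({a, b, c} : Finset ℕ) ∉ T := fun h => ha _ h (by simp)
  have e1 : W (insert {a, b, c} T) ∅ S = ∑ M ∈ AM (insert {a, b, c} T) ∅, wt S M := rfl
  rw [e1, sum_AM_insert ht, facets_triple hab hac hbc, filter_true_of_mem (by simp), sum_insert,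
    sum_insert, sum_singleton]
  · rw [inner_free ht (not_cov_of_fresh ha (by simp)) (fun h => haS _ h (by simp)),
      inner_free ht (not_cov_of_fresh ha (by simp)) (fun h => haS _ h (by simp)),
      inner_free ht (not_cov_of_fresh hb (by simp)) (fun h => hbS _ h (by simp))]
    have : ∑ M ∈ AM T ∅, wt S M = W T ∅ S := rfl
    rw [this]
    ring
  · rw [mem_singleton]
    exact pair_ne (Or.inl ⟨hab, hac⟩)
  · rw [mem_insert, mem_singleton, not_or]
    exact ⟨pair_ne (Or.inr ⟨hab.symm, hbc⟩), pair_ne (Or.inl ⟨hab, hac⟩)⟩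

theorem W_total (hi : ∀ u, adj u u = false) (hs : ∀ u v, adj u v = adj v u) :
    W (Tall n adj) ∅ ∅ = (-1 / 4) ^ (n * (2 + 2 * n)) * ((-1 / 2) *
      ((-1 / 2) ^ (n * (2 * n)) * (1 / 2) ^ n * indPoly n adj)) := by
  have hYlt : ∀ s ∈ Yc n adj, ∀ v ∈ s, v < 6 * n := by
    intro s hs' v hv
    rw [← image_Qc, mem_image] at hs'
    obtain ⟨e, he, rfl⟩ := hs'
    have := Qc_lt he
    simp only [mem_insert, mem_singleton] at hv
    omega
  unfold Tall
  rw [W_strips (muV (6 * n + 3)) (kaV (6 * n + 3)) (6 * n + 3)]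
  · rw [card_Qc, empty_union, image_Qc, W_isolated, W_core hi hs]
    · omega
    · omega
    · omega
    · exact fun t ht h => absurd (Tc_lt ht h) (by omega)
    · exact fun t ht h => absurd (Tc_lt ht h) (by omega)
    · exact fun t ht h => absurd (hYlt t ht _ h) (by omega)
    · exact fun t ht h => absurd (hYlt t ht _ h) (by omega)
  · intro e; unfold muV; omega
  · intro e; unfold kaV; omega
  · intro e e' h
    unfold muV at h
    have h1 : Nat.pair e.1 e.2 = Nat.pair e'.1 e'.2 := by omega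
    have h2 := Nat.pair_eq_pair.1 h1
    exact Prod.ext h2.1 h2.2
  · intro e e' h
    unfold kaV at h
    have h1 : Nat.pair e.1 e.2 = Nat.pair e'.1 e'.2 := by omega
    have h2 := Nat.pair_eq_pair.1 h1
    exact Prod.ext h2.1 h2.2
  · intro e e' h
    unfold muV kaV at h
    omega
  · intro t ht v hv
    rw [mem_insert] at ht
    rcases ht with rfl | ht
    · simp only [mem_insert, mem_singleton] at hv
      omega
    · have := Tc_lt ht hv
      omega
  · intro e he
    have := Qc_lt he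
    omega
  · intro s hs
    exact absurd hs (notMem_empty _)
  · intro e _
    exact notMem_empty _

end Pool.Agent.H77.Morse
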