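import Pool.Agent.H77.Morse.CplxSet
import Pool.Agent.H77.Morse.Total
import Pool.Agent.H77.Morse.Eval
import Pool.Agent.H77.Morse.Sat2

set_option autoImplicit false

/-!
# The reduction and its correctness
-/

namespace Pool.Agent.H77.Morse

open Finset Pool.Agent.H99.BinDet

/-- The list of the triangles of the core. -/
def coreL (n : ℕ) (adj : ℕ → ℕ → Bool) : List (List ℕ) :=
  (List.range n).flatMap (fun u =>
    [[6 * u + 1, 6 * u + 3, 6 * u + 4], [6 * u + 1, 6 * u + 4, 6 * u + 5],
      [6 * u + 3, 6 * u + 4, 6 * u + 5]] ++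
    (List.range (2 * n)).map (fun j => [6 * u + 5, pth adj u j, pth adj u (j + 1)]))

/-- The list of the edges which must be matched. -/
def mustL (n : ℕ) (adj : ℕ → ℕ → Bool) : List (ℕ × ℕ) :=
  (List.range n).flatMap (fun u => [(6 * u + 1, 6 * u + 4), (6 * u + 3, 6 * u + 4)] ++
    (List.range (2 * n)).map (fun j =>
      (min (6 * u + 5) (pth adj u j), max (6 * u + 5) (pth adj u j))))

/-- The triangles of a strip. -/
def stripL (N : ℕ) (e : ℕ × ℕ) : List (List ℕ) :=
  [[e.1, e.2, muV N e], [e.1, muV N e, kaV N e]]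

/-- The list of all triangles. -/
def triL (n : ℕ) (adj : ℕ → ℕ → Bool) : List (List ℕ) :=
  [6 * n, 6 * n + 1, 6 * n + 2] :: (coreL n adj ++ (mustL n adj).flatMap (stripL (6 * n + 3)))

/-- The number of vertices. -/
def Mtot (n : ℕ) : ℕ := 6 * n + 3 + 2 * ((6 * n) * (6 * n))

variable {n : ℕ} {adj : ℕ → ℕ → Bool}

lemma mem_mustL {e : ℕ × ℕ} : e ∈ mustL n adj ↔ e ∈ Qc n adj := by
  unfold mustL Qc
  simp only [List.mem_flatMap, List.mem_range, List.mem_append, List.mem_cons, List.not_mem_nil,
    or_false, List.mem_map, mem_biUnion, mem_range, mem_union, mem_insert, mem_singleton, mem_image]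

lemma mem_coreL {t : Finset ℕ} : (∃ l ∈ coreL n adj, l.toFinset = t) ↔ t ∈ Tc n adj := by
  rw [mem_Tc]
  unfold coreL
  simp only [List.mem_flatMap, List.mem_range, List.mem_append, List.mem_cons, List.not_mem_nil,
    or_false, List.mem_map]
  constructor
  · rintro ⟨l, ⟨u, hu, (rfl | rfl | rfl) | ⟨j, hj, rfl⟩⟩, rfl⟩
    · exact ⟨u, hu, Or.inl (by unfold hT; simp)⟩
    · exact ⟨u, hu, Or.inr (Or.inl (by unfold aT; simp))⟩
    · exact ⟨u, hu, Or.inr (Or.inr (Or.inl (by unfold bT; simp)))⟩
    · exact ⟨u, hu, Or.inr (Or.inr (Or.inr ⟨j, hj, by unfold fT; simp⟩))⟩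
  · rintro ⟨u, hu, rfl | rfl | rfl | ⟨j, hj, rfl⟩⟩
    · exact ⟨_, ⟨u, hu, Or.inl (Or.inl rfl)⟩, by unfold hT; simp⟩
    · exact ⟨_, ⟨u, hu, Or.inl (Or.inr (Or.inl rfl))⟩, by unfold aT; simp⟩
    · exact ⟨_, ⟨u, hu, Or.inl (Or.inr (Or.inr rfl))⟩, by unfold bT; simp⟩
    · exact ⟨_, ⟨u, hu, Or.inr ⟨j, hj, rfl⟩⟩, by unfold fT; simp⟩

lemma triL_toFinset : ((triL n adj).map List.toFinset).toFinset = Tall n adj := by
  ext t
  rw [List.mem_toFinset, List.mem_map]
  unfold triL Tall
  rw [mem_union, mem_insert, mem_biUnion]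
  constructor
  · rintro ⟨l, hl, rfl⟩
    rw [List.mem_cons, List.mem_append, List.mem_flatMap] at hl
    rcases hl with rfl | hl | ⟨e, he, hl⟩
    · left; left; simp
    · left; right; exact mem_coreL.1 ⟨l, hl, rfl⟩
    · right
      refine ⟨e, mem_mustL.1 he, ?_⟩
      unfold stripL at hl
      unfold strip
      simp only [List.mem_cons, List.not_mem_nil, or_false] at hl
      rcases hl with rfl | rfl <;> simp
  · rintro ((rfl | h) | ⟨e, he, h⟩)
    · exact ⟨[6 * n, 6 * n + 1, 6 * n + 2], by simp, by simp⟩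
    · obtain ⟨l, hl, rfl⟩ := mem_coreL.2 h
      exact ⟨l, by simp [hl], rfl⟩
    · unfold strip at h
      simp only [mem_insert, mem_singleton] at h
      rcases h with rfl | rfl
      · refine ⟨[e.1, e.2, muV (6 * n + 3) e], ?_, by simp⟩
        rw [List.mem_cons, List.mem_append, List.mem_flatMap]
        exact Or.inr (Or.inr ⟨e, mem_mustL.2 he, by unfold stripL; simp⟩)
      · refine ⟨[e.1, muV (6 * n + 3) e, kaV (6 * n + 3) e], ?_, by simp⟩
        rw [List.mem_cons, List.mem_append, List.mem_flatMap]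
        exact Or.inr (Or.inr ⟨e, mem_mustL.2 he, by unfold stripL; simp⟩)

lemma card_three {a b c : ℕ} (hab : a ≠ b) (hac : a ≠ c) (hbc : b ≠ c) :
    ([a, b, c] : List ℕ).toFinset.card = 3 := by
  rw [List.toFinset_card_of_nodup]
  · rfl
  · simp [hab, hac, hbc]

lemma kaV_lt {e : ℕ × ℕ} (he : e ∈ Qc n adj) : kaV (6 * n + 3) e < Mtot n := by
  obtain ⟨h1, h2⟩ := Qc_lt he
  have h3 := Nat.pair_lt_max_add_one_sq e.1 e.2
  have h4 : max e.1 e.2 + 1 ≤ 6 * n := by omega
  have h5 : (max e.1 e.2 + 1) ^ 2 ≤ (6 * n) * (6 * n) := by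
    rw [pow_two]
    exact Nat.mul_le_mul h4 h4
  unfold kaV Mtot
  omega

lemma triL_spec : ∀ t ∈ triL n adj, t.toFinset.card = 3 ∧ ∀ v ∈ t, v < Mtot n := by
  intro t ht
  have hM : 6 * n + 3 ≤ Mtot n := by unfold Mtot; omega
  unfold triL at ht
  rw [List.mem_cons, List.mem_append, List.mem_flatMap] at ht
  rcases ht with rfl | ht | ⟨e, he, ht⟩
  · refine ⟨card_three (by omega) (by omega) (by omega), ?_⟩
    intro v hv
    simp only [List.mem_cons, List.not_mem_nil, or_false] at hv
    omega
  · unfold coreL at ht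
    simp only [List.mem_flatMap, List.mem_range, List.mem_append, List.mem_cons, List.not_mem_nil,
      or_false, List.mem_map] at ht
    obtain ⟨u, hu, (rfl | rfl | rfl) | ⟨j, hj, rfl⟩⟩ := ht
    · refine ⟨card_three (by omega) (by omega) (by omega), ?_⟩
      intro v hv
      simp only [List.mem_cons, List.not_mem_nil, or_false] at hv
      omega
    · refine ⟨card_three (by omega) (by omega) (by omega), ?_⟩
      intro v hv
      simp only [List.mem_cons, List.not_mem_nil, or_false] at hv
      omega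
    · refine ⟨card_three (by omega) (by omega) (by omega), ?_⟩
      intro v hv
      simp only [List.mem_cons, List.not_mem_nil, or_false] at hv
      omega
    · have h1 := pth_lt (adj := adj) hu (show j ≤ 2 * n by omega)
      have h2 := pth_lt (adj := adj) hu (show j + 1 ≤ 2 * n by omega)
      refine ⟨card_three pth_ne_q.symm pth_ne_q.symm
        (fun h => by have := pth_inj h; omega), ?_⟩
      intro v hv
      simp only [List.mem_cons, List.not_mem_nil, or_false] at hv
      omega
  · rw [mem_mustL] at he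
    obtain ⟨h1, h2⟩ := Qc_lt he
    have h3 := kaV_lt he
    have h4 : kaV (6 * n + 3) e = muV (6 * n + 3) e + 1 := rfl
    have h5 : 6 * n + 3 ≤ muV (6 * n + 3) e := by unfold muV; omega
    unfold stripL at ht
    simp only [List.mem_cons, List.not_mem_nil, or_false] at ht
    rcases ht with rfl | rfl
    · refine ⟨card_three (by omega) (by omega) (by omega), ?_⟩
      intro v hv
      simp only [List.mem_cons, List.not_mem_nil, or_false] at hv
      omega
    · refine ⟨card_three (by omega) (by omega) (by omega), ?_⟩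
      intro v hv
      simp only [List.mem_cons, List.not_mem_nil, or_false] at hv
      omega

/-- The complex of a formula. -/
def preF (φ : CNF) : List (List ℕ) := cplx (Mtot (nF φ)) (triL (nF φ) (adjF φ))

/-- The number of triangles. -/
def ntri (M : ℕ) (L : List (List ℕ)) : ℕ := (cplx3 M L).length

lemma card_tris {M : ℕ} {L : List (List ℕ)} :
    (tris (simplices (cplx M L))).card = ntri M L := by
  have h1 : tris (simplices (cplx M L)) = (cplx3 M L).toFinset.image List.toFinset := by
    ext s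
    unfold tris
    rw [mem_filter, mem_simplices, mem_image]
    constructor
    · rintro ⟨⟨l, hl, rfl⟩, hc⟩
      rw [card_toFinset_sorted ((isComplexList_cplx L M).sorted l hl)] at hc
      rw [mem_cplx] at hl
      rcases hl with ⟨i, hi, rfl⟩ | ⟨i, j, _, _, _, _, rfl⟩ | hl
      · simp at hc
      · simp at hc
      · exact ⟨l, List.mem_toFinset.2 (mem_cplx3.2 hl), rfl⟩
    · rintro ⟨l, hl, rfl⟩
      rw [List.mem_toFinset] at hl
      have hl' : l ∈ cplx M L := by
        unfold cplx
        rw [List.mem_append, List.mem_append]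
        exact Or.inr (Or.inr hl)
      refine ⟨⟨l, hl', rfl⟩, ?_⟩
      rw [card_toFinset_sorted ((isComplexList_cplx L M).sorted l hl')]
      rw [mem_cplx3] at hl
      obtain ⟨i, j, k, _, _, _, _, _, _, rfl⟩ := hl
      rfl
  rw [h1, card_image_of_injOn, List.toFinset_card_of_nodup nodup_cplx3]
  · rfl
  · intro l hl l' hl' h
    rw [mem_coe, List.mem_toFinset] at hl hl'
    have s1 : l ∈ cplx M L := by
      unfold cplx
      rw [List.mem_append, List.mem_append]
      exact Or.inr (Or.inr hl)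
    have s2 : l' ∈ cplx M L := by
      unfold cplx
      rw [List.mem_append, List.mem_append]
      exact Or.inr (Or.inr hl')
    refine List.Pairwise.eq_of_mem_iff ((isComplexList_cplx L M).sorted l s1)
      ((isComplexList_cplx L M).sorted l' s2) (fun a => ?_)
    rw [← List.mem_toFinset, ← List.mem_toFinset, h]

/-- The exponent of the normalisation. -/
def expF (φ : CNF) : ℕ :=
  2 * (nF φ * (2 + 2 * nF φ)) + 1 + nF φ * (2 * nF φ) + nF φ + 2 * φ.1

/-- The signed sum. -/
def ySum (n0 : ℕ) (out : List (List ℕ × BN)) : ℤ :=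
  (out.map (fun p => gEval n0 p.1 * (p.2.val : ℤ))).sum

/-- The postprocessing. -/
def postF (φ : CNF) (out : List (List ℕ × BN)) : ℕ :=
  ((ySum (Mtot (nF φ)) out).natAbs * 2 ^ expF φ) /
    2 ^ ntri (Mtot (nF φ)) (triL (nF φ) (adjF φ))

theorem postF_correct (φ : CNF) {out : List (List ℕ × BN)}
    (h : IsOutput (simplices (preF φ)) out) : postF φ out = satCount φ := by
  have hne : triL (nF φ) (adjF φ) ≠ [] := by unfold triL; simp
  have h1 := eval_output isCx2_cplx (dim_cplx triL_spec hne) h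
  rw [nverts_cplx, card_tris, tris_cplx triL_spec, triL_toFinset,
    W_total (adjF_irrefl φ) (adjF_symm φ), indPoly_sat] at h1
  have h2 : (((ySum (Mtot (nF φ)) out).natAbs : ℕ) : ℚ) * 2 ^ expF φ =
      2 ^ ntri (Mtot (nF φ)) (triL (nF φ) (adjF φ)) * satCount φ := by
    have h3 : (((ySum (Mtot (nF φ)) out).natAbs : ℕ) : ℚ) = |((ySum (Mtot (nF φ)) out : ℤ) : ℚ)| := by
      rw [← Int.cast_abs, Int.abs_eq_natAbs]
      simp
    have h4 : ((ySum (Mtot (nF φ)) out : ℤ) : ℚ) = _ := h1
    rw [h3, h4]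
    simp only [abs_mul, abs_pow, abs_neg, abs_div, abs_one, Nat.abs_cast, Nat.abs_ofNat]
    unfold expF
    simp only [pow_add, pow_mul, div_pow, one_pow, pow_one]
    have e4 : (4 : ℚ) = 2 ^ 2 := by norm_num
    rw [e4]
    simp only [← pow_mul]
    field_simp
  have h5 : (ySum (Mtot (nF φ)) out).natAbs * 2 ^ expF φ =
      2 ^ ntri (Mtot (nF φ)) (triL (nF φ) (adjF φ)) * satCount φ := by
    exact_mod_cast h2
  unfold postF
  rw [h5, Nat.mul_div_cancel_left _ (by positivity)]

end Pool.Agent.H77.Morse
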