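import Pool.Agent.H77.Morse.CoreSum

set_option autoImplicit false

/-!
# Counting satisfying assignments by independent sets
-/

namespace Pool.Agent.H77.Morse

open Finset

/-! ### Four twins -/

section twins

variable {adj : ℕ → ℕ → Bool} {m L : ℕ}

open Classical in
/-- The weights. -/
noncomputable def fG (adj : ℕ → ℕ → Bool) (L : ℕ) (G : Finset ℕ → Prop) (A : Finset ℕ) : ℚ :=
  if IndepS adj A ∧ G (A ∩ range L) then (-1 / 4) ^ A.card else 0

lemma inter_insert_big {B : Finset ℕ} {a : ℕ} (h : L ≤ a) :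
    insert a B ∩ range L = B ∩ range L := by
  ext x
  simp only [mem_inter, mem_insert, mem_range]
  constructor
  · rintro ⟨rfl | h1, h2⟩
    · omega
    · exact ⟨h1, h2⟩
  · rintro ⟨h1, h2⟩
    exact ⟨Or.inr h1, h2⟩

lemma fG_two (G : Finset ℕ → Prop) {B : Finset ℕ} {a b : ℕ}
    (hab : adj a b = true) : fG adj L G (insert a (insert b B)) = 0 := by
  unfold fG
  rw [if_neg]
  rintro ⟨h, _⟩
  have := h a (mem_insert_self _ _) b (mem_insert_of_mem (mem_insert_self _ _))
  rw [hab] at this
  exact absurd this (by decide)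

lemma fG_one (hi : ∀ u, adj u u = false) (hs : ∀ u v, adj u v = adj v u) (hL : L ≤ m)
    (G : Finset ℕ → Prop) {B : Finset ℕ} (hB : B ⊆ range m) {a : ℕ} (ha : m ≤ a)
    (hsame : ∀ u, u < m → adj u a = adj u m) :
    fG adj L G (insert a B) =
      (-1 / 4) * fG adj L (fun X => G X ∧ ¬ ∃ u ∈ B, adj u m = true) B := by
  have haB : a ∉ B := fun h => by have := mem_range.1 (hB h); omega
  unfold fG
  rw [inter_insert_big (by omega), card_insert_of_notMem haB]
  have h1 : IndepS adj (insert a B) ↔ IndepS adj B ∧ ¬ ∃ u ∈ B, adj u m = true := by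
    constructor
    · intro h
      refine ⟨fun u hu v hv => h u (mem_insert_of_mem hu) v (mem_insert_of_mem hv), ?_⟩
      rintro ⟨u, hu, h2⟩
      have h3 := h u (mem_insert_of_mem hu) a (mem_insert_self _ _)
      rw [hsame u (mem_range.1 (hB hu)), h2] at h3
      exact absurd h3 (by decide)
    · rintro ⟨h, h'⟩ u hu v hv
      have key : ∀ w ∈ B, adj w a = false := by
        intro w hw
        rw [hsame w (mem_range.1 (hB hw))]
        cases h4 : adj w m
        · rfl
        · exact absurd ⟨w, hw, h4⟩ h'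
      rw [mem_insert] at hu hv
      rcases hu with rfl | hu <;> rcases hv with rfl | hv
      · exact hi _
      · rw [hs]; exact key v hv
      · exact key u hu
      · exact h u hu v hv
  by_cases h2 : IndepS adj B ∧ G (B ∩ range L) ∧ ¬ ∃ u ∈ B, adj u m = true
  · rw [if_pos h2, if_pos ⟨h1.2 ⟨h2.1, h2.2.2⟩, h2.2.1⟩, pow_succ]
    ring
  · rw [if_neg h2, if_neg, mul_zero]
    rintro ⟨h3, h4⟩
    exact h2 ⟨(h1.1 h3).1, h4, (h1.1 h3).2⟩

/-- Four mutually adjacent vertices with the same neighbours. -/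
lemma sum_twins (hi : ∀ u, adj u u = false) (hs : ∀ u v, adj u v = adj v u) (hL : L ≤ m)
    (G : Finset ℕ → Prop)
    (hsame : ∀ u, u < m → adj u (m + 1) = adj u m ∧ adj u (m + 2) = adj u m ∧
      adj u (m + 3) = adj u m)
    (h01 : adj m (m + 1) = true) (h02 : adj m (m + 2) = true) (h03 : adj m (m + 3) = true)
    (h12 : adj (m + 1) (m + 2) = true) (h13 : adj (m + 1) (m + 3) = true)
    (h23 : adj (m + 2) (m + 3) = true) :
    ∑ A ∈ (range (m + 4)).powerset, fG adj L G A =
      ∑ B ∈ (range m).powerset, fG adj L (fun X => G X ∧ ∃ u ∈ B, adj u m = true) B := by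
  have r4 : range (m + 4) = insert (m + 3) (insert (m + 2) (insert (m + 1) (insert m (range m)))) := by
    rw [range_add_one, range_add_one, range_add_one, range_add_one]
  have n0 : m ∉ range m := by simp
  have n1 : m + 1 ∉ insert m (range m) := by simp
  have n2 : m + 2 ∉ insert (m + 1) (insert m (range m)) := by simp
  have n3 : m + 3 ∉ insert (m + 2) (insert (m + 1) (insert m (range m))) := by simp
  rw [r4]
  rw [sum_powerset_insert n3, sum_powerset_insert n2, sum_powerset_insert n1,
    sum_powerset_insert n0, sum_powerset_insert n2, sum_powerset_insert n1, sum_powerset_insert n0,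
    sum_powerset_insert n1, sum_powerset_insert n0, sum_powerset_insert n0]
  simp only [sum_powerset_insert n1, sum_powerset_insert n0]
  simp only [← sum_add_distrib]
  refine sum_congr rfl (fun B hB => ?_)
  rw [mem_powerset] at hB
  have e0 := fG_one (G := G) hi hs hL hB (le_refl m) (fun u _ => rfl)
  have e1 := fG_one (G := G) hi hs hL hB (show m ≤ m + 1 by omega) (fun u hu => (hsame u hu).1)
  have e2 := fG_one (G := G) hi hs hL hB (show m ≤ m + 2 by omega) (fun u hu => (hsame u hu).2.1)
  have e3 := fG_one (G := G) hi hs hL hB (show m ≤ m + 3 by omega) (fun u hu => (hsame u hu).2.2)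
  have z : ∀ {a b : ℕ} (X : Finset ℕ), adj b a = true →
      fG adj L G (insert a (insert b X)) = 0 := fun X h => fG_two G (by rw [hs]; exact h)
  rw [e0, e1, e2, e3]
  simp only [z _ h01, z _ h02, z _ h03, z _ h12, z _ h13, z _ h23]
  have hsplit : fG adj L G B = fG adj L (fun X => G X ∧ ∃ u ∈ B, adj u m = true) B +
      fG adj L (fun X => G X ∧ ¬ ∃ u ∈ B, adj u m = true) B := by
    unfold fG
    by_cases h1 : IndepS adj B ∧ G (B ∩ range L)
    · by_cases h2 : ∃ u ∈ B, adj u m = true
      · rw [if_pos h1, if_pos ⟨h1.1, h1.2, h2⟩, if_neg (fun h => h.2.2 h2), add_zero]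
      · rw [if_pos h1, if_neg (fun h => h2 h.2.2), if_pos ⟨h1.1, h1.2, h2⟩, zero_add]
    · rw [if_neg h1, if_neg (fun h => h1 ⟨h.1, h.2.1⟩), if_neg (fun h => h1 ⟨h.1, h.2.1⟩), add_zero]
  rw [hsplit]
  ring

end twins

end Pool.Agent.H77.Morse
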